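import Pool.Agent.SPG.Targets

set_option autoImplicit false

/-! MP_f53b3d_al: target tBLK (blocks of levels). -/

namespace Pool.Agent.SPG

namespace BLK_

theorem cnt_add (E : ℕ → Bool) (a b c : ℕ) (h1 : a ≤ b) (h2 : b ≤ c) :
    cnt E a c = cnt E a b + cnt E b c := by
  unfold cnt
  rw [← Finset.Ico_union_Ico_eq_Ico h1 h2, Finset.filter_union,
    Finset.card_union_of_disjoint]
  exact Finset.disjoint_filter_filter (Finset.Ico_disjoint_Ico_consecutive a b c)

theorem cnt_le (E : ℕ → Bool) (a b : ℕ) : cnt E a b ≤ b - a := by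
  unfold cnt
  exact (Finset.card_filter_le _ _).trans (by simp)

theorem cnt_self (E : ℕ → Bool) (a : ℕ) : cnt E a a = 0 := by
  have := cnt_le E a a
  omega

theorem cnt_succ (E : ℕ → Bool) (a b : ℕ) (h : a ≤ b) : cnt E a (b + 1) ≤ cnt E a b + 1 := by
  have h1 := cnt_add E a b (b + 1) h (Nat.le_succ b)
  have h2 := cnt_le E b (b + 1)
  omega

theorem step (E : ℕ → Bool) (A : ℕ) (hA : 1 ≤ A) (hE : ∀ d, d ≤ A * cnt E 0 d) (s : ℕ) :
    ∃ d, s < d ∧ d ≤ s + 2 * A * cnt E s d ∧ 2 * A * cnt E s d + s ≤ d + 2 * A := by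
  classical
  have hex : ∃ d, s < d ∧ d ≤ s + 2 * A * cnt E s d := by
    refine ⟨2 * A * s + 1, ?_, ?_⟩
    · nlinarith
    · have h1 := hE (2 * A * s + 1)
      have hs : s ≤ 2 * A * s + 1 := by nlinarith
      have h2 := cnt_add E 0 s (2 * A * s + 1) (Nat.zero_le s) hs
      have h3 : cnt E 0 s ≤ s := by simpa using cnt_le E 0 s
      have h4 : A * cnt E 0 s ≤ A * s := Nat.mul_le_mul_left A h3
      rw [h2] at h1
      nlinarith
  have hf := Nat.find_spec hex
  have hm : ∀ m, m < Nat.find hex → ¬ (s < m ∧ m ≤ s + 2 * A * cnt E s m) :=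
    fun m hm => Nat.find_min hex hm
  generalize Nat.find hex = d at hf hm
  refine ⟨d, hf.1, hf.2, ?_⟩
  obtain ⟨e, rfl⟩ : ∃ e, d = e + 1 := ⟨d - 1, by omega⟩
  have hse : s ≤ e := by omega
  have h5 := cnt_succ E s e hse
  have h6 : 2 * A * cnt E s (e + 1) ≤ 2 * A * (cnt E s e + 1) := Nat.mul_le_mul_left _ h5
  have h7 : 2 * A * cnt E s e + s ≤ e := by
    rcases Nat.eq_or_lt_of_le hse with h | h
    · subst h
      simp [cnt_self]
    · have h8 := hm e (Nat.lt_succ_self e)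
      by_contra hc
      exact h8 ⟨h, by omega⟩
  nlinarith

end BLK_

theorem allBLK : tBLK := by
  intro E A hA hE A' hA'
  choose g hg1 hg2 hg3 using BLK_.step E A hA hE
  let σ : ℕ → ℕ := fun n => Nat.rec 0 (fun _ s => g s) n
  have hs0 : σ 0 = 0 := rfl
  have hs1 : ∀ i, σ (i + 1) = g (σ i) := fun i => rfl
  have hsum : ∀ i, 2 * A * cnt E 0 (σ i) ≤ σ i + 2 * A * i := by
    intro i
    induction i with
    | zero => simp [hs0, BLK_.cnt_self]
    | succ i ih =>
      have h1 := hg1 (σ i)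
      have h3 := hg3 (σ i)
      rw [← hs1 i] at h1 h3
      have h2 := BLK_.cnt_add E 0 (σ i) (σ (i + 1)) (Nat.zero_le _) h1.le
      rw [h2]
      nlinarith
  refine ⟨σ, ⟨hs0, fun i => ?_, fun i => ?_, fun i => ?_⟩⟩
  · rw [hs1 i]
    exact hg1 (σ i)
  · have h2 := hg2 (σ i)
    rw [← hs1 i] at h2
    exact h2.trans (Nat.add_le_add_left (Nat.mul_le_mul_right _ hA') _)
  · have h1 := hsum i
    have h2 := hE (σ i)
    have h3 : σ i ≤ 2 * A * i := by nlinarith
    exact h3.trans (Nat.mul_le_mul_right i hA')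

end Pool.Agent.SPG
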