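import Pool.Agent.SPG.Targets

set_option autoImplicit false

/-! MP_f53b3d_al: assembly of the main theorem `tCOM`. -/

namespace Pool.Agent.SPG

open Finset Filter
open scoped Pointwise

universe u

namespace COM_

/-- the invariants hold for the outer run -/
lemma inv_run (h_INI : tINI) (h_STP : tSTP) {E : Bool → ℕ → Bool} {σ : Bool → ℕ → ℕ} {A L : ℕ}
    (hP : Par E σ A L) (t : ℕ) : Inv E σ L false 0 t (runM σ L t) := by
  induction t with
  | zero => exact h_INI E σ A L hP false 0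
  | succ t ih => exact h_STP E σ A L hP _ false 0 t ih

lemma ev_cons_of_ne {M : ℕ} (l : Fin M → Bool) (η : List (Fin M → Bool)) {τ e : ℕ}
    (h : τ ≠ η.length) : ev (l :: η) τ e = ev η τ e := by
  simp [ev, h]

/-- the process -/
noncomputable def Zp {Γ : Type u} [Group Γ] (σ : Bool → ℕ → ℕ) (L M : ℕ)
    (psi : Bool → ℕ → (ℕ → Bool) → Γ) (η : List (Fin M → Bool)) : Γ :=
  pos σ psi (ev η) false (runM σ L η.length)

/-- the standing assumptions on the trees -/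
structure Trees {Γ : Type u} [Group Γ] (S : Bool → Finset Γ) (N : ℕ) (E : Bool → ℕ → Bool)
    (psi : Bool → ℕ → (ℕ → Bool) → Γ) : Prop where
  zero : ∀ c x, psi c 0 x = 1
  step : ∀ c d x, ∃ s ∈ S c, psi c (d + 1) x = psi c d x * s
  dep : ∀ c d x y, (∀ e, e < d → x e = y e) → psi c d x = psi c d y
  inj : ∀ c d, d ≤ N → ∀ x y, psi c d x = psi c d y → ∀ e, e < d → E c e = true → x e = y e

section

variable {Γ : Type u} [Group Γ] [DecidableEq Γ]

lemma lip1 (h_LIP : tLIP.{u}) (h_INI : tINI) (h_STP : tSTP) (h_DSJ : tDSJ) (h_CAU : tCAU.{u})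
    {S : Bool → Finset Γ} {U : Finset Γ} {N M A L : ℕ} {E : Bool → ℕ → Bool}
    {psi : Bool → ℕ → (ℕ → Bool) → Γ} {σ : Bool → ℕ → ℕ} (hP : Par E σ A L)
    (hT : Trees S N E psi) (hc : ∀ s ∈ S false, ∀ s' ∈ S true, s * s' = s' * s)
    (hSU : ∀ c, S c ⊆ U) (h1 : 1 ∈ U) (hU : ∀ x ∈ U, x⁻¹ ∈ U) (l : Fin M → Bool)
    (η : List (Fin M → Bool)) :
    ∃ k ∈ U ^ (3 * L), Zp σ L M psi (l :: η) = Zp σ L M psi η * k := by
  have hinv := inv_run h_INI h_STP hP η.length
  obtain ⟨k, hk, hk'⟩ := h_LIP Γ S U E σ L psi hc hSU h1 hU (fun c => (hP.blk c).zero)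
    (fun c i => (hP.blk c).lt i) hT.zero hT.step hT.dep (runM σ L η.length) false 0 η.length
    (ev (l :: η)) hinv
  refine ⟨k, hk, ?_⟩
  have h2 : pos σ psi (ev (l :: η)) false (runM σ L η.length) =
      pos σ psi (ev η) false (runM σ L η.length) := by
    refine h_CAU Γ σ psi hT.dep _ _ _ _ ?_
    intro p hp e he
    have h3 := ((h_DSJ E σ A L hP _ _ _ _ hinv).2 p hp).2 e he
    exact ev_cons_of_ne l η (by omega)
  unfold Zp
  rw [← h2, ← hk']
  rfl

lemma lipn (h_LIP : tLIP.{u}) (h_INI : tINI) (h_STP : tSTP) (h_DSJ : tDSJ) (h_CAU : tCAU.{u})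
    {S : Bool → Finset Γ} {U : Finset Γ} {N M A L : ℕ} {E : Bool → ℕ → Bool}
    {psi : Bool → ℕ → (ℕ → Bool) → Γ} {σ : Bool → ℕ → ℕ} (hP : Par E σ A L)
    (hT : Trees S N E psi) (hc : ∀ s ∈ S false, ∀ s' ∈ S true, s * s' = s' * s)
    (hSU : ∀ c, S c ⊆ U) (h1 : 1 ∈ U) (hU : ∀ x ∈ U, x⁻¹ ∈ U)
    (η : List (Fin M → Bool)) (ω : List (Fin M → Bool)) :
    ∃ k ∈ U ^ (3 * L * ω.length), Zp σ L M psi (ω ++ η) = Zp σ L M psi η * k := by
  induction ω with
  | nil => exact ⟨1, by simp, by simp⟩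
  | cons l ω ih =>
    obtain ⟨k, hk, hk'⟩ := ih
    obtain ⟨k2, hk2, hk2'⟩ := lip1 (M := M) h_LIP h_INI h_STP h_DSJ h_CAU hP hT hc hSU h1 hU l
      (ω ++ η)
    refine ⟨k * k2, ?_, ?_⟩
    · rw [List.length_cons, mul_add, mul_one, pow_add]
      exact Finset.mul_mem_mul hk hk2
    · rw [List.cons_append, hk2', hk', mul_assoc]

end

lemma four_le {K a r m : ℕ} (hK : 1 ≤ K) (ha : a = 4 * K + 3)
    (h : a * r ≤ K * m + 3) : 4 * r ≤ m := by
  by_contra hcon
  push Not at hcon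
  obtain ⟨d, hd⟩ := Nat.exists_eq_add_of_lt hcon
  subst ha
  have h1 : 4 * r = m + d + 1 := hd
  have h2 : K * (4 * r) = K * m + K * d + K := by rw [h1]; ring
  have h3 : (4 * K + 3) * r = K * (4 * r) + 3 * r := by ring
  rw [h3, h2] at h
  have h4 : 0 ≤ K * d := Nat.zero_le _
  omega

end COM_

open COM_

theorem allCOM (h_ETR : tETR.{u}) (h_BLK : tBLK) (h_PRE : tPRE.{u}) (h_LIP : tLIP.{u})
    (h_INI : tINI) (h_STP : tSTP) (h_DSJ : tDSJ) (h_CAU : tCAU.{u}) (h_GRD : tGRD.{u})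
    (h_CPT : tCPT.{u}) (h_NSP : tNSP.{u}) : tCOM.{u} := by
  classical
  intro Γ _ S T c hc hS hT hcomm
  obtain ⟨A1, hA1, h1⟩ := h_ETR Γ S c hc hS
  obtain ⟨A2, hA2, h2⟩ := h_ETR Γ T c hc hT
  obtain ⟨A0, hA0⟩ : ∃ A0, A0 = max A1 A2 := ⟨_, rfl⟩
  obtain ⟨A, hA⟩ : ∃ A, A = 2 * A0 := ⟨_, rfl⟩
  obtain ⟨L, hL⟩ : ∃ L, L = 40 * A ^ 2 := ⟨_, rfl⟩
  obtain ⟨K, hK⟩ : ∃ K, K = (L + 2) ^ 2 + 2 := ⟨_, rfl⟩
  obtain ⟨a, ha⟩ : ∃ a, a = 4 * K + 3 := ⟨_, rfl⟩
  have hA0' : 1 ≤ A0 := by rw [hA0]; exact hA1.trans (le_max_left _ _)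
  let SS : Bool → Finset Γ := fun b => cond b (insert 1 T) (insert 1 S)
  let U : Finset Γ := (SS false ∪ SS true) ∪ (SS false ∪ SS true)⁻¹
  have hSU : ∀ c, SS c ⊆ U := by
    intro c
    cases c
    · exact subset_union_left.trans subset_union_left
    · exact subset_union_right.trans subset_union_left
  have h1U : (1 : Γ) ∈ U := hSU false (mem_insert_self 1 S)
  have hUinv : ∀ x ∈ U, x⁻¹ ∈ U := by
    intro x hx
    rcases mem_union.1 hx with h | h
    · exact mem_union_right _ (Finset.inv_mem_inv h)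
    · refine mem_union_left _ ?_
      have := Finset.inv_mem_inv h
      rwa [inv_inv] at this
  have hcomm' : ∀ s ∈ SS false, ∀ s' ∈ SS true, s * s' = s' * s := by
    intro s hs s' hs'
    rcases mem_insert.1 hs with rfl | hs
    · simp
    · rcases mem_insert.1 hs' with rfl | hs'
      · simp
      · exact hcomm s hs s' hs'
  obtain ⟨f, hf1, hf2⟩ := h_CPT Γ (U ^ (3 * L * a)) (by
    intro n
    obtain ⟨t1⟩ := h1 (L * (a * n))
    obtain ⟨t2⟩ := h2 (L * (a * n))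
    have hd1 : ∀ d, d ≤ A0 * cnt t1.E 0 d := fun d =>
      (t1.dens d).trans (Nat.mul_le_mul_right _ (by rw [hA0]; exact le_max_left _ _))
    have hd2 : ∀ d, d ≤ A0 * cnt t2.E 0 d := fun d =>
      (t2.dens d).trans (Nat.mul_le_mul_right _ (by rw [hA0]; exact le_max_right _ _))
    obtain ⟨σ1, hσ1⟩ := h_BLK t1.E A0 hA0' hd1 A hA.symm.le
    obtain ⟨σ2, hσ2⟩ := h_BLK t2.E A0 hA0' hd2 A hA.symm.le
    let E : Bool → ℕ → Bool := fun b => cond b t2.E t1.E
    let psi : Bool → ℕ → (ℕ → Bool) → Γ := fun b => cond b t2.psi t1.psi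
    let σ : Bool → ℕ → ℕ := fun b => cond b σ2 σ1
    have hP : Par E σ A L := by
      refine ⟨?_, by omega, hL⟩
      intro c
      cases c
      · exact hσ1
      · exact hσ2
    have hTr : Trees SS (L * (a * n)) E psi := by
      refine ⟨?_, ?_, ?_, ?_⟩
      · intro c
        cases c
        · exact t1.zero
        · exact t2.zero
      · intro c
        cases c
        · exact t1.step
        · exact t2.step
      · intro c d x y h
        cases c
        · exact t1.dep d x y fun e he _ => h e he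
        · exact t2.dep d x y fun e he _ => h e he
      · intro c
        cases c
        · exact t1.inj
        · exact t2.inj
    obtain ⟨g, hg0, hg1, hg2⟩ := h_GRD (Fin (L * (a * n)) → Bool) Γ
      (Zp σ L (L * (a * n)) psi) a n (by
        intro η r z hr hle
        obtain ⟨m, hm, hq⟩ := h_PRE Γ E σ A L (L * (a * n)) (L * (a * n)) psi hP hTr.dep hTr.inj
          η (a * r) (Nat.mul_le_mul_left _ hle) (Nat.mul_le_mul_left _ hle)
        refine (hq z).trans ?_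
        have h4 : 4 * r ≤ m := four_le (K := K) (by omega) ha (by rw [hK]; exact hm)
        calc ((1 : ℝ) / 2) ^ m ≤ (1 / 2) ^ (4 * r) :=
              pow_le_pow_of_le_one (by norm_num) (by norm_num) h4
          _ = (1 / 16) ^ r := by rw [pow_mul]; norm_num)
    refine ⟨fun w => Zp σ L (L * (a * n)) psi (g w), ?_, hg2⟩
    intro w b hw
    obtain ⟨ω, hω, hgb⟩ := hg1 w b hw
    obtain ⟨k, hk, hk'⟩ := lipn (M := L * (a * n)) h_LIP h_INI h_STP h_DSJ h_CAU hP hTr hcomm'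
      hSU h1U hUinv (g w) ω
    rw [hω] at hk
    exact ⟨k, hk, by simp only [hgb, hk']⟩)
  exact h_NSP Γ _ f hf1 hf2

end Pool.Agent.SPG
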