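import Pool.Agent.SPG.Targets
import Pool.Agent.SupraGreedy.Compact

set_option autoImplicit false

namespace Pool.Agent.SPG

open Finset

universe u

theorem allCPT : tCPT.{u} := by
  classical
  intro Γ _ K h
  obtain ⟨f, hf1, hf2⟩ := SupraGreedy.infinite_tree K (by
    intro m
    obtain ⟨f, hf1, hf2⟩ := h m
    refine ⟨fun w => f w.reverse, ?_, ?_⟩
    · intro w b hw
      obtain ⟨k, hk, hk'⟩ := hf1 w.reverse b (by simpa using hw)
      refine ⟨k, hk, ?_⟩
      change f (w ++ [b]).reverse = f w.reverse * k
      rw [List.reverse_append, List.reverse_singleton, List.singleton_append, hk']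
    · intro w w' h1 h2 h3
      exact List.reverse_injective
        (hf2 w.reverse w'.reverse (by simpa using h2.symm) (by simpa using h1) h3))
  refine ⟨fun w => f w.reverse, ?_, ?_⟩
  · intro w b
    obtain ⟨k, hk, hk'⟩ := hf1 w.reverse b
    refine ⟨k, hk, ?_⟩
    change f (b :: w).reverse = f w.reverse * k
    rw [List.reverse_cons, hk']
  · intro w w' h1 h2
    exact List.reverse_injective (hf2 w.reverse w'.reverse (by simpa using h1.symm) h2)

end Pool.Agent.SPG
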