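import Pool.Agent.SPG.Targets

set_option autoImplicit false

/-! MP_f53b3d_al: target `tDSJ` (stamps of the components). -/

namespace Pool.Agent.SPG

namespace DSJ_

theorem ab_case (E : Bool → ℕ → Bool) (σ : Bool → ℕ → ℕ) (L : ℕ) (c : Bool)
    (τ t i n : ℕ) (st : ℕ → ℕ) (J : List Pc) (h : AbInv E σ L c τ t i n st J) :
    List.Pairwise (fun p p' : Bool × Pc => Dj p.2 p'.2)
      ((c, (⟨σ c i, st⟩ : Pc)) :: J.map (fun P => (!c, P))) ∧
    ∀ p ∈ ((c, (⟨σ c i, st⟩ : Pc)) :: J.map (fun P => (!c, P))),
      p.2.dep ≤ L * (t - τ) ∧ ∀ e, e < p.2.dep → τ ≤ p.2.st e ∧ p.2.st e < t := by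
  have hd := h.disj
  rw [List.pairwise_cons] at hd
  obtain ⟨hd1, hd2⟩ := hd
  constructor
  · rw [List.pairwise_cons]
    constructor
    · intro q hq
      rw [List.mem_map] at hq
      obtain ⟨Q, hQ, rfl⟩ := hq
      exact hd1 Q hQ
    · rw [List.pairwise_map]
      exact hd2
  · intro p hp
    rw [List.mem_cons] at hp
    rcases hp with rfl | hp
    · exact ⟨h.dep_le, fun e he => h.st_mem e he⟩
    · rw [List.mem_map] at hp
      obtain ⟨Q, hQ, rfl⟩ := hp
      exact h.J_mem Q hQ

theorem main (E : Bool → ℕ → Bool) (σ : Bool → ℕ → ℕ) (L : ℕ) :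
    ∀ (X : St) (c : Bool) (τ t : ℕ), Inv E σ L c τ t X →
    List.Pairwise (fun p p' : Bool × Pc => Dj p.2 p'.2) (comps σ c X) ∧
    ∀ p ∈ comps σ c X, p.2.dep ≤ L * (t - τ) ∧
      ∀ e, e < p.2.dep → τ ≤ p.2.st e ∧ p.2.st e < t := by
  intro X
  induction X with
  | ab i n st J =>
    intro c τ t h
    exact ab_case E σ L c τ t i n st J h
  | cr i d n t0 st J inn ih =>
    intro c τ t h
    obtain ⟨ht0, ⟨n0, -, hA⟩, -, -, hdep, hd, hst, hin⟩ := h
    obtain ⟨ih1, ih2⟩ := ih (!c) (t0 + 1) t hin
    have hA0 := hA.i_le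
    have hτ : τ ≤ t0 := by omega
    have hmono : L * (t0 - τ) ≤ L * (t - τ) := Nat.mul_le_mul_left _ (by omega)
    have hsum : L * (t0 - τ) + L * (t - (t0 + 1)) ≤ L * (t - τ) := by
      rw [← Nat.mul_add]
      exact Nat.mul_le_mul_left _ (by omega)
    have hD := hA.disj
    rw [List.pairwise_cons] at hD
    obtain ⟨hD1, hD2⟩ := hD
    have hdl := hA.dep_le
    have hstle : ∀ e, e < d → τ ≤ st e ∧ st e ≤ t0 := by
      intro e _
      rcases Nat.lt_or_ge e (σ c i) with h1 | h1
      · have := hA.st_mem e h1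
        omega
      · have := hst e h1
        omega
    constructor
    · change List.Pairwise (fun p p' : Bool × Pc => Dj p.2 p'.2)
        ((c, (⟨d, st⟩ : Pc)) :: (J.map (fun P => (!c, P)) ++ comps σ (!c) inn))
      rw [List.pairwise_cons]
      constructor
      · intro q hq
        rw [List.mem_append] at hq
        rcases hq with hq | hq
        · rw [List.mem_map] at hq
          obtain ⟨Q, hQ, rfl⟩ := hq
          intro e he e' he'
          rcases Nat.lt_or_ge e (σ c i) with h1 | h1
          · exact hD1 Q hQ e h1 e' he'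
          · have h2 := hst e h1
            have h3 := ((hA.J_mem Q hQ).2 e' he').2
            change st e ≠ Q.st e'
            omega
        · intro e he e' he'
          have h1 := (hstle e he).2
          have h2 := ((ih2 q hq).2 e' he').1
          change st e ≠ q.2.st e'
          omega
      · rw [List.pairwise_append]
        refine ⟨?_, ih1, ?_⟩
        · rw [List.pairwise_map]
          exact hD2
        · intro p hp q hq
          rw [List.mem_map] at hp
          obtain ⟨Q, hQ, rfl⟩ := hp
          intro e he e' he'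
          have h1 := ((hA.J_mem Q hQ).2 e he).2
          have h2 := ((ih2 q hq).2 e' he').1
          change Q.st e ≠ q.2.st e'
          omega
    · intro p hp
      change p ∈ ((c, (⟨d, st⟩ : Pc)) :: (J.map (fun P => (!c, P)) ++ comps σ (!c) inn)) at hp
      rw [List.mem_cons, List.mem_append] at hp
      rcases hp with rfl | hp | hp
      · refine ⟨?_, ?_⟩
        · change d ≤ L * (t - τ)
          omega
        · intro e he
          have h1 := hstle e he
          change τ ≤ st e ∧ st e < t
          omega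
      · rw [List.mem_map] at hp
        obtain ⟨Q, hQ, rfl⟩ := hp
        obtain ⟨h1, h2⟩ := hA.J_mem Q hQ
        refine ⟨le_trans h1 hmono, ?_⟩
        intro e he
        have h3 := h2 e he
        change τ ≤ Q.st e ∧ Q.st e < t
        omega
      · obtain ⟨h1, h2⟩ := ih2 p hp
        refine ⟨by omega, ?_⟩
        intro e he
        have h3 := h2 e he
        omega

end DSJ_

theorem allDSJ : tDSJ := by
  intro E σ A L _ X c τ t h
  exact DSJ_.main E σ L X c τ t h

end Pool.Agent.SPG
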