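import Pool.Agent.SPG.Targets

set_option autoImplicit false

/-! MP_f53b3d_al: target tETR (trees of words from exponential growth). -/

namespace Pool.Agent.SPG

open Finset Filter
open scoped Pointwise

universe u

namespace ETR_

lemma cnt_eq_sum (E : ℕ → Bool) (n : ℕ) :
    cnt E 0 n = ∑ e ∈ Finset.range n, (if E e = true then 1 else 0) := by
  unfold cnt
  rw [Finset.card_filter]
  congr 1
  ext e
  simp

lemma cnt_list (l : List Bool) : cnt (fun e => l.getD e false) 0 l.length = l.count true := by
  rw [cnt_eq_sum]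
  induction l with
  | nil => simp
  | cons b l ih =>
    rw [List.length_cons, Finset.sum_range_succ']
    have h1 : ∀ e, (b :: l).getD (e + 1) false = l.getD e false := fun e => by simp
    have h2 : (b :: l).getD 0 false = b := by simp
    simp only [h1, h2]
    rw [ih, List.count_cons]
    cases b <;> simp

lemma cnt_add (E : ℕ → Bool) (a b d : ℕ) (h1 : a ≤ b) (h2 : b ≤ d) :
    cnt E a d = cnt E a b + cnt E b d := by
  unfold cnt
  rw [← Finset.card_union_of_disjoint]
  · rw [← Finset.filter_union, Finset.Ico_union_Ico_eq_Ico h1 h2]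
  · apply Finset.disjoint_filter_filter
    exact Finset.Ico_disjoint_Ico_consecutive a b d

lemma cnt_true (E : ℕ → Bool) (a b : ℕ) (h : ∀ e, a ≤ e → e < b → E e = true) :
    cnt E a b = b - a := by
  unfold cnt
  rw [Finset.filter_true_of_mem]
  · simp
  · intro e he
    rw [Finset.mem_Ico] at he
    exact h e he.1 he.2

lemma cnt_shift (E F : ℕ → Bool) (m d : ℕ) (h : ∀ e, e < d → F e = E (m + e)) :
    cnt F 0 d = cnt E m (m + d) := by
  unfold cnt
  apply Finset.card_bij (fun e _ => m + e)
  · intro e he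
    rw [Finset.mem_filter, Finset.mem_Ico] at he ⊢
    refine ⟨⟨by omega, by omega⟩, ?_⟩
    rw [← h e he.1.2]; exact he.2
  · intro a _ b _ hab
    omega
  · intro e he
    rw [Finset.mem_filter, Finset.mem_Ico] at he
    refine ⟨e - m, ?_, by omega⟩
    rw [Finset.mem_filter, Finset.mem_Ico]
    refine ⟨⟨by omega, by omega⟩, ?_⟩
    rw [h (e - m) (by omega)]
    have : m + (e - m) = e := by omega
    rw [this]; exact he.2

lemma wp_append {Γ : Type u} [Group Γ] {D : ℕ} (g : Fin D → Γ) (u w : List (Fin D)) :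
    wp g (u ++ w) = wp g u * wp g w := by
  unfold wp
  rw [List.map_append, List.prod_append]

open Classical in
/-- the minimal words of length `n` as a finset -/
noncomputable def WW {Γ : Type u} [Group Γ] {D : ℕ} (g : Fin D → Γ) (n : ℕ) :
    Finset (List (Fin D)) :=
  ((Finset.univ : Finset (Fin n → Fin D)).image (fun f => List.ofFn f)).filter
    (fun w => w ∈ MW g)

open Classical in
lemma mem_WW {Γ : Type u} [Group Γ] {D : ℕ} (g : Fin D → Γ) (n : ℕ) (w : List (Fin D)) :
    w ∈ WW g n ↔ w.length = n ∧ w ∈ MW g := by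
  unfold WW
  rw [Finset.mem_filter, Finset.mem_image]
  constructor
  · rintro ⟨⟨f, _, rfl⟩, h⟩
    exact ⟨by simp, h⟩
  · rintro ⟨h1, h2⟩
    subst h1
    exact ⟨⟨fun i => w.get i, Finset.mem_univ _, List.ofFn_get w⟩, h2⟩

open Classical in
lemma card_WW {Γ : Type u} [Group Γ] (S : Finset Γ) (h_MIN : tMIN.{u}) (n : ℕ) :
    (S ^ n).card ≤ (WW (fun i : Fin S.card => ((S.equivFin.symm i : S) : Γ)) n).card := by
  set g : Fin S.card → Γ := fun i => ((S.equivFin.symm i : S) : Γ) with hg
  have hsub : S ^ n ⊆ (WW g n).image (wp g) := by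
    intro x hx
    rw [Finset.mem_pow] at hx
    obtain ⟨f, hf⟩ := hx
    obtain ⟨w', hw1, hw2, hw3⟩ := (h_MIN Γ S.card g).2.2 (List.ofFn fun i => S.equivFin (f i))
    rw [Finset.mem_image]
    refine ⟨w', (mem_WW g n w').2 ⟨by rw [hw2]; simp, hw1⟩, ?_⟩
    rw [hw3, ← hf]
    unfold wp
    rw [List.map_ofFn]
    congr 2
    ext i
    simp [hg]
  exact (Finset.card_le_card hsub).trans Finset.card_image_le

lemma take_eq_split {α : Type*} (l : List α) (m d : ℕ) :
    l.take (m + d) = l.take m ++ (l.drop m).take d := by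
  rw [List.take_add]

lemma factor_mem {Γ : Type u} [Group Γ] {D : ℕ} (g : Fin D → Γ)
    (h : ∀ u w : List (Fin D), u ++ w ∈ MW g → u ∈ MW g ∧ w ∈ MW g)
    (l : List (Fin D)) (hl : l ∈ MW g) (m d : ℕ) : (l.drop m).take d ∈ MW g := by
  have h1 : l.drop m ∈ MW g := (h (l.take m) (l.drop m) (by rwa [List.take_append_drop])).2
  exact (h ((l.drop m).take d) ((l.drop m).drop d) (by rwa [List.take_append_drop])).1

end ETR_

open ETR_ in
open Classical in
theorem allETR (h_CNT : tCNT) (h_FUN : tFUN) (h_MIN : tMIN.{u}) (h_CUT : tCUT) :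
    tETR.{u} := by
  intro Γ _ S c hc hfr
  set D := S.card with hD
  set g : Fin D → Γ := fun i => ((S.equivFin.symm i : S) : Γ) with hg
  have hgS : ∀ i, g i ∈ S := fun i => (S.equivFin.symm i).2
  set r : ℝ := Real.sqrt c with hr
  have hr2 : r ^ 2 = c := Real.sq_sqrt (by linarith)
  have hr0 : 0 ≤ r := Real.sqrt_nonneg c
  have hr1 : 1 < r := by
    by_contra hcon
    push Not at hcon
    nlinarith
  -- `S` is not empty
  have hD1 : 1 ≤ D := by
    by_contra hcon
    have hS : S = ∅ := by
      rw [← Finset.card_eq_zero]; omega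
    obtain ⟨n, hn1, hn2⟩ := (hfr.and_eventually (eventually_ge_atTop 1)).exists
    rw [hS, Finset.empty_pow (by omega)] at hn1
    have : (1 : ℝ) ≤ c ^ n := one_le_pow₀ hc.le
    simp at hn1
    linarith
  have hDR : (1 : ℝ) ≤ (D : ℝ) := by exact_mod_cast hD1
  set x : ℝ := (r - 1) / D with hx
  have hx0 : 0 < x := div_pos (by linarith) (by linarith)
  have hxD : (D : ℝ) * x = r - 1 := by
    rw [hx]; field_simp
  have hxr : 1 + ((D : ℝ) - 1) * x ≤ r := by nlinarith
  obtain ⟨B0, hB0⟩ := pow_unbounded_of_one_lt (1 / x) hr1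
  set B := B0 + 1 with hB
  have hBx : 1 / x ≤ r ^ B := by
    refine hB0.le.trans ?_
    exact pow_le_pow_right₀ hr1.le (by omega)
  refine ⟨2 * B, by omega, ?_⟩
  intro N
  obtain ⟨n, hn1, hn2⟩ := (hfr.and_eventually (eventually_ge_atTop (2 * B * N))).exists
  have hcard : r ^ (2 * n) < ((WW g n).card : ℝ) := by
    rw [pow_mul, hr2]
    refine hn1.trans_le ?_
    exact_mod_cast card_WW S h_MIN n
  obtain ⟨E0, hE1, hE2, hE3⟩ := h_CNT D n B x r (WW g n) hD1
    (fun w hw => ((mem_WW g n w).1 hw).1) hx0 hxr hBx hcard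
  obtain ⟨φ, hφ1, hφ2, hφ3⟩ := h_FUN D E0 _ hE2
  set E : ℕ → Bool := fun e => E0.getD e false with hE
  have hcE : cnt E 0 n = E0.count true := by
    rw [← hE1]; exact cnt_list E0
  obtain ⟨m, hm1, hm2, hm3⟩ := h_CUT E n B (by omega) (by rw [hcE]; exact hE3)
  have hNn : N ≤ n - m := by
    have h1 : 2 * B * N ≤ 2 * B * (n - m) := le_trans hn2 hm2
    exact Nat.le_of_mul_le_mul_left h1 (by omega)
  set F : ℕ → Bool := fun e => if e < n - m then E (m + e) else true with hF
  set sh : (ℕ → Bool) → ℕ → Bool := fun x e => if e < m then false else x (e - m) with hsh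
  have hlen : ∀ x, (φ x).length = n := fun x => (hφ1 x).2.trans hE1
  have hmw : ∀ x, φ x ∈ MW g := fun x => ((mem_WW g n _).1 (by
    have := (hφ1 x).1
    simpa using this)).2
  refine ⟨⟨F, fun d x => wp g (((φ (sh x)).drop m).take d), ?_, ?_, ?_, ?_, ?_⟩⟩
  · intro x
    simp [wp]
  · intro d x y hxy
    have key : (φ (sh x)).take (m + d) = (φ (sh y)).take (m + d) := by
      apply hφ2
      intro e he hEe
      simp only [hsh]
      by_cases h1 : e < m
      · simp [h1]
      · rw [if_neg h1, if_neg h1]
        apply hxy (e - m) (by omega)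
        simp only [hF]
        split_ifs with h2
        · have h3 : m + (e - m) = e := by omega
          rw [h3]; exact hEe
        · rfl
    rw [take_eq_split, take_eq_split] at key
    have hl : ((φ (sh x)).take m).length = ((φ (sh y)).take m).length := by
      rw [List.length_take, List.length_take, hlen, hlen]
    have := List.append_inj_right key hl
    simp only [this]
  · intro d x
    rw [List.take_add_one, wp_append]
    rcases h : (List.drop m (φ (sh x)))[d]? with _ | a
    · refine ⟨1, Finset.mem_insert_self _ _, ?_⟩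
      simp [wp]
    · refine ⟨g a, Finset.mem_insert_of_mem (hgS a), ?_⟩
      simp [wp]
  · intro d hd x y hxy e he hFe
    have hw : ((φ (sh x)).drop m).take d = ((φ (sh y)).drop m).take d := by
      apply (h_MIN Γ D g).2.1 _ (factor_mem g (h_MIN Γ D g).1 _ (hmw _) m d) _
        (factor_mem g (h_MIN Γ D g).1 _ (hmw _) m d) _ hxy
      simp [hlen]
    have h0 : (φ (sh x)).take m = (φ (sh y)).take m := by
      apply hφ2
      intro e he _
      simp only [hsh]
      rw [if_pos he, if_pos he]
    have key : (φ (sh x)).take (m + d) = (φ (sh y)).take (m + d) := by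
      rw [take_eq_split, take_eq_split, h0, hw]
    have h2 := hφ3 (sh x) (sh y) (m + d) (by rw [hE1]; omega) key (m + e) (by omega) (by
      have h3 : F e = E (m + e) := by
        simp only [hF]
        rw [if_pos (by omega)]
      rw [h3] at hFe
      exact hFe)
    simp only [hsh] at h2
    rw [if_neg (by omega), if_neg (by omega)] at h2
    have h3 : m + e - m = e := by omega
    rw [h3] at h2
    exact h2
  · intro d
    have hA : ∀ d, d ≤ n - m → d ≤ 2 * B * cnt F 0 d := by
      intro d hd
      have h1 := hm3 (m + d) (by omega) (by omega)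
      rw [cnt_shift E F m d (fun e he => by simp only [hF]; rw [if_pos (by omega)])]
      omega
    by_cases hd : d ≤ n - m
    · exact hA d hd
    · push Not at hd
      have h1 := hA (n - m) le_rfl
      rw [cnt_add F 0 (n - m) d (by omega) hd.le]
      have h2 : cnt F (n - m) d = d - (n - m) := by
        apply cnt_true
        intro e he _
        simp only [hF]
        rw [if_neg (by omega)]
      rw [h2, Nat.mul_add]
      have h3 : d - (n - m) ≤ 2 * B * (d - (n - m)) := Nat.le_mul_of_pos_left _ (by omega)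
      omega

end Pool.Agent.SPG
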