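import Pool.Agent.SPG.Targets

set_option autoImplicit false

/-! MP_f53b3d_al, project SPG: facts on all states (`tFAC`) and the start of a run (`tINI`). -/

namespace Pool.Agent.SPG

namespace FAC_

/-- `σ c (i + 1) ≤ A (i + 1)` and `L = 40 A ^ 2` bound the number of steps -/
lemma arith {A L x y i : ℕ} (hA : 1 ≤ A) (hL : L = 40 * A ^ 2) (h : L * x ≤ 10 * y)
    (hy : y ≤ A * i) : 4 * x ≤ i := by
  subst hL
  have h1 : 10 * A * (4 * A * x) ≤ 10 * A * i := by
    calc 10 * A * (4 * A * x) = 40 * A ^ 2 * x := by ring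
      _ ≤ 10 * y := h
      _ ≤ 10 * (A * i) := by omega
      _ = 10 * A * i := by ring
  have h2 : 4 * A * x ≤ i := Nat.le_of_mul_le_mul_left h1 (by omega)
  calc 4 * x = 4 * 1 * x := by ring
    _ ≤ 4 * A * x := by gcongr
    _ ≤ i := h2

lemma arith2 {A L v i : ℕ} (hA : 1 ≤ A) (hL : L = 40 * A ^ 2)
    (h : L * v ≤ 2 * (A * i)) : 20 * v ≤ i := by
  subst hL
  have h1 : 2 * A * (20 * A * v) ≤ 2 * A * i := by
    calc 2 * A * (20 * A * v) = 40 * A ^ 2 * v := by ring
      _ ≤ 2 * (A * i) := h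
      _ = 2 * A * i := by ring
  have h2 : 20 * A * v ≤ i := Nat.le_of_mul_le_mul_left h1 (by omega)
  calc 20 * v = 20 * 1 * v := by ring
    _ ≤ 20 * A * v := by gcongr
    _ ≤ i := h2

lemma arith3 {A L i : ℕ} (hA : 1 ≤ A) (hL : L = 40 * A ^ 2)
    (h : L ≤ A * i) : 40 ≤ i := by
  subst hL
  have h1 : A * (40 * A) ≤ A * i := by
    calc A * (40 * A) = 40 * A ^ 2 := by ring
      _ ≤ A * i := h
  have h2 : 40 * A ≤ i := Nat.le_of_mul_le_mul_left h1 (by omega)
  omega

end FAC_

theorem allFAC : tFAC := by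
  intro E σ A L hP X
  induction X with
  | ab i n st J =>
    intro c τ t h
    have h' : AbInv E σ L c τ t i n st J := h
    have hn : L * n ≤ 10 * σ c i := by
      have := h'.pot
      have h2 : L * n ≤ L * (n + eJ L J) := Nat.mul_le_mul_left _ (by omega)
      omega
    have h4 : 4 * n ≤ i := FAC_.arith hP.hA hP.hL hn ((hP.blk c).h2 i)
    have hi := h'.i_le
    have hu := h'.u_le
    refine ⟨by omega, ?_, ?_, ?_, ?_, ?_⟩
    · show 2 * n ≤ t - τ
      omega
    · show t ≤ τ + 2 * cnt (E c) 0 (σ c i) + 2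
      omega
    · exact le_refl _
    · exact h'.dep_le
    · exact h'.st_mem
  | cr i d n t0 st J inn ih =>
    intro c τ t h
    obtain ⟨h0, ⟨n0, hn0, hA⟩, hl, hd, heq, hdi, hst, hin⟩ := h
    obtain ⟨k1, k2, -, -, -, -⟩ := ih (!c) (t0 + 1) t hin
    obtain ⟨v, hv⟩ : ∃ v, t = t0 + 1 + v := ⟨t - (t0 + 1), by omega⟩
    have hv' : t - (t0 + 1) = v := by omega
    rw [hv'] at heq k2
    have hLv : L * v ≤ 2 * (d - σ c i) := by
      have h1 : L * (2 * inn.nf) ≤ L * v := Nat.mul_le_mul_left _ k2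
      have h2 : L * (2 * inn.nf) = 2 * (L * inn.nf) := by ring
      omega
    have hs : σ c (i + 1) ≤ A * (i + 1) := (hP.blk c).h2 (i + 1)
    have hn : L * n0 ≤ 10 * σ c i := by
      have := hA.pot
      have h2 : L * n0 ≤ L * (n0 + eJ L J) := Nat.mul_le_mul_left _ (by omega)
      omega
    have h5 : L * (n0 + v) ≤ 10 * σ c (i + 1) := by
      rw [Nat.mul_add]
      omega
    have h6 : 4 * (n0 + v) ≤ i + 1 := FAC_.arith hP.hA hP.hL h5 hs
    have h7 : 40 ≤ i + 1 := FAC_.arith3 hP.hA hP.hL (by omega)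
    have h8 : 20 * v ≤ i + 1 := FAC_.arith2 hP.hA hP.hL (by omega)
    have hi := hA.i_le
    have hu := hA.u_le
    refine ⟨by omega, ?_, ?_, ?_, ?_, ?_⟩
    · show 2 * n ≤ t - τ
      omega
    · show t ≤ τ + 2 * cnt (E c) 0 (σ c i) + 2
      omega
    · exact hdi
    · show d ≤ L * (t - τ)
      have h9 : σ c i ≤ L * (t0 - τ) := hA.dep_le
      have h10 : t - τ = (t0 - τ) + (1 + v) := by omega
      rw [h10, Nat.mul_add, Nat.mul_add]
      omega
    · intro e he
      have he' : e < d := he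
      show τ ≤ st e ∧ st e < t
      rcases lt_or_ge e (σ c i) with h11 | h11
      · have := hA.st_mem e h11
        omega
      · rw [hst e h11]
        omega

theorem allINI : tINI := by
  intro E σ A L hP c τ
  have hz : σ c 0 = 0 := (hP.blk c).zero
  show AbInv E σ L c τ τ 0 0 (fun _ => 0) []
  refine
    { i_le := by omega
      u_le := by omega
      dep_le := by omega
      n_le := by omega
      pot := by
        show L * (0 + 0) ≤ _
        omega
      st_mem := by
        intro e he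
        omega
      J_mem := by
        intro Q hQ
        simp at hQ
      disj := by simp
      good := by
        intro s h1 h2
        left
        omega }

end Pool.Agent.SPG
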