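import Pool.Agent.SPG.Targets

set_option autoImplicit false

/-! MP_f53b3d_al: targets tFUN (the tree of words as a function) and tCUT (cutting). -/

namespace Pool.Agent.SPG

open Finset

namespace FUN_

theorem step_false {D : ℕ} (E : List Bool) (W : Set (List (Fin D))) (a : Fin D)
    (φ : (ℕ → Bool) → List (Fin D))
    (h1 : ∀ x, φ x ∈ {v | a :: v ∈ W} ∧ (φ x).length = E.length)
    (h2 : ∀ x y d, (∀ e, e < d → E.getD e false = true → x e = y e) →
      (φ x).take d = (φ y).take d)
    (h3 : ∀ x y d, d ≤ E.length → (φ x).take d = (φ y).take d →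
      ∀ e, e < d → E.getD e false = true → x e = y e) :
    ∃ φ : (ℕ → Bool) → List (Fin D), (∀ x, φ x ∈ W ∧ (φ x).length = (false :: E).length) ∧
    (∀ x y d, (∀ e, e < d → (false :: E).getD e false = true → x e = y e) →
      (φ x).take d = (φ y).take d) ∧
    (∀ x y d, d ≤ (false :: E).length → (φ x).take d = (φ y).take d →
      ∀ e, e < d → (false :: E).getD e false = true → x e = y e) := by
  refine ⟨fun x => a :: φ (fun e => x (e + 1)), ?_, ?_, ?_⟩
  · intro x
    refine ⟨(h1 _).1, ?_⟩
    simp [(h1 (fun e => x (e + 1))).2]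
  · intro x y d h
    cases d with
    | zero => simp
    | succ d =>
      simp only [List.take_succ_cons]
      rw [h2 (fun e => x (e + 1)) (fun e => y (e + 1)) d]
      intro e he hE
      exact h (e + 1) (by omega) (by simpa using hE)
  · intro x y d hd h e he hE
    cases d with
    | zero => omega
    | succ d =>
      simp only [List.take_succ_cons, List.cons.injEq, true_and] at h
      cases e with
      | zero => simp at hE
      | succ e =>
        exact h3 (fun e => x (e + 1)) (fun e => y (e + 1)) d (by simpa using hd) h e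
          (by omega) (by simpa using hE)

theorem step_true {D : ℕ} (E : List Bool) (W : Set (List (Fin D))) (a b : Fin D) (hab : a ≠ b)
    (φ ψ : (ℕ → Bool) → List (Fin D))
    (h1 : ∀ x, φ x ∈ {v | a :: v ∈ W} ∧ (φ x).length = E.length)
    (h2 : ∀ x y d, (∀ e, e < d → E.getD e false = true → x e = y e) →
      (φ x).take d = (φ y).take d)
    (h3 : ∀ x y d, d ≤ E.length → (φ x).take d = (φ y).take d →
      ∀ e, e < d → E.getD e false = true → x e = y e)
    (g1 : ∀ x, ψ x ∈ {v | b :: v ∈ W} ∧ (ψ x).length = E.length)
    (g2 : ∀ x y d, (∀ e, e < d → E.getD e false = true → x e = y e) →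
      (ψ x).take d = (ψ y).take d)
    (g3 : ∀ x y d, d ≤ E.length → (ψ x).take d = (ψ y).take d →
      ∀ e, e < d → E.getD e false = true → x e = y e) :
    ∃ φ : (ℕ → Bool) → List (Fin D), (∀ x, φ x ∈ W ∧ (φ x).length = (true :: E).length) ∧
    (∀ x y d, (∀ e, e < d → (true :: E).getD e false = true → x e = y e) →
      (φ x).take d = (φ y).take d) ∧
    (∀ x y d, d ≤ (true :: E).length → (φ x).take d = (φ y).take d →
      ∀ e, e < d → (true :: E).getD e false = true → x e = y e) := by
  refine ⟨fun x => if x 0 = true then a :: φ (fun e => x (e + 1))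
    else b :: ψ (fun e => x (e + 1)), ?_, ?_, ?_⟩
  · intro x
    by_cases hx : x 0 = true
    · simp only [hx, if_true]
      exact ⟨(h1 _).1, by simp [(h1 (fun e => x (e + 1))).2]⟩
    · simp only [hx, if_false]
      exact ⟨(g1 _).1, by simp [(g1 (fun e => x (e + 1))).2]⟩
  · intro x y d h
    cases d with
    | zero => simp
    | succ d =>
      have h0 : x 0 = y 0 := h 0 (by omega) (by simp)
      have hs : ∀ e, e < d → E.getD e false = true → x (e + 1) = y (e + 1) := by
        intro e he hE
        exact h (e + 1) (by omega) (by simpa using hE)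
      by_cases hx : x 0 = true
      · have hy : y 0 = true := h0 ▸ hx
        simp only [hx, hy, if_true, List.take_succ_cons]
        rw [h2 (fun e => x (e + 1)) (fun e => y (e + 1)) d hs]
      · have hy : ¬ y 0 = true := h0 ▸ hx
        simp only [hx, hy, Bool.false_eq_true, if_false, List.take_succ_cons]
        rw [g2 (fun e => x (e + 1)) (fun e => y (e + 1)) d hs]
  · intro x y d hd h e he hE
    cases d with
    | zero => omega
    | succ d =>
      have hd' : d ≤ E.length := by simpa using hd
      by_cases hx : x 0 = true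
      · by_cases hy : y 0 = true
        · simp only [hx, hy, if_true, List.take_succ_cons, List.cons.injEq, true_and] at h
          cases e with
          | zero => rw [hx, hy]
          | succ e =>
            exact h3 (fun e => x (e + 1)) (fun e => y (e + 1)) d hd' h e
              (by omega) (by simpa using hE)
        · simp only [hx, hy, Bool.false_eq_true, if_true, if_false, List.take_succ_cons,
            List.cons.injEq] at h
          exact absurd h.1 hab
      · by_cases hy : y 0 = true
        · simp only [hx, hy, Bool.false_eq_true, if_true, if_false, List.take_succ_cons,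
            List.cons.injEq] at h
          exact absurd h.1.symm hab
        · simp only [hx, hy, Bool.false_eq_true, if_false, List.take_succ_cons, List.cons.injEq,
            true_and] at h
          cases e with
          | zero =>
            have hx' : x 0 = false := by simpa using hx
            have hy' : y 0 = false := by simpa using hy
            rw [hx', hy']
          | succ e =>
            exact g3 (fun e => x (e + 1)) (fun e => y (e + 1)) d hd' h e
              (by omega) (by simpa using hE)

theorem cnt_add (E : ℕ → Bool) (a b c : ℕ) (hab : a ≤ b) (hbc : b ≤ c) :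
    cnt E a c = cnt E a b + cnt E b c := by
  unfold cnt
  rw [← Finset.card_union_of_disjoint]
  · congr 1
    ext e
    simp only [Finset.mem_filter, Finset.mem_Ico, Finset.mem_union]
    constructor
    · rintro ⟨⟨h1, h2⟩, h3⟩
      by_cases h : e < b
      · exact Or.inl ⟨⟨h1, h⟩, h3⟩
      · exact Or.inr ⟨⟨by omega, h2⟩, h3⟩
    · rintro (⟨⟨h1, h2⟩, h3⟩ | ⟨⟨h1, h2⟩, h3⟩)
      · exact ⟨⟨h1, by omega⟩, h3⟩
      · exact ⟨⟨by omega, h2⟩, h3⟩
  · rw [Finset.disjoint_left]
    intro e h1 h2
    simp only [Finset.mem_filter, Finset.mem_Ico] at h1 h2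
    omega

theorem cnt_le (E : ℕ → Bool) (a b : ℕ) : cnt E a b ≤ b - a := by
  unfold cnt
  calc _ ≤ (Finset.Ico a b).card := Finset.card_filter_le _ _
    _ = b - a := Nat.card_Ico a b

end FUN_

theorem allFUN : tFUN := by
  intro D E
  induction E with
  | nil =>
    intro W hW
    refine ⟨fun _ => [], ?_, ?_, ?_⟩
    · intro x
      exact ⟨hW, rfl⟩
    · intro x y d _
      rfl
    · intro x y d hd _ e he _
      simp at hd
      omega
  | cons c E ih =>
    intro W hW
    cases c with
    | false =>
      obtain ⟨a, ha⟩ := hW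
      obtain ⟨φ, h1, h2, h3⟩ := ih _ ha
      exact FUN_.step_false E W a φ h1 h2 h3
    | true =>
      obtain ⟨a, b, hab, ha, hb⟩ := hW
      obtain ⟨φ, h1, h2, h3⟩ := ih _ ha
      obtain ⟨ψ, g1, g2, g3⟩ := ih _ hb
      exact FUN_.step_true E W a b hab φ ψ h1 h2 h3 g1 g2 g3

theorem allCUT : tCUT := by
  intro E n B hB hn
  obtain ⟨m, hm, hmin⟩ := Finset.exists_min_image (Finset.range (n + 1))
    (fun d => (2 * B * cnt E 0 d : ℤ) - d) ⟨0, by simp⟩
  simp only [Finset.mem_range] at hm hmin
  have hm0 := hmin 0 (by omega)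
  have h00 : cnt E 0 0 = 0 := by simp [cnt]
  rw [h00] at hm0
  have hadd := FUN_.cnt_add E 0 m n (Nat.zero_le _) (by omega)
  have hle := FUN_.cnt_le E m n
  refine ⟨m, by omega, ?_, ?_⟩
  · have h1 : (n : ℤ) ≤ B * cnt E 0 n := by exact_mod_cast hn
    have h2 : ((n - m : ℕ) : ℤ) = n - m := by
      rw [Nat.cast_sub (by omega)]
    have h3 : (cnt E 0 n : ℤ) = cnt E 0 m + cnt E m n := by exact_mod_cast hadd
    have h4 : (cnt E m n : ℤ) ≤ n - m := by
      rw [← h2]
      exact_mod_cast hle
    have hBz : (1 : ℤ) ≤ B := by exact_mod_cast hB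
    zify
    rw [h2]
    have h5 : (2 * B : ℤ) * cnt E 0 m ≤ m := by push_cast at hm0; linarith
    have h6 : (2 * B : ℤ) * cnt E m n ≤ 2 * B * (n - m) :=
      mul_le_mul_of_nonneg_left h4 (by linarith)
    have h7 : (2 * B : ℤ) * cnt E 0 n = 2 * B * cnt E 0 m + 2 * B * cnt E m n := by
      rw [h3]; ring
    have h8 : (m : ℤ) ≤ n := by exact_mod_cast (by omega : m ≤ n)
    nlinarith
  · intro d hmd hdn
    have h1 := hmin d (by omega)
    have h2 := FUN_.cnt_add E 0 m d (Nat.zero_le _) hmd
    have h3 : (cnt E 0 d : ℤ) = cnt E 0 m + cnt E m d := by exact_mod_cast h2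
    rw [h3] at h1
    have h4 : (d : ℤ) ≤ m + 2 * B * cnt E m d := by
      have : (2 * B : ℤ) * (cnt E 0 m + cnt E m d) = 2 * B * cnt E 0 m + 2 * B * cnt E m d := by
        ring
      linarith
    exact_mod_cast h4

end Pool.Agent.SPG
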