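import Pool.Agent.SPG.Targets
import Pool.Agent.SupraGreedy.Greedy

set_option autoImplicit false

namespace Pool.Agent.SPG

open Finset

universe u

lemma q_eq_avg {Λ : Type} {Γ : Type u} [Fintype Λ] [DecidableEq Γ] (Z : List Λ → Γ) (k : ℕ)
    (η : List Λ) (z : Γ) :
    q Z k η z = SupraGreedy.avg k (SupraGreedy.ind Z z) η := by
  induction k generalizing η with
  | zero => rfl
  | succ k ih =>
    change (∑ l : Λ, q Z k (l :: η) z) / (Fintype.card Λ : ℝ) = _
    rw [SupraGreedy.avg_succ]
    simp only [ih]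

theorem allGRD : tGRD.{u} := by
  intro Λ Γ _ _ _ Z a n h
  have hind : ∀ (z : Γ) (l : List Λ), SupraGreedy.ind Z z l ≤ 1 := by
    intro z l
    unfold SupraGreedy.ind
    split_ifs <;> norm_num
  have hsum : ∀ m : ℕ, ∑ r ∈ range m, (2 : ℝ) ^ (r + 1) * (2 ^ r * (1 / 16) ^ (r + 1)) ≤ 1 / 2 := by
    intro m
    have h2 : ∑ r ∈ range m, (2 : ℝ) ^ (r + 1) * (2 ^ r * (1 / 16) ^ (r + 1))
        ≤ (1 - (1 / 4) ^ m) / 2 := by
      induction m with
      | zero => simp
      | succ m ih =>
        rw [sum_range_succ]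
        have h3 : (2 : ℝ) ^ (m + 1) * (2 ^ m * (1 / 16) ^ (m + 1)) = (1 / 4) ^ m / 8 := by
          have h4 : ((1 : ℝ) / 4) ^ m = 2 ^ m * 2 ^ m * (1 / 16) ^ m := by
            rw [← mul_pow, ← mul_pow]; norm_num
          rw [h4, pow_succ, pow_succ]
          ring
        rw [h3, pow_succ]
        have h5 : (0 : ℝ) ≤ (1 / 4) ^ m := by positivity
        linarith
    have h8 : (0 : ℝ) ≤ (1 / 4) ^ m := by positivity
    linarith
  obtain ⟨t, ht0, hts, _, hti⟩ := SupraGreedy.greedy_tree Z a (a * n) (fun r => (1 / 16 : ℝ) ^ r)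
    (by
      intro l r hl z
      rcases Nat.eq_zero_or_pos r with rfl | hr
      · rw [Nat.mul_zero, SupraGreedy.avg_zero, pow_zero]
        exact hind z l
      · have := h l r z hr hl
        rwa [q_eq_avg] at this)
    (fun r => by positivity) hsum n [] (fun _ => ∅) (by simp) (by simp [SupraGreedy.danger])
  refine ⟨fun w => t w.reverse, ht0, ?_, ?_⟩
  · intro w b hw
    obtain ⟨u, hu, hu'⟩ := hts w.reverse b (by simpa using hw)
    refine ⟨u, hu, ?_⟩
    change t (b :: w).reverse = u ++ t w.reverse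
    rw [List.reverse_cons, hu']
  · intro w w' hww hw heq
    exact List.reverse_injective
      (hti w.reverse w'.reverse (by simpa using hw) (by simpa using hww.symm) heq)

end Pool.Agent.SPG
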