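import Pool.Agent.SPG.Targets

set_option autoImplicit false

/-! MP_f53b3d_al: the position as a product of the values of the components (tCAU, tINJ). -/

namespace Pool.Agent.SPG

universe u

namespace INJ_

/-- the components in the order in which they are multiplied -/
def lst (σ : Bool → ℕ → ℕ) : Bool → St → List (Bool × Pc)
  | c, .ab i _ st J => (c, ⟨σ c i, st⟩) :: (J.map (fun P => (!c, P))).reverse
  | c, .cr _ d _ _ st J inn =>
    (c, ⟨d, st⟩) :: ((J.map (fun P => (!c, P))).reverse ++ lst σ (!c) inn)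

theorem lst_perm (σ : Bool → ℕ → ℕ) : ∀ (X : St) (c : Bool),
    (lst σ c X).Perm (comps σ c X) := by
  intro X
  induction X with
  | ab i n st J =>
    intro c
    simp only [lst, comps]
    exact List.Perm.cons _ (List.reverse_perm _)
  | cr i d n t0 st J inn ih =>
    intro c
    simp only [lst, comps]
    exact List.Perm.cons _ ((List.reverse_perm _).append (ih (!c)))

variable {Γ : Type u} [Group Γ]

theorem vJ_eq (psi : Bool → ℕ → (ℕ → Bool) → Γ) (ω : ℕ → ℕ → Bool) (c : Bool) :
    ∀ J : List Pc,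
      vJ psi ω c J = (((J.map (fun P => (c, P))).reverse).map (vP psi ω)).prod := by
  intro J
  induction J with
  | nil => simp [vJ]
  | cons P J ih => simp [vJ, ih]

theorem pos_eq (σ : Bool → ℕ → ℕ) (psi : Bool → ℕ → (ℕ → Bool) → Γ) (ω : ℕ → ℕ → Bool) :
    ∀ (X : St) (c : Bool), pos σ psi ω c X = ((lst σ c X).map (vP psi ω)).prod := by
  intro X
  induction X with
  | ab i n st J =>
    intro c
    simp only [lst, pos, List.map_cons, List.prod_cons, vJ_eq]
  | cr i d n t0 st J inn ih =>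
    intro c
    simp only [lst, pos, List.map_cons, List.prod_cons, vJ_eq, List.map_append,
      List.prod_append, ih (!c), mul_assoc]

theorem vP_congr (psi : Bool → ℕ → (ℕ → Bool) → Γ)
    (hp : ∀ c d x y, (∀ e, e < d → x e = y e) → psi c d x = psi c d y)
    (ω ω' : ℕ → ℕ → Bool) (p : Bool × Pc)
    (h : ∀ e, e < p.2.dep → ω (p.2.st e) e = ω' (p.2.st e) e) :
    vP psi ω p = vP psi ω' p := by
  unfold vP
  exact hp _ _ _ _ h

theorem prod_congr (psi : Bool → ℕ → (ℕ → Bool) → Γ)
    (hp : ∀ c d x y, (∀ e, e < d → x e = y e) → psi c d x = psi c d y)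
    (ω ω' : ℕ → ℕ → Bool) (l : List (Bool × Pc))
    (h : ∀ p ∈ l, ∀ e, e < p.2.dep → ω (p.2.st e) e = ω' (p.2.st e) e) :
    (l.map (vP psi ω)).prod = (l.map (vP psi ω')).prod := by
  have h1 : l.map (vP psi ω) = l.map (vP psi ω') :=
    List.map_congr_left (fun p hpl => vP_congr psi hp ω ω' p (h p hpl))
  rw [h1]

theorem dj_symm (p p' : Bool × Pc) (h : Dj p.2 p'.2) : Dj p'.2 p.2 :=
  fun e he e' he' heq => h e' he' e he heq.symm

end INJ_

open INJ_

theorem allCAU : tCAU.{u} := by
  intro Γ _ σ psi hp X c ω ω' h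
  rw [pos_eq, pos_eq]
  exact prod_congr psi hp ω ω' _ (fun p hpl => h p ((lst_perm σ X c).mem_iff.1 hpl))

theorem allINJ : tINJ.{u} := by
  intro Γ _ σ E N psi hp hinj X c ω ω' p hpw hpm hpN hω heq e he hE
  have hperm := lst_perm σ X c
  have hpl : p ∈ lst σ c X := hperm.mem_iff.2 hpm
  have hpw' : List.Pairwise (fun p p' : Bool × Pc => Dj p.2 p'.2) (lst σ c X) :=
    hperm.symm.pairwise hpw (fun {a b} h => dj_symm a b h)
  obtain ⟨l1, l2, hl⟩ := List.append_of_mem hpl
  rw [pos_eq, pos_eq, hl] at heq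
  rw [hl] at hpw'
  rw [List.pairwise_append] at hpw'
  obtain ⟨-, h2, h3⟩ := hpw'
  rw [List.pairwise_cons] at h2
  obtain ⟨h2, -⟩ := h2
  have hother : ∀ q : Bool × Pc, Dj q.2 p.2 →
      ∀ e, e < q.2.dep → ω (q.2.st e) e = ω' (q.2.st e) e := by
    intro q hq e he
    apply hω
    rintro ⟨h4, h5⟩
    exact hq e he e h4 h5
  have ha : (l1.map (vP psi ω)).prod = (l1.map (vP psi ω')).prod :=
    prod_congr psi hp ω ω' l1 (fun q hq => hother q (h3 q hq p (by simp)))
  have hb : (l2.map (vP psi ω)).prod = (l2.map (vP psi ω')).prod :=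
    prod_congr psi hp ω ω' l2 (fun q hq => hother q (dj_symm _ _ (h2 q hq)))
  simp only [List.map_append, List.map_cons, List.prod_append, List.prod_cons] at heq
  rw [ha, hb] at heq
  have hv : vP psi ω p = vP psi ω' p := mul_right_cancel (mul_left_cancel heq)
  unfold vP at hv
  exact hinj p.1 p.2.dep hpN _ _ hv e he hE

end Pool.Agent.SPG
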