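import Pool.Agent.SPG.Targets

set_option autoImplicit false

/-! MP_f53b3d_al, project SPG: the machine has bounded speed (`tLIP`). -/

namespace Pool.Agent.SPG

universe u

open Finset
open scoped Pointwise

namespace LIP_

variable {Γ : Type u} [Group Γ]

/-- `b` commutes with all elements of `A` -/
def CC (A : Finset Γ) (b : Γ) : Prop := ∀ a ∈ A, a * b = b * a

theorem cc_one (A : Finset Γ) : CC A (1 : Γ) := fun a _ => by simp

theorem cc_mul {A : Finset Γ} {b b' : Γ} (h : CC A b) (h' : CC A b') : CC A (b * b') := by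
  intro a ha
  rw [← mul_assoc, h a ha, mul_assoc, h' a ha, mul_assoc]

section dec

variable [DecidableEq Γ]

theorem comm_pow {A : Finset Γ} {b : Γ} (h : CC A b) :
    ∀ (n : ℕ) (u : Γ), u ∈ A ^ n → u * b = b * u := by
  intro n
  induction n with
  | zero =>
    intro u hu
    rw [pow_zero, Finset.mem_one] at hu
    subst hu
    simp
  | succ n ih =>
    intro u hu
    rw [pow_succ, Finset.mem_mul] at hu
    obtain ⟨x, hx, a, ha, rfl⟩ := hu
    rw [mul_assoc, h a ha, ← mul_assoc, ih x hx, mul_assoc]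

theorem mono {U : Finset Γ} (h1 : (1 : Γ) ∈ U) {a b : ℕ} (h : a ≤ b) {x : Γ} (hx : x ∈ U ^ a) :
    x ∈ U ^ b := Finset.pow_subset_pow_right h1 h hx

theorem one_mem {U : Finset Γ} (h1 : (1 : Γ) ∈ U) (a : ℕ) : (1 : Γ) ∈ U ^ a :=
  mono h1 (Nat.zero_le a) (by simp)

theorem inv_mem {U : Finset Γ} (hU : ∀ x ∈ U, x⁻¹ ∈ U) :
    ∀ (n : ℕ) (x : Γ), x ∈ U ^ n → x⁻¹ ∈ U ^ n := by
  intro n
  induction n with
  | zero =>
    intro x hx
    rw [pow_zero, Finset.mem_one] at hx ⊢
    simp [hx]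
  | succ n ih =>
    intro x hx
    rw [pow_succ, Finset.mem_mul] at hx
    obtain ⟨y, hy, a, ha, rfl⟩ := hx
    rw [pow_succ', Finset.mem_mul]
    exact ⟨a⁻¹, hU a ha, y⁻¹, ih y hy, by simp⟩

theorem mul_mem {U : Finset Γ} {m n : ℕ} {x y : Γ} (hx : x ∈ U ^ m) (hy : y ∈ U ^ n) :
    x * y ∈ U ^ (m + n) := by
  rw [pow_add]
  exact Finset.mul_mem_mul hx hy

theorem sub_pow {A U : Finset Γ} (h : A ⊆ U) {n : ℕ} {x : Γ} (hx : x ∈ A ^ n) : x ∈ U ^ n :=
  Finset.pow_subset_pow_left h hx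

theorem psi_add {S : Bool → Finset Γ} {psi : Bool → ℕ → (ℕ → Bool) → Γ}
    (hs : ∀ c d x, ∃ s ∈ S c, psi c (d + 1) x = psi c d x * s) (c : Bool) (d : ℕ)
    (x : ℕ → Bool) : ∀ k, ∃ u ∈ S c ^ k, psi c (d + k) x = psi c d x * u := by
  intro k
  induction k with
  | zero => exact ⟨1, by simp, by simp⟩
  | succ k ih =>
    obtain ⟨u, hu, h⟩ := ih
    obtain ⟨s, hs1, h2⟩ := hs c (d + k) x
    refine ⟨u * s, ?_, ?_⟩
    · rw [pow_succ]
      exact Finset.mul_mem_mul hu hs1
    · rw [← add_assoc, h2, h, mul_assoc]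

theorem psi_le {S : Bool → Finset Γ} {psi : Bool → ℕ → (ℕ → Bool) → Γ}
    (hs : ∀ c d x, ∃ s ∈ S c, psi c (d + 1) x = psi c d x * s) (c : Bool) {d d' : ℕ}
    (h : d ≤ d') (x : ℕ → Bool) : ∃ u ∈ S c ^ (d' - d), psi c d' x = psi c d x * u := by
  obtain ⟨u, hu, h2⟩ := psi_add hs c d x (d' - d)
  exact ⟨u, hu, by rw [← h2, Nat.add_sub_cancel' h]⟩

end dec

theorem psi_cc {S : Bool → Finset Γ} {psi : Bool → ℕ → (ℕ → Bool) → Γ}
    (hc : ∀ c, ∀ s ∈ S c, ∀ s' ∈ S (!c), s * s' = s' * s)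
    (h0 : ∀ c x, psi c 0 x = 1)
    (hs : ∀ c d x, ∃ s ∈ S c, psi c (d + 1) x = psi c d x * s) (c : Bool)
    (x : ℕ → Bool) : ∀ d, CC (S c) (psi (!c) d x) := by
  intro d
  induction d with
  | zero => rw [h0]; exact cc_one _
  | succ d ih =>
    obtain ⟨s, hs1, h2⟩ := hs (!c) d x
    rw [h2]
    exact cc_mul ih fun a ha => hc c a ha s hs1

theorem vJ_cc {S : Bool → Finset Γ} {psi : Bool → ℕ → (ℕ → Bool) → Γ}
    (hc : ∀ c, ∀ s ∈ S c, ∀ s' ∈ S (!c), s * s' = s' * s)
    (h0 : ∀ c x, psi c 0 x = 1)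
    (hs : ∀ c d x, ∃ s ∈ S c, psi c (d + 1) x = psi c d x * s) (c : Bool)
    (ω : ℕ → ℕ → Bool) : ∀ J : List Pc, CC (S c) (vJ psi ω (!c) J) := by
  intro J
  induction J with
  | nil => exact cc_one _
  | cons P J ih =>
    exact cc_mul ih (psi_cc hc h0 hs c _ _)

theorem vJ_er [DecidableEq Γ] {S : Bool → Finset Γ} {U : Finset Γ}
    {psi : Bool → ℕ → (ℕ → Bool) → Γ}
    (hSU : ∀ c, S c ⊆ U) (h1 : (1 : Γ) ∈ U) (hU : ∀ x ∈ U, x⁻¹ ∈ U)
    (h0 : ∀ c x, psi c 0 x = 1)
    (hs : ∀ c d x, ∃ s ∈ S c, psi c (d + 1) x = psi c d x * s) (L : ℕ) (c : Bool)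
    (ω : ℕ → ℕ → Bool) (J : List Pc) :
    ∃ u ∈ U ^ L, vJ psi ω c (er L J) = vJ psi ω c J * u := by
  cases J with
  | nil => exact ⟨1, one_mem h1 L, by simp [er]⟩
  | cons P J =>
    by_cases h : P.dep ≤ L
    · obtain ⟨u, hu, h2⟩ := psi_le hs c (Nat.zero_le P.dep) (fun e => ω (P.st e) e)
      rw [h0, one_mul, Nat.sub_zero] at *
      refine ⟨u⁻¹, mono h1 h (inv_mem hU _ _ (sub_pow (hSU c) hu)), ?_⟩
      have h3 : vP psi ω (c, P) = u := h2
      simp only [er, if_pos h, vJ, h3]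
      group
    · obtain ⟨u, hu, h2⟩ := psi_le hs c (Nat.sub_le P.dep L) (fun e => ω (P.st e) e)
      have h4 : P.dep - (P.dep - L) = L := by omega
      rw [h4] at hu
      refine ⟨u⁻¹, inv_mem hU _ _ (sub_pow (hSU c) hu), ?_⟩
      have h3 : vP psi ω (c, P) = vP psi ω (c, ⟨P.dep - L, P.st⟩) * u := h2
      simp only [er, if_neg h, vJ, h3]
      group

/-- the clean states -/
theorem clean_iff {X : St} (h : X.clean = true) : ∃ i n st, X = St.ab i n st [] := by
  cases X with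
  | ab i n st J =>
    cases J with
    | nil => exact ⟨i, n, st, rfl⟩
    | cons P J => simp [St.clean] at h
  | cr i d n t0 st J inn => simp [St.clean] at h

end LIP_

open LIP_

theorem allLIP : tLIP.{u} := by
  intro Γ _ _ S U E σ L psi hc0 hSU h1 hU hσ0 hσ hp0 hps hdep X
  have hc : ∀ c, ∀ s ∈ S c, ∀ s' ∈ S (!c), s * s' = s' * s := by
    intro c s hs s' hs'
    cases c with
    | false => exact hc0 s hs s' hs'
    | true => exact (hc0 s' hs' s hs).symm
  induction X with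
  | ab i n st J =>
    intro c τ t ω _
    have hst : ∀ k, k ≤ σ c i → psi c k (fun e => ω (stp (σ c i) t st e) e) =
        psi c k (fun e => ω (st e) e) := by
      intro k hk
      apply hdep
      intro e he
      have : ¬ σ c i ≤ e := by omega
      simp [stp, this]
    by_cases hsh : σ c (i + 1) ≤ σ c i + L
    · obtain ⟨u, hu, h2⟩ := psi_le hps c (hσ c i).le
        (fun e => ω (stp (σ c i) t st e) e)
      obtain ⟨u', hu', h3⟩ := vJ_er hSU h1 hU hp0 hps L (!c) ω J
      rw [hst _ le_rfl] at h2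
      refine ⟨u * u', mono h1 (by omega : (σ c (i + 1) - σ c i) + L ≤ 3 * L)
        (LIP_.mul_mem (sub_pow (hSU c) hu) hu'), ?_⟩
      have h4 := comm_pow (vJ_cc hc hp0 hps c ω J) _ _ hu
      rw [stepM, if_pos hsh]
      show vP psi ω (c, ⟨σ c (i + 1), stp (σ c i) t st⟩) * vJ psi ω (!c) (er L J) =
        vP psi ω (c, ⟨σ c i, st⟩) * vJ psi ω (!c) J * (u * u')
      have h5 : vP psi ω (c, ⟨σ c (i + 1), stp (σ c i) t st⟩) =
        vP psi ω (c, ⟨σ c i, st⟩) * u := h2
      rw [h5, h3]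
      calc vP psi ω (c, ⟨σ c i, st⟩) * u * (vJ psi ω (!c) J * u')
          = vP psi ω (c, ⟨σ c i, st⟩) * (u * vJ psi ω (!c) J) * u' := by group
        _ = vP psi ω (c, ⟨σ c i, st⟩) * (vJ psi ω (!c) J * u) * u' := by rw [h4]
        _ = _ := by group
    · refine ⟨1, one_mem h1 _, ?_⟩
      rw [stepM, if_neg hsh]
      show vP psi ω (c, ⟨σ c i, stp (σ c i) t st⟩) * vJ psi ω (!c) J *
        (psi (!c) (σ (!c) 0) _ * 1) = vP psi ω (c, ⟨σ c i, st⟩) * vJ psi ω (!c) J * 1
      have h5 : vP psi ω (c, ⟨σ c i, stp (σ c i) t st⟩) = vP psi ω (c, ⟨σ c i, st⟩) :=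
        hst _ le_rfl
      rw [h5, hσ0, hp0]
      simp
  | cr i d n t0 st J inn ih =>
    intro c τ t ω hI
    obtain ⟨h_t, h_n, h_l, h_d, h_e, h_s, h_st, h_inn⟩ := hI
    by_cases hf : (inn.clean && (stepM σ L t (!c) inn).clean) = true
    · rw [Bool.and_eq_true] at hf
      obtain ⟨j, m, st', rfl⟩ := clean_iff hf.1
      have hsh : σ (!c) (j + 1) ≤ σ (!c) j + L := by
        by_contra hsh
        have := hf.2
        rw [stepM, if_neg hsh] at this
        simp [St.clean] at this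
      have hnew : stepM σ L t (!c) (St.ab j m st' []) =
          St.ab (j + 1) m (stp (σ (!c) j) t st') [] := by
        rw [stepM, if_pos hsh]
        simp [er]
      -- the inner factor
      obtain ⟨v, hv, h2⟩ := psi_le hps (!c) (hσ (!c) j).le
        (fun e => ω (stp (σ (!c) j) t st' e) e)
      have h3 : psi (!c) (σ (!c) j) (fun e => ω (stp (σ (!c) j) t st' e) e) =
          psi (!c) (σ (!c) j) (fun e => ω (st' e) e) := by
        apply hdep
        intro e he
        have : ¬ σ (!c) j ≤ e := by omega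
        simp [stp, this]
      rw [h3] at h2
      have hv' : v ∈ U ^ L := mono h1 (by omega) (sub_pow (hSU (!c)) hv)
      -- commutation
      have hcomm : ∀ k u, u ∈ S c ^ k →
          u * (vJ psi ω (!c) J * psi (!c) (σ (!c) j) (fun e => ω (st' e) e)) =
          (vJ psi ω (!c) J * psi (!c) (σ (!c) j) (fun e => ω (st' e) e)) * u := fun k u hu =>
        comm_pow (cc_mul (vJ_cc hc hp0 hps c ω J) (psi_cc hc hp0 hps c _ _)) k u hu
      by_cases hd : d + L < σ c (i + 1)
      · obtain ⟨u, hu, h4⟩ := psi_add hps c d (fun e => ω (st e) e) L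
        refine ⟨u * v, mono h1 (by omega : L + L ≤ 3 * L)
          (LIP_.mul_mem (sub_pow (hSU c) hu) hv'), ?_⟩
        have h5 : stepM σ L t c (St.cr i d n t0 st J (St.ab j m st' [])) =
            St.cr i (d + L) (n + 1) t0 st J (St.ab (j + 1) m (stp (σ (!c) j) t st') []) := by
          rw [stepM, hnew]
          simp [St.clean, hd]
        rw [h5]
        show psi c (d + L) (fun e => ω (st e) e) * vJ psi ω (!c) J *
          (psi (!c) (σ (!c) (j + 1)) (fun e => ω (stp (σ (!c) j) t st' e) e) * 1) =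
          psi c d (fun e => ω (st e) e) * vJ psi ω (!c) J *
          (psi (!c) (σ (!c) j) (fun e => ω (st' e) e) * 1) * (u * v)
        rw [h4, h2]
        have h6 := hcomm _ u hu
        generalize psi c d (fun e => ω (st e) e) = a at *
        generalize vJ psi ω (!c) J = b at *
        generalize psi (!c) (σ (!c) j) (fun e => ω (st' e) e) = g at *
        calc a * u * b * (g * v * 1) = a * (u * (b * g)) * v := by group
          _ = a * (b * g * u) * v := by rw [h6]
          _ = _ := by group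
      · obtain ⟨u, hu, h4⟩ := psi_le hps c h_d.le (fun e => ω (st e) e)
        refine ⟨u * v, mono h1 (by omega : (σ c (i + 1) - d) + L ≤ 3 * L)
          (LIP_.mul_mem (sub_pow (hSU c) hu) hv'), ?_⟩
        have h5 : stepM σ L t c (St.cr i d n t0 st J (St.ab j m st' [])) =
            St.ab (i + 1) (n + 1) st
              (⟨σ (!c) (j + 1), stp (σ (!c) j) t st'⟩ :: J) := by
          rw [stepM, hnew]
          simp [St.clean, hd, prim]
        rw [h5]
        show psi c (σ c (i + 1)) (fun e => ω (st e) e) * (vJ psi ω (!c) J *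
          psi (!c) (σ (!c) (j + 1)) (fun e => ω (stp (σ (!c) j) t st' e) e)) =
          psi c d (fun e => ω (st e) e) * vJ psi ω (!c) J *
          (psi (!c) (σ (!c) j) (fun e => ω (st' e) e) * 1) * (u * v)
        rw [h4, h2]
        have h6 := hcomm _ u hu
        generalize psi c d (fun e => ω (st e) e) = a at *
        generalize vJ psi ω (!c) J = b at *
        generalize psi (!c) (σ (!c) j) (fun e => ω (st' e) e) = g at *
        calc a * u * (b * (g * v)) = a * (u * (b * g)) * v := by group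
          _ = a * (b * g * u) * v := by rw [h6]
          _ = _ := by group
    · obtain ⟨k, hk, h2⟩ := ih (!c) (t0 + 1) t ω h_inn
      refine ⟨k, hk, ?_⟩
      rw [stepM, if_neg hf]
      show vP psi ω (c, ⟨d, st⟩) * vJ psi ω (!c) J * pos σ psi ω (!c) (stepM σ L t (!c) inn) =
        vP psi ω (c, ⟨d, st⟩) * vJ psi ω (!c) J * pos σ psi ω (!c) inn * k
      rw [h2, mul_assoc, mul_assoc, mul_assoc]

end Pool.Agent.SPG

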