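import Pool.Agent.SPG.Targets

set_option autoImplicit false

/-! MP_f53b3d_al: target tMIN (minimal words). -/

namespace Pool.Agent.SPG

universe u

namespace MIN_

variable {Γ : Type u} [Group Γ] {D : ℕ} {g : Fin D → Γ}

lemma vl_append (u w : List (Fin D)) : vl (u ++ w) = vl u + D ^ u.length * vl w := by
  induction u with
  | nil => simp [vl]
  | cons a u ih =>
    rw [List.cons_append, vl, vl, ih, List.length_cons, pow_succ]
    ring

lemma wp_append (u w : List (Fin D)) : wp g (u ++ w) = wp g u * wp g w := by
  simp [wp]

lemma vl_inj : ∀ (u w : List (Fin D)), u.length = w.length → vl u = vl w → u = w := by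
  intro u
  induction u with
  | nil =>
    intro w h _
    exact (List.length_eq_zero_iff.1 h.symm).symm
  | cons a u ih =>
    intro w h hv
    cases w with
    | nil => simp at h
    | cons b w =>
      have h1 : u.length = w.length := by simpa using h
      rw [vl, vl] at hv
      have ha := a.2
      have hb := b.2
      have h2 : (a : ℕ) = b := by
        have h3 := congrArg (· % D) hv
        simpa [Nat.add_mul_mod_self_left, Nat.mod_eq_of_lt ha, Nat.mod_eq_of_lt hb] using h3
      have h3 : vl u = vl w := by
        rw [h2] at hv
        have h4 : D * vl u = D * vl w := by omega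
        exact Nat.eq_of_mul_eq_mul_left (by omega) h4
      rw [ih w h1 h3, Fin.ext h2]

end MIN_

open MIN_

theorem allMIN : tMIN.{u} := by
  intro Γ _ D g
  refine ⟨?_, ?_, ?_⟩
  · intro u w h
    refine ⟨?_, ?_⟩
    · intro u' hl hp
      have h1 := h (u' ++ w) (by simp [hl]) (by rw [wp_append, wp_append, hp])
      rw [vl_append, vl_append, hl] at h1
      omega
    · intro w' hl hp
      have h1 := h (u ++ w') (by simp [hl]) (by rw [wp_append, wp_append, hp])
      rw [vl_append, vl_append] at h1
      have h2 : D ^ u.length * vl w ≤ D ^ u.length * vl w' := by omega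
      rcases Nat.eq_zero_or_pos (D ^ u.length) with h3 | h3
      · have hD : D = 0 := by
          by_contra hD
          exact (pow_pos (Nat.pos_of_ne_zero hD) u.length).ne' h3
        subst hD
        cases w with
        | nil => simp [vl]
        | cons a w => exact a.elim0
      · exact Nat.le_of_mul_le_mul_left h2 h3
  · intro w hw w' hw' hl hp
    exact vl_inj w w' hl (le_antisymm (hw w' hl.symm hp.symm) (hw' w hl hp))
  · intro w
    classical
    have hex : ∃ n, ∃ w', w'.length = w.length ∧ wp g w' = wp g w ∧ vl w' = n :=
      ⟨vl w, w, rfl, rfl, rfl⟩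
    obtain ⟨w', h1, h2, h3⟩ := Nat.find_spec hex
    refine ⟨w', ?_, h1, h2⟩
    intro w'' h4 h5
    rw [h3]
    exact Nat.find_min' hex ⟨w'', h4.trans h1, h5.trans h2, rfl⟩

end Pool.Agent.SPG
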