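import Pool.Agent.SPG.Targets

set_option autoImplicit false

/-! MP_f53b3d_al, project SPG: predictability of the machine (target tPRE). -/

namespace Pool.Agent.SPG

universe u

/-- the bits of a history are `false` from its length on -/
theorem PRE_ev_ge {M : ℕ} (l : List (Fin M → Bool)) (τ e : ℕ) (h : l.length ≤ τ) :
    ev l τ e = false := by
  induction l with
  | nil => rfl
  | cons a l ih =>
    have h1 : l.length + 1 ≤ τ := by simpa using h
    have h2 : τ ≠ l.length := by omega
    simp only [ev, if_neg h2]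
    exact ih (by omega)

/-- histories of the same length with the same bits are equal -/
theorem PRE_ev_ext {M : ℕ} (l l' : List (Fin M → Bool)) (hl : l.length = l'.length)
    (h : ∀ τ e, ev l τ e = ev l' τ e) : l = l' := by
  induction l generalizing l' with
  | nil =>
    cases l' with
    | nil => rfl
    | cons b l' => simp at hl
  | cons a l ih =>
    cases l' with
    | nil => simp at hl
    | cons b l' =>
      have hl' : l.length = l'.length := by simpa using hl
      have hab : a = b := by
        funext x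
        have h1 := h l.length x.1
        simp only [ev, hl', if_true, x.2, dif_pos] at h1
        exact h1
      have hll : l = l' := by
        refine ih l' hl' ?_
        intro τ e
        by_cases hτ : τ = l.length
        · rw [PRE_ev_ge l τ e (by omega), PRE_ev_ge l' τ e (by omega)]
        · have h1 := h τ e
          have hτ' : τ ≠ l'.length := by omega
          simp only [ev, if_neg hτ, if_neg hτ'] at h1
          exact h1
      rw [hab, hll]

/-- the invariant holds for all states of the outer run -/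
theorem PRE_inv (h_INI : tINI) (h_STP : tSTP) (E : Bool → ℕ → Bool) (σ : Bool → ℕ → ℕ)
    (A L : ℕ) (hP : Par E σ A L) (t : ℕ) : Inv E σ L false 0 t (runM σ L t) := by
  induction t with
  | zero => exact h_INI E σ A L hP false 0
  | succ t ih => exact h_STP E σ A L hP (runM σ L t) false 0 t ih

theorem allPRE (h_INI : tINI) (h_STP : tSTP) (h_W2 : tW2) (h_DSJ : tDSJ)
    (h_CAU : tCAU.{u}) (h_INJ : tINJ.{u}) (h_QCT : tQCT.{u}) : tPRE.{u} := by
  have _ := h_CAU
  intro Γ _ _ E σ A L N M psi hP hdep hinj η k hN hM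
  have hI := PRE_inv h_INI h_STP E σ A L hP (η.length + k)
  obtain ⟨p, hp, hle⟩ := h_W2 E σ A L hP _ false 0 _ hI η.length (Nat.zero_le _) (by omega)
  obtain ⟨hpw, hD⟩ := h_DSJ E σ A L hP _ false 0 _ hI
  obtain ⟨hd, hst⟩ := hD p hp
  rw [Nat.sub_zero] at hd
  refine ⟨fr (E p.1) p.2 η.length, by omega, ?_⟩
  intro z
  set F : Finset ℕ :=
    (Finset.range p.2.dep).filter (fun e => E p.1 e = true ∧ η.length ≤ p.2.st e) with hF
  set X : Finset (ℕ × ℕ) := F.image (fun e => (p.2.st e, e)) with hX
  have hcard : X.card = fr (E p.1) p.2 η.length := by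
    rw [hX, Finset.card_image_of_injective]
    · rfl
    · intro a b hab
      exact congrArg Prod.snd hab
  have hmem : ∀ τ e, (τ, e) ∈ X ↔
      (e < p.2.dep ∧ E p.1 e = true ∧ η.length ≤ p.2.st e) ∧ τ = p.2.st e := by
    intro τ e
    rw [hX, Finset.mem_image]
    constructor
    · rintro ⟨e', he', hee⟩
      have h2 : e' = e := congrArg Prod.snd hee
      have h1 : p.2.st e' = τ := congrArg Prod.fst hee
      subst h2
      rw [hF, Finset.mem_filter, Finset.mem_range] at he'
      exact ⟨⟨he'.1, he'.2⟩, h1.symm⟩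
    · rintro ⟨⟨h1, h2⟩, h3⟩
      refine ⟨e, ?_, ?_⟩
      · rw [hF, Finset.mem_filter, Finset.mem_range]
        exact ⟨h1, h2⟩
      · rw [h3]
  rw [← hcard]
  refine h_QCT Γ M k _ η z X ?_ ?_
  · rintro ⟨τ, e⟩ hx
    obtain ⟨⟨h1, _, h3⟩, h4⟩ := (hmem τ e).1 hx
    have h5 := (hst e h1).2
    refine ⟨?_, ?_, ?_⟩
    · show η.length ≤ τ
      omega
    · show τ < η.length + k
      omega
    · show e < M
      exact lt_of_lt_of_le h1 (le_trans hd hM)
  · intro ζ ζ' hζ hζ' hag hZ
    have e1 : (ζ ++ η).length = η.length + k := by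
      rw [List.length_append, hζ, Nat.add_comm]
    have e2 : (ζ' ++ η).length = η.length + k := by
      rw [List.length_append, hζ', Nat.add_comm]
    have hZ' : pos σ psi (ev (ζ ++ η)) false (runM σ L (η.length + k)) =
        pos σ psi (ev (ζ' ++ η)) false (runM σ L (η.length + k)) := by
      have h0 : pos σ psi (ev (ζ ++ η)) false (runM σ L (ζ ++ η).length) =
        pos σ psi (ev (ζ' ++ η)) false (runM σ L (ζ' ++ η).length) := hZ
      rw [e1, e2] at h0
      exact h0
    have hoff : ∀ τ e, ¬ (e < p.2.dep ∧ τ = p.2.st e) →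
        ev (ζ ++ η) τ e = ev (ζ' ++ η) τ e := by
      intro τ e hne
      refine hag τ e ?_
      intro hx
      obtain ⟨⟨h1, _⟩, h4⟩ := (hmem τ e).1 hx
      exact hne ⟨h1, h4⟩
    have hin := h_INJ Γ σ E N psi hdep hinj _ false (ev (ζ ++ η)) (ev (ζ' ++ η)) p hpw hp
      (le_trans hd hN) hoff hZ'
    have hall : ∀ τ e, ev (ζ ++ η) τ e = ev (ζ' ++ η) τ e := by
      intro τ e
      by_cases hx : (τ, e) ∈ X
      · obtain ⟨⟨h1, h2, _⟩, h4⟩ := (hmem τ e).1 hx
        rw [h4]
        exact hin e h1 h2
      · exact hag τ e hx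
    have hfin := PRE_ev_ext (ζ ++ η) (ζ' ++ η) (by rw [e1, e2]) hall
    exact List.append_cancel_right hfin

end Pool.Agent.SPG
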