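import Pool.Agent.SPG.Targets

set_option autoImplicit false

/-! MP_f53b3d_al: target tQCT (counting). -/

namespace Pool.Agent.SPG

open Finset

universe u

namespace QCT_

lemma ev_lt {M : ℕ} (ζ η : List (Fin M → Bool)) {τ : ℕ} (e : ℕ) (h : τ < η.length) :
    ev (ζ ++ η) τ e = ev η τ e := by
  induction ζ with
  | nil => rfl
  | cons l ζ ih =>
    have h1 : τ ≠ (ζ ++ η).length := by
      rw [List.length_append]
      omega
    rw [List.cons_append, ev, if_neg h1, ih]

lemma ev_ge {M : ℕ} (ζ : List (Fin M → Bool)) {τ : ℕ} (e : ℕ) (h : ζ.length ≤ τ) :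
    ev ζ τ e = false := by
  induction ζ with
  | nil => rfl
  | cons l ζ ih =>
    rw [List.length_cons] at h
    rw [ev, if_neg (by omega), ih (by omega)]

lemma ev_M {M : ℕ} (ζ : List (Fin M → Bool)) (τ : ℕ) {e : ℕ} (h : M ≤ e) :
    ev ζ τ e = false := by
  induction ζ with
  | nil => rfl
  | cons l ζ ih =>
    rw [ev, dif_neg (by omega), ih]
    simp

lemma q_eq {Λ : Type} {Γ : Type u} [Fintype Λ] [DecidableEq Γ] (Z : List Λ → Γ) (z : Γ)
    (k : ℕ) (η : List Λ) : q Z k η z =
      (∑ ω : Fin k → Λ, if Z (List.ofFn ω ++ η) = z then (1 : ℝ) else 0) /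
        (Fintype.card Λ : ℝ) ^ k := by
  induction k generalizing η with
  | zero => simp [q]
  | succ k ih =>
    have h1 : (∑ ω : Fin (k + 1) → Λ, if Z (List.ofFn ω ++ η) = z then (1 : ℝ) else 0) =
        ∑ l : Λ, ∑ ω : Fin k → Λ, if Z (List.ofFn ω ++ l :: η) = z then (1 : ℝ) else 0 := by
      rw [← Fintype.sum_prod_type' (f := fun (l : Λ) (ω : Fin k → Λ) =>
        if Z (List.ofFn ω ++ l :: η) = z then (1 : ℝ) else 0)]
      refine (Fintype.sum_equiv (Fin.snocEquiv (fun _ : Fin (k + 1) => Λ)) _ _ ?_).symm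
      rintro ⟨l, ω⟩
      have h2 : List.ofFn (Fin.snocEquiv (fun _ : Fin (k + 1) => Λ) (l, ω)) =
          List.ofFn ω ++ [l] := by
        rw [List.ofFn_succ']
        simp [Fin.snocEquiv, List.concat_eq_append]
      rw [h2, List.append_assoc]
      rfl
    rw [q, h1]
    simp only [ih]
    rw [← Finset.sum_div, pow_succ, div_div]

end QCT_

open QCT_

theorem allQCT : tQCT.{u} := by
  classical
  intro Γ _ M k Z η z X hX hinj
  rw [q_eq]
  let Y : Finset (ℕ × ℕ) := Finset.Ico η.length (η.length + k) ×ˢ Finset.range M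
  have hXY : X ⊆ Y := by
    intro p hp
    obtain ⟨h1, h2, h3⟩ := hX p hp
    simp only [Y, mem_product, mem_Ico, mem_range]
    exact ⟨⟨h1, h2⟩, h3⟩
  have hY : Y.card = k * M := by
    simp only [Y, card_product, Nat.card_Ico, card_range]
    rw [Nat.add_sub_cancel_left]
  have hc : ((univ : Finset (Fin k → Fin M → Bool)).filter
      (fun ω => Z (List.ofFn ω ++ η) = z)).card ≤ 2 ^ (k * M - X.card) := by
    have h1 : (univ : Finset ((Y \ X : Finset (ℕ × ℕ)) → Bool)).card = 2 ^ (k * M - X.card) := by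
      rw [card_univ, Fintype.card_fun, Fintype.card_coe, Fintype.card_bool,
        card_sdiff_of_subset hXY, hY]
    rw [← h1]
    refine card_le_card_of_injOn
      (fun ω => fun p : (Y \ X : Finset (ℕ × ℕ)) => ev (List.ofFn ω ++ η) p.1.1 p.1.2)
      (fun _ _ => mem_coe.2 (mem_univ _)) ?_
    intro ω hω ω' hω' heq
    rw [coe_filter] at hω hω'
    have hω2 := hω.2
    have hω2' := hω'.2
    refine List.ofFn_injective (hinj _ _ (by simp) (by simp) ?_ (hω2.trans hω2'.symm))
    intro τ e hτe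
    by_cases h1 : τ < η.length
    · rw [ev_lt _ _ _ h1, ev_lt _ _ _ h1]
    by_cases h2 : η.length + k ≤ τ
    · rw [ev_ge, ev_ge] <;> simp <;> omega
    by_cases h3 : M ≤ e
    · rw [ev_M _ _ h3, ev_M _ _ h3]
    have hmem : (τ, e) ∈ Y \ X := by
      rw [Finset.mem_sdiff]
      refine ⟨?_, hτe⟩
      simp only [Y, mem_product, mem_Ico, mem_range]
      omega
    exact congrFun heq ⟨(τ, e), hmem⟩
  have hcX : X.card ≤ k * M := hY ▸ card_le_card hXY
  rw [← Finset.sum_filter, Finset.sum_const, nsmul_eq_mul, mul_one]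
  have hΛ : (Fintype.card (Fin M → Bool) : ℝ) ^ k = 2 ^ (k * M) := by
    rw [Fintype.card_fun, Fintype.card_bool, Fintype.card_fin]
    push_cast
    rw [← pow_mul, mul_comm]
  rw [hΛ, div_le_iff₀ (by positivity)]
  have h5 : ((1 : ℝ) / 2) ^ X.card * 2 ^ (k * M) = 2 ^ (k * M - X.card) := by
    obtain ⟨d, hd⟩ := Nat.exists_eq_add_of_le hcX
    rw [hd, Nat.add_sub_cancel_left, pow_add, ← mul_assoc, ← mul_pow]
    norm_num
  rw [h5]
  exact_mod_cast hc

end Pool.Agent.SPG
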