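import Pool.Agent.SPG.Targets

set_option autoImplicit false

/-! MP_f53b3d_al, target B3 (absorbing a short block). -/

namespace Pool.Agent.SPG

open Finset

namespace STA_

/-- additivity of `cnt` -/
lemma cnt_add (E : ℕ → Bool) {a b : ℕ} (h : a ≤ b) : cnt E 0 b = cnt E 0 a + cnt E a b := by
  unfold cnt
  rw [← Finset.card_union_of_disjoint]
  · congr 1
    rw [← Finset.filter_union, Finset.Ico_union_Ico_eq_Ico (Nat.zero_le a) h]
  · rw [Finset.disjoint_left]
    intro x hx hx'
    rw [Finset.mem_filter, Finset.mem_Ico] at hx hx'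
    omega

/-- the levels which are added have the stamp `t`, the old ones keep theirs -/
lemma fr_stp (E : ℕ → Bool) {a b s t : ℕ} (st : ℕ → ℕ) (h : a ≤ b) (hs : s ≤ t) :
    fr E ⟨a, st⟩ s + cnt E a b ≤ fr E ⟨b, stp a t st⟩ s := by
  unfold fr cnt
  rw [← Finset.card_union_of_disjoint]
  · apply Finset.card_le_card
    intro x hx
    rw [Finset.mem_union, Finset.mem_filter, Finset.mem_filter, Finset.mem_range,
      Finset.mem_Ico] at hx
    rw [Finset.mem_filter, Finset.mem_range]
    rcases hx with hx | hx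
    · obtain ⟨h1, h2, h3⟩ := hx
      refine ⟨lt_of_lt_of_le h1 h, h2, ?_⟩
      have : ¬ a ≤ x := by
        have : x < a := h1
        omega
      simp only [stp, if_neg this]
      exact h3
    · obtain ⟨⟨h1, h2⟩, h3⟩ := hx
      refine ⟨h2, h3, ?_⟩
      simp only [stp, if_pos h1]
      exact hs
  · rw [Finset.disjoint_left]
    intro x hx hx'
    rw [Finset.mem_filter, Finset.mem_range] at hx
    rw [Finset.mem_filter, Finset.mem_Ico] at hx'
    have h1 : x < a := hx.1
    omega

/-- shortening a piece by `L` levels -/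
lemma fr_sub (E : ℕ → Bool) (P : Pc) (L s : ℕ) :
    fr E P s ≤ fr E ⟨P.dep - L, P.st⟩ s + L := by
  unfold fr
  have h : (Finset.range P.dep).filter (fun e => E e = true ∧ s ≤ P.st e) ⊆
      (Finset.range (P.dep - L)).filter (fun e => E e = true ∧ s ≤ P.st e) ∪
        Finset.Ico (P.dep - L) P.dep := by
    intro x hx
    rw [Finset.mem_filter, Finset.mem_range] at hx
    rw [Finset.mem_union, Finset.mem_filter, Finset.mem_range, Finset.mem_Ico]
    by_cases hxx : x < P.dep - L
    · exact Or.inl ⟨hxx, hx.2⟩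
    · exact Or.inr ⟨by omega, hx.1⟩
  have h2 := (Finset.card_le_card h).trans (Finset.card_union_le _ _)
  rw [Nat.card_Ico] at h2
  refine h2.trans ?_
  have : P.dep - (P.dep - L) ≤ L := by omega
  exact Nat.add_le_add_left this _

/-- every piece after the shortening comes from a piece before -/
lemma er_mem {L : ℕ} {J : List Pc} {Q : Pc} (h : Q ∈ er L J) :
    ∃ P ∈ J, Q.dep ≤ P.dep ∧ Q.st = P.st := by
  cases J with
  | nil => simp [er] at h
  | cons P J =>
    by_cases hP : P.dep ≤ L
    · rw [er, if_pos hP] at h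
      exact ⟨Q, List.mem_cons_of_mem _ h, le_rfl, rfl⟩
    · rw [er, if_neg hP] at h
      rcases List.mem_cons.1 h with h | h
      · refine ⟨P, List.mem_cons_self, ?_, ?_⟩
        · rw [h]
          exact Nat.sub_le _ _
        · rw [h]
      · exact ⟨Q, List.mem_cons_of_mem _ h, le_rfl, rfl⟩

lemma er_pw {L : ℕ} {J : List Pc} (h : List.Pairwise Dj J) : List.Pairwise Dj (er L J) := by
  cases J with
  | nil => simp [er]
  | cons P J =>
    rw [List.pairwise_cons] at h
    by_cases hP : P.dep ≤ L
    · rw [er, if_pos hP]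
      exact h.2
    · rw [er, if_neg hP, List.pairwise_cons]
      refine ⟨fun Q hQ e he e' he' => h.1 Q hQ e ?_ e' he', h.2⟩
      have he2 : e < P.dep - L := he
      omega

/-- removing `L` levels -/
lemma eJ_er {L : ℕ} (hL : 0 < L) (P : Pc) (J : List Pc) :
    eJ L (er L (P :: J)) + 1 ≤ eJ L (P :: J) := by
  by_cases hP : P.dep ≤ L
  · rw [er, if_pos hP]
    simp only [eJ]
    have h0 : 0 ≤ P.dep / L := Nat.zero_le _
    generalize P.dep / L = z at h0 ⊢
    omega
  · rw [er, if_neg hP]
    simp only [eJ]
    have h : P.dep / L = (P.dep - L) / L + 1 := Nat.div_eq_sub_div hL (by omega)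
    omega

/-- the statement about `Good` for `s ≤ t` -/
lemma good_step {E E' : ℕ → Bool} {L a b s t : ℕ} {st : ℕ → ℕ} {J : List Pc}
    (hab : a ≤ b) (hk : 1 ≤ cnt E a b) (hs : s ≤ t) (h : Good E E' L ⟨a, st⟩ J s t) :
    Good E E' L ⟨b, stp a t st⟩ (er L J) s (t + 1) := by
  have hfr : fr E ⟨a, st⟩ s + 1 ≤ fr E ⟨b, stp a t st⟩ s :=
    (Nat.add_le_add_left hk _).trans (fr_stp E st hab hs)
  rcases h with h | ⟨w, y, ht, hy, h⟩
  · left
    omega
  · right
    refine ⟨w, y + 1, by omega, by omega, ?_⟩
    have hLy : L * (y + 1) = L * y + L := by ring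
    rcases h with h | ⟨Q, hQ, h1, h2⟩
    · left
      omega
    · cases J with
      | nil => simp at hQ
      | cons P J =>
        rcases List.mem_cons.1 hQ with hQP | hQJ
        · subst hQP
          by_cases hP : Q.dep ≤ L
          · left
            omega
          · right
            refine ⟨⟨Q.dep - L, Q.st⟩, ?_, ?_, ?_⟩
            · rw [er, if_neg hP]
              exact List.mem_cons_self
            · show w ≤ Q.dep - L + L * (y + 1)
              omega
            · refine h2.trans (Nat.mul_le_mul_left _ ?_)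
              have := fr_sub E' Q L s
              omega
        · right
          refine ⟨Q, ?_, by omega, ?_⟩
          · by_cases hP : P.dep ≤ L
            · rw [er, if_pos hP]
              exact hQJ
            · rw [er, if_neg hP]
              exact List.mem_cons_of_mem _ hQJ
          · refine h2.trans (Nat.mul_le_mul_left _ ?_)
            omega

end STA_

open STA_ in
theorem allSTA : tSTA := by
  intro E σ A L hPar c τ t i n st J hI hshort
  have hB := hPar.blk c
  have hL : 0 < L := by
    rw [hPar.hL]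
    have hA := hPar.hA
    positivity
  have hlt := hB.lt i
  have hk : 1 ≤ cnt (E c) (σ c i) (σ c (i + 1)) := by
    by_contra hcon
    have h0 : cnt (E c) (σ c i) (σ c (i + 1)) = 0 := by omega
    have h1 := hB.h1 i
    rw [h0] at h1
    omega
  have hτt : τ ≤ t := (Nat.le_add_right τ i).trans hI.i_le
  have hsub : t + 1 - τ = (t - τ) + 1 := by omega
  have hLs : L * (t + 1 - τ) = L * (t - τ) + L := by
    rw [hsub]
    ring
  refine ⟨?_, ?_, ?_, ?_, ?_, ?_, ?_, ?_, ?_⟩
  · have := hI.i_le
    omega
  · have h1 := hI.u_le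
    rw [cnt_add (E c) hlt.le]
    omega
  · have h1 := hI.dep_le
    rw [hLs]
    omega
  · have h1 := hI.n_le
    split_ifs <;> omega
  · have h1 := hI.pot
    cases J with
    | nil =>
      simp only [er, List.isEmpty_nil, if_true]
      exact h1.trans (Nat.mul_le_mul_left _ hlt.le)
    | cons P J =>
      have h2 := eJ_er hL P J
      have h3 : n + 1 + eJ L (er L (P :: J)) ≤ n + eJ L (P :: J) := by omega
      simp only [List.isEmpty_cons]
      refine (Nat.mul_le_mul_left L h3).trans (h1.trans (Nat.mul_le_mul_left _ hlt.le))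
  · intro e he
    by_cases hae : σ c i ≤ e
    · simp only [stp, if_pos hae]
      exact ⟨hτt, Nat.lt_succ_self t⟩
    · simp only [stp, if_neg hae]
      have h1 := hI.st_mem e (not_le.1 hae)
      exact ⟨h1.1, h1.2.trans (Nat.lt_succ_self t)⟩
  · intro Q hQ
    obtain ⟨P, hP, hd, hst⟩ := er_mem hQ
    obtain ⟨h1, h2⟩ := hI.J_mem P hP
    refine ⟨?_, ?_⟩
    · rw [hLs]
      omega
    · intro e he
      have h3 := h2 e (lt_of_lt_of_le he hd)
      rw [hst]
      exact ⟨h3.1, h3.2.trans (Nat.lt_succ_self t)⟩
  · have hD := hI.disj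
    rw [List.pairwise_cons] at hD ⊢
    refine ⟨?_, er_pw hD.2⟩
    intro Q hQ e he e' he'
    obtain ⟨P, hP, hd, hst⟩ := er_mem hQ
    have h3 := (hI.J_mem P hP).2 e' (lt_of_lt_of_le he' hd)
    show stp (σ c i) t st e ≠ Q.st e'
    by_cases hae : σ c i ≤ e
    · simp only [stp, if_pos hae]
      rw [hst]
      omega
    · simp only [stp, if_neg hae]
      rw [hst]
      exact hD.1 P hP e (not_le.1 hae) e' (lt_of_lt_of_le he' hd)
  · intro s hs hst
    by_cases hst' : s ≤ t
    · exact good_step hlt.le hk hst' (hI.good s hs hst')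
    · left
      omega

end Pool.Agent.SPG
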