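import Pool.Agent.SPG.Targets

set_option autoImplicit false

/-! MP_f53b3d_al, project SPG: B4 (arrival). -/

namespace Pool.Agent.SPG

open Finset

namespace STC_

theorem cnt_add (E : ℕ → Bool) {a b c : ℕ} (hab : a ≤ b) (hbc : b ≤ c) :
    cnt E a b + cnt E b c = cnt E a c := by
  unfold cnt
  rw [← Finset.card_union_of_disjoint]
  · congr 1
    rw [← Finset.filter_union, Finset.Ico_union_Ico_eq_Ico hab hbc]
  · apply Finset.disjoint_filter_filter
    exact Finset.Ico_disjoint_Ico_consecutive a b c

theorem cnt_le (E : ℕ → Bool) (b : ℕ) : cnt E 0 b ≤ b := by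
  unfold cnt
  refine (Finset.card_filter_le _ _).trans ?_
  simp

theorem fr_add (E : ℕ → Bool) (a b s : ℕ) (st : ℕ → ℕ) (hab : a ≤ b)
    (h : ∀ e, a ≤ e → s ≤ st e) :
    fr E ⟨a, st⟩ s + cnt E a b ≤ fr E ⟨b, st⟩ s := by
  unfold fr cnt
  rw [← Finset.card_union_of_disjoint]
  · apply Finset.card_le_card
    intro e he
    simp only [Finset.mem_union, Finset.mem_filter, Finset.mem_range, Finset.mem_Ico] at he ⊢
    rcases he with he | he
    · exact ⟨by omega, he.2⟩
    · exact ⟨he.1.2, he.2, h e he.1.1⟩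
  · rw [Finset.disjoint_left]
    intro e he he'
    simp only [Finset.mem_filter, Finset.mem_range, Finset.mem_Ico] at he he'
    omega

end STC_

open STC_

theorem allSTC : tSTC := by
  intro E σ A L hP c τ t t0 i j n0 m st st' J h1 hl hst ht h2 hm hlo hup
  obtain ⟨v, rfl⟩ : ∃ v, t = t0 + 1 + v := ⟨t - (t0 + 1), by omega⟩
  have hv : t0 + 1 + v - (t0 + 1) = v := by omega
  rw [hv] at hm hlo hup
  have hτ : τ ≤ t0 := le_trans (Nat.le_add_right _ _) h1.i_le
  obtain ⟨u0, rfl⟩ : ∃ u0, t0 = τ + u0 := ⟨t0 - τ, by omega⟩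
  have hu0 : τ + u0 - τ = u0 := by omega
  have hu : τ + u0 + 1 + v - τ = u0 + 1 + v := by omega
  have hd0 := h1.dep_le
  have hn0 := h1.n_le
  rw [hu0] at hd0 hn0
  have hd' := h2.dep_le
  rw [hv] at hd'
  have hbl := (hP.blk c).h1 i
  have hLA : 5 * A ≤ L := by
    rw [hP.hL]
    nlinarith [hP.hA, Nat.le_self_pow (n := 2) (by norm_num) A]
  have hLp : 0 < L := by
    have := hP.hA
    omega
  have hmono : σ c i ≤ σ c (i + 1) := ((hP.blk c).lt i).le
  set B := cnt (E c) (σ c i) (σ c (i + 1)) with hB
  -- the main estimate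
  have hmain : 1 + v < B ∧ L * (2 * (v + 1)) + 10 * σ c i ≤ 10 * σ c (i + 1) := by
    have e1 : L * v ≤ 2 * (L * v) - 2 * (L * m) := by
      have : L * (2 * m) ≤ L * v := Nat.mul_le_mul_left _ hm
      have e : L * (2 * m) = 2 * (L * m) := by ring
      omega
    have e2 : L * (m + 1) = L * m + L := by ring
    have e3 : L * (v + 1) = L * v + L := by ring
    have e4 : L * (2 * (v + 1)) = 2 * (L * v) + 2 * L := by ring
    have e5 : L * (v + 1) + 5 * σ c i < 5 * σ c (i + 1) := by omega
    refine ⟨?_, by omega⟩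
    have e6 : 5 * (A * B) ≤ L * B := by
      calc 5 * (A * B) = (5 * A) * B := by ring
        _ ≤ L * B := Nat.mul_le_mul_right _ hLA
    have e7 : L * (v + 1) < L * B := by omega
    have := Nat.lt_of_mul_lt_mul_left e7
    omega
  have hcnt : cnt (E c) 0 (σ c i) + B = cnt (E c) 0 (σ c (i + 1)) :=
    cnt_add (E c) (Nat.zero_le _) hmono
  have hstm : ∀ e, e < σ c (i + 1) → τ ≤ st e ∧ st e ≤ τ + u0 := by
    intro e he
    rcases lt_or_ge e (σ c i) with h | h
    · have := h1.st_mem e h
      omega
    · rw [hst e h]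
      omega
  have hLm : L * u0 ≤ L * (u0 + 1 + v) := Nat.mul_le_mul_left _ (by omega)
  have hLm' : L * v ≤ L * (u0 + 1 + v) := Nat.mul_le_mul_left _ (by omega)
  refine ⟨?_, ?_, ?_, ?_, ?_, ?_, ?_, ?_, ?_⟩
  · have := h1.i_le
    omega
  · have := h1.u_le
    omega
  · rw [hu]
    have e : L * (u0 + 1 + v) = L * u0 + L + L * v := by ring
    omega
  · omega
  · have hp := h1.pot
    have e0 : τ + u0 + 1 + v - (τ + u0) = v + 1 := by omega
    have e1 : (σ (!c) j) / L ≤ v := by
      rw [Nat.div_le_iff_le_mul_add_pred hLp]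
      omega
    rw [e0]
    have e2 : L * (n0 + (v + 1) + eJ L (⟨σ (!c) j, st'⟩ :: J)) ≤
        L * (n0 + eJ L J) + L * (2 * (v + 1)) := by
      rw [← Nat.mul_add]
      apply Nat.mul_le_mul_left
      show n0 + (v + 1) + (σ (!c) j / L + 1 + eJ L J) ≤ _
      omega
    omega
  · intro e he
    have := hstm e he
    omega
  · intro Q hQ
    rw [hu]
    rcases List.mem_cons.mp hQ with rfl | hQ
    · refine ⟨by show σ (!c) j ≤ _; omega, fun e he => ?_⟩
      have := h2.st_mem e he
      show τ ≤ st' e ∧ st' e < _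
      omega
    · have h := h1.J_mem Q hQ
      rw [hu0] at h
      refine ⟨by omega, fun e he => ?_⟩
      have := h.2 e he
      omega
  · have hd := h1.disj
    rw [List.pairwise_cons] at hd ⊢
    rw [List.pairwise_cons]
    refine ⟨?_, ?_, hd.2⟩
    · intro Q hQ
      rcases List.mem_cons.mp hQ with rfl | hQ
      · intro e he e' he'
        have a1 := hstm e he
        have a2 := h2.st_mem e' he'
        show st e ≠ st' e'
        omega
      · intro e he e' he'
        have a2 := (h1.J_mem Q hQ).2 e' he'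
        show st e ≠ Q.st e'
        rcases lt_or_ge e (σ c i) with h | h
        · exact hd.1 Q hQ e h e' he'
        · rw [hst e h]
          omega
    · intro Q hQ e he e' he'
      have a1 := h2.st_mem e he
      have a2 := (h1.J_mem Q hQ).2 e' he'
      show st' e ≠ Q.st e'
      omega
  · intro s hs hst2
    rcases le_or_gt s (τ + u0) with hs0 | hs0
    · have hfr := fr_add (E c) (σ c i) (σ c (i + 1)) s st hmono
        (fun e he => by rw [hst e he]; exact hs0)
      rw [← hB] at hfr
      rcases h1.good s hs hs0 with hg | ⟨w, y, hwy, hy, hg⟩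
      · left
        omega
      · right
        refine ⟨w, y + (1 + v), by omega, by omega, ?_⟩
        have hLy : L * y ≤ L * (y + (1 + v)) := Nat.mul_le_mul_left _ (by omega)
        rcases hg with hg | ⟨Q, hQ, hg1, hg2⟩
        · left
          omega
        · right
          refine ⟨Q, List.mem_cons_of_mem _ hQ, by omega, hg2.trans ?_⟩
          apply Nat.mul_le_mul_left
          omega
    · have hw : s + (τ + u0 + 1 + v - s) = τ + u0 + 1 + v := by omega
      right
      refine ⟨τ + u0 + 1 + v - s, 0, by omega, Nat.zero_le _, Or.inr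
        ⟨⟨σ (!c) j, st'⟩, List.mem_cons_self, ?_, ?_⟩⟩
      · have a1 := h2.u_le
        have a2 := cnt_le (E (!c)) (σ (!c) j)
        show _ ≤ σ (!c) j + L * 0
        omega
      · simp only [Nat.mul_zero, Nat.add_zero]
        rcases h2.good s (by omega) hst2 with hg | ⟨w, y, hwy, hy, hg⟩
        · have a3 : τ + u0 + 1 + v - s ≤ fr (E (!c)) ⟨σ (!c) j, st'⟩ s := by omega
          refine a3.trans ?_
          exact Nat.le_mul_of_pos_left _ (by omega)
        · rcases hg with hg | ⟨Q, hQ, -⟩
          · have a4 : τ + u0 + 1 + v - s ≤ (L + 1) * y := by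
              have : (L + 1) * y = L * y + y := by ring
              omega
            exact a4.trans (Nat.mul_le_mul_left _ hy)
          · simp at hQ

end Pool.Agent.SPG
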