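import Pool.Agent.SPG.Targets

set_option autoImplicit false

/-! MP_f53b3d_al, job SUP-STP: one step of the machine keeps the invariants (B6). -/

namespace Pool.Agent.SPG

open Finset

namespace STP_

theorem fr_congr (F : ℕ → Bool) (d s : ℕ) (st st' : ℕ → ℕ) (h : ∀ e, e < d → st' e = st e) :
    fr F ⟨d, st'⟩ s = fr F ⟨d, st⟩ s := by
  unfold fr
  congr 1
  apply Finset.filter_congr
  intro e he
  have he' : e < d := by simpa using he
  have h1 := h e he'
  simp only [h1]

theorem ab_congr {E : Bool → ℕ → Bool} {σ : Bool → ℕ → ℕ} {L : ℕ} {c : Bool}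
    {τ t i n : ℕ} {st st' : ℕ → ℕ} {J : List Pc}
    (h : AbInv E σ L c τ t i n st J) (hs : ∀ e, e < σ c i → st' e = st e) :
    AbInv E σ L c τ t i n st' J := by
  refine ⟨h.i_le, h.u_le, h.dep_le, h.n_le, h.pot, ?_, h.J_mem, ?_, ?_⟩
  · intro e he
    rw [hs e he]
    exact h.st_mem e he
  · have h1 := h.disj
    rw [List.pairwise_cons] at h1 ⊢
    refine ⟨?_, h1.2⟩
    intro Q hQ e he e' he'
    have he0 : e < σ c i := he
    have h2 := h1.1 Q hQ e he e' he'
    have h3 : st' e = st e := hs e he0
    intro h4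
    apply h2
    show st e = Q.st e'
    rw [← h3]
    exact h4
  · intro s h1 h2
    have h3 := h.good s h1 h2
    unfold Good at h3 ⊢
    rw [fr_congr (E c) (σ c i) s st st' hs]
    exact h3

theorem nf_step (σ : Bool → ℕ → ℕ) (L t : ℕ) (c : Bool) (X : St)
    (h : ¬ (X.clean && (stepM σ L t c X).clean) = true) :
    (stepM σ L t c X).nf = X.nf + 1 := by
  cases X with
  | ab i n st J =>
    unfold stepM at h ⊢
    by_cases h1 : σ c (i + 1) ≤ σ c i + L
    · rw [if_pos h1] at h ⊢
      cases J with
      | nil => exact absurd (by simp [er, St.clean]) h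
      | cons P J => simp [St.nf]
    · rw [if_neg h1]
      rfl
  | cr i d n t0 st J inn =>
    unfold stepM
    split_ifs <;> rfl

theorem free_step (σ : Bool → ℕ → ℕ) (L t : ℕ) (c : Bool) (X : St)
    (h : (X.clean && (stepM σ L t c X).clean) = true) :
    ∃ i n st, (stepM σ L t c X) = .ab i n st [] ∧ X.nf = n := by
  cases X with
  | ab i n st J =>
    cases J with
    | nil =>
      unfold stepM at h ⊢
      by_cases h1 : σ c (i + 1) ≤ σ c i + L
      · rw [if_pos h1]
        refine ⟨i + 1, n, stp (σ c i) t st, ?_, rfl⟩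
        simp [er]
      · rw [if_neg h1] at h
        simp [St.clean] at h
    | cons P J => simp [St.clean] at h
  | cr i d n t0 st J inn => simp [St.clean] at h

end STP_

open STP_ in
theorem allSTP (h_FAC : tFAC) (h_STA : tSTA) (h_STC : tSTC) (h_INI : tINI) : tSTP := by
  intro E σ A L hp X
  induction X with
  | ab i n st J =>
    intro c τ t hX
    have hX' : AbInv E σ L c τ t i n st J := hX
    unfold stepM
    by_cases h1 : σ c (i + 1) ≤ σ c i + L
    · rw [if_pos h1]
      exact h_STA E σ A L hp c τ t i n st J hX' h1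
    · rw [if_neg h1]
      have h2 : σ c i + L < σ c (i + 1) := by omega
      have h3 : ∀ e, e < σ c i → stp (σ c i) t st e = st e := by
        intro e he
        unfold stp
        rw [if_neg (by omega)]
      refine ⟨by omega, ⟨n, by omega, ab_congr hX' h3⟩, h2, by omega, ?_, le_refl _, ?_, ?_⟩
      · simp [St.init, St.nf]
      · intro e he
        unfold stp
        rw [if_pos he]
      · exact h_INI E σ A L hp (!c) (t + 1)
  | cr i d n t0 st J inn ih =>
    intro c τ t hX
    obtain ⟨h1, ⟨n0, h2, h3⟩, h4, h5, h6, h7, h8, h9⟩ := hX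
    have hY := ih (!c) (t0 + 1) t h9
    have hle := (h_FAC E σ A L hp inn (!c) (t0 + 1) t h9).1
    have hL1 : L * (t + 1 - (t0 + 1)) = L * (t - (t0 + 1)) + L := by
      rw [show t + 1 - (t0 + 1) = (t - (t0 + 1)) + 1 by omega, Nat.mul_succ]
    unfold stepM
    by_cases hf : (inn.clean && (stepM σ L t (!c) inn).clean) = true
    · rw [if_pos hf]
      obtain ⟨j, m, st', hj, hm⟩ := free_step σ L t (!c) inn hf
      rw [hm] at h6
      by_cases h10 : d + L < σ c (i + 1)
      · rw [if_pos h10]
        refine ⟨by omega, ⟨n0, by omega, h3⟩, h4, h10, ?_, by omega, h8, hY⟩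
        rw [hj]
        show d + L + L * m = σ c i + L * (t + 1 - (t0 + 1))
        rw [hL1]
        omega
      · rw [if_neg h10]
        have hfac := (h_FAC E σ A L hp _ (!c) (t0 + 1) (t + 1) hY).2.1
        rw [hj] at hY hfac ⊢
        have hY' : AbInv E σ L (!c) (t0 + 1) (t + 1) j m st' [] := hY
        have hfac' : 2 * m ≤ t + 1 - (t0 + 1) := hfac
        have hL2 : L * (m + 1) = L * m + L := Nat.mul_succ L m
        have h11 := h_STC E σ A L hp c τ (t + 1) t0 i j n0 m st st' J h3 h4 h8 (by omega) hY'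
          hfac' (by rw [hL1, hL2]; omega) (by rw [hL1]; omega)
        have h12 : n + 1 = n0 + (t + 1 - t0) := by omega
        rw [h12]
        exact h11
    · rw [if_neg hf]
      refine ⟨by omega, ⟨n0, by omega, h3⟩, h4, h5, ?_, h7, h8, hY⟩
      rw [nf_step σ L t (!c) inn hf, hL1]
      have hL3 : L * (inn.nf + 1) = L * inn.nf + L := Nat.mul_succ L _
      rw [hL3]
      omega

end Pool.Agent.SPG
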