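import Pool.Agent.SPG.Targets

set_option autoImplicit false

/-! MP_f53b3d_al: fresh bits (target `tW2`). -/

namespace Pool.Agent.SPG

namespace W2_

variable {E : Bool → ℕ → Bool} {σ : Bool → ℕ → ℕ} {L : ℕ}

theorem fr_mono (F : ℕ → Bool) {d d' : ℕ} (st : ℕ → ℕ) (s : ℕ) (h : d ≤ d') :
    fr F ⟨d, st⟩ s ≤ fr F ⟨d', st⟩ s := by
  unfold fr
  exact Finset.card_le_card (Finset.filter_subset_filter _ (Finset.range_mono h))

theorem prim_mem (c : Bool) (X : St) : (c, prim σ c X) ∈ comps σ c X := by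
  cases X with
  | ab i n st J => simp [prim, comps]
  | cr i d n t0 st J inn => simp [prim, comps]

theorem ab_bound {c : Bool} {τ t i n : ℕ} {st : ℕ → ℕ} {J : List Pc}
    (h : AbInv E σ L c τ t i n st J) (s : ℕ) (h1 : τ ≤ s) (h2 : s ≤ t) :
    ∃ p ∈ comps σ c (.ab i n st J), t ≤ s + (L + 2) ^ 2 * fr (E p.1) p.2 s := by
  have hp : (c, (⟨σ c i, st⟩ : Pc)) ∈ comps σ c (.ab i n st J) := by simp [comps]
  rcases h.good s h1 h2 with h3 | ⟨w, y, h3, h4, h5 | ⟨Q, hQ, -, h5⟩⟩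
  · refine ⟨_, hp, h3.trans ?_⟩
    have : 1 ≤ (L + 2) ^ 2 := Nat.one_le_pow _ _ (by omega)
    nlinarith
  · refine ⟨_, hp, ?_⟩
    have h6 : t ≤ s + (L + 1) * y := by rw [h3]; nlinarith
    have h7 : (L + 1) * y ≤ (L + 2) ^ 2 * fr (E c) ⟨σ c i, st⟩ s :=
      Nat.mul_le_mul (by nlinarith) h4
    exact h6.trans (Nat.add_le_add_left h7 s)
  · have hq : ((!c), Q) ∈ comps σ c (.ab i n st J) := by
      simp only [comps, List.mem_cons, List.mem_map]
      exact Or.inr ⟨Q, hQ, rfl⟩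
    have key : ∀ M : ℕ, fr (E !c) Q s ≤ M → y ≤ M → t ≤ s + (L + 2) ^ 2 * M := by
      intro M hM1 hM2
      have h6 : (L + 1) * (fr (E !c) Q s + L * y) ≤ (L + 1) * (M + L * M) :=
        Nat.mul_le_mul_left _ (Nat.add_le_add hM1 (Nat.mul_le_mul_left _ hM2))
      have h7 : (L + 1) * (M + L * M) + M ≤ (L + 2) ^ 2 * M := by nlinarith
      omega
    rcases le_total (fr (E !c) Q s) (fr (E c) ⟨σ c i, st⟩ s) with h6 | h6
    · exact ⟨_, hp, key _ h6 h4⟩
    · exact ⟨_, hq, key _ le_rfl (h4.trans h6)⟩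

end W2_

theorem allW2 (h_FAC : tFAC) : tW2 := by
  intro E σ A L hpar X
  induction X with
  | ab i n st J =>
    intro c τ t hinv s h1 h2
    obtain ⟨p, hp, h⟩ := W2_.ab_bound (show AbInv E σ L c τ t i n st J from hinv) s h1 h2
    refine ⟨p, hp, h.trans ?_⟩
    nlinarith
  | cr i d n t0 st J inn ih =>
    intro c τ t hinv s h1 h2
    obtain ⟨ht0, ⟨n0, -, hab⟩, -, -, -, hd, -, hin⟩ :
      t0 < t ∧ (∃ n0, n + t0 = n0 + t ∧ AbInv E σ L c τ t0 i n0 st J) ∧
      σ c i + L < σ c (i + 1) ∧ d < σ c (i + 1) ∧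
      d + L * inn.nf = σ c i + L * (t - (t0 + 1)) ∧ σ c i ≤ d ∧
      (∀ e, σ c i ≤ e → st e = t0) ∧ Inv E σ L (!c) (t0 + 1) t inn := hinv
    have hsub : ∀ p ∈ comps σ (!c) inn, p ∈ comps σ c (.cr i d n t0 st J inn) := by
      intro p hp
      simp only [comps, List.mem_cons, List.mem_append]
      exact Or.inr (Or.inr hp)
    by_cases hs : t0 + 1 ≤ s
    · obtain ⟨p, hp, h⟩ := ih (!c) (t0 + 1) t hin s hs h2
      exact ⟨p, hsub p hp, h⟩
    · push Not at hs
      obtain ⟨p, hp, h⟩ := W2_.ab_bound hab s h1 (by omega)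
      -- the outer component
      obtain ⟨p', hp', h'⟩ : ∃ p' ∈ comps σ c (.cr i d n t0 st J inn),
          t0 ≤ s + (L + 2) ^ 2 * fr (E p'.1) p'.2 s := by
        simp only [comps, List.mem_cons, List.mem_map] at hp
        rcases hp with rfl | ⟨Q, hQ, rfl⟩
        · refine ⟨(c, ⟨d, st⟩), by simp [comps], h.trans ?_⟩
          exact Nat.add_le_add_left (Nat.mul_le_mul_left _ (W2_.fr_mono (E c) st s hd)) s
        · refine ⟨((!c), Q), ?_, h⟩
          simp only [comps, List.mem_cons, List.mem_append, List.mem_map]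
          exact Or.inr (Or.inl ⟨Q, hQ, rfl⟩)
      -- the inner component
      obtain ⟨-, -, h3, h4, -, h5⟩ := h_FAC E σ A L hpar inn (!c) (t0 + 1) t hin
      have h6 : cnt (E !c) 0 (σ (!c) inn.ix) ≤ fr (E !c) (prim σ (!c) inn) s := by
        unfold cnt fr
        refine Finset.card_le_card ?_
        intro e he
        simp only [Finset.mem_filter, Finset.mem_Ico, Finset.mem_range] at he ⊢
        have h7 : e < (prim σ (!c) inn).dep := by omega
        exact ⟨h7, he.2, by have := (h5 e h7).1; omega⟩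
      have hq := hsub _ (W2_.prim_mem (σ := σ) (!c) inn)
      have key : ∀ M : ℕ, fr (E p'.1) p'.2 s ≤ M → fr (E !c) (prim σ (!c) inn) s ≤ M →
          t ≤ s + ((L + 2) ^ 2 + 2) * M + 3 := by
        intro M hM1 hM2
        have h7 : (L + 2) ^ 2 * fr (E p'.1) p'.2 s ≤ (L + 2) ^ 2 * M :=
          Nat.mul_le_mul_left _ hM1
        have h8 : ((L + 2) ^ 2 + 2) * M = (L + 2) ^ 2 * M + 2 * M := by ring
        omega
      rcases le_total (fr (E p'.1) p'.2 s) (fr (E !c) (prim σ (!c) inn) s) with h7 | h7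
      · exact ⟨_, hq, key _ h7 le_rfl⟩
      · exact ⟨_, hp', key _ le_rfl h7⟩

end Pool.Agent.SPG
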