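import Pool.Agent.SPG.CNT
import Pool.Agent.SPG.FUN
import Pool.Agent.SPG.MIN
import Pool.Agent.SPG.ETR
import Pool.Agent.SPG.BLK
import Pool.Agent.SPG.FAC
import Pool.Agent.SPG.STA
import Pool.Agent.SPG.STC
import Pool.Agent.SPG.STP
import Pool.Agent.SPG.W2
import Pool.Agent.SPG.DSJ
import Pool.Agent.SPG.LIP
import Pool.Agent.SPG.INJ
import Pool.Agent.SPG.QCT
import Pool.Agent.SPG.PRE
import Pool.Agent.SPG.GRD
import Pool.Agent.SPG.CPT
import Pool.Agent.SPG.NSP
import Pool.Agent.SPG.COM
import Pool.Agent.SPG.PRD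

set_option autoImplicit false

/-! MP_f53b3d_al: all targets together. -/

namespace Pool.Agent.SPG

universe u v

/-- two commuting finite sets of exponential growth -/
theorem thmCOM : tCOM.{u} := by
  have h_STP : tSTP := allSTP allFAC allSTA allSTC allINI
  exact allCOM (allETR allCNT allFUN allMIN allCUT) allBLK
    (allPRE allINI h_STP (allW2 allFAC) allDSJ allCAU allINJ allQCT) allLIP allINI h_STP allDSJ
    allCAU allGRD allCPT allNSP

/-- products -/
theorem thmPRD : tPRD.{u, v} := allPRD thmCOM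

end Pool.Agent.SPG
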