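import Pool.Agent.SPG.All

/-!
# MP_f53b3d_al: groups in which pieces commute with conjugates of themselves
-/

set_option autoImplicit false

namespace Pool.Agent.SPG.CCJ

open Finset Filter
open scoped Pointwise

universe u v

open Classical in
/-- subexponential growth of a finite subset -/
def Sub {G : Type*} [Group G] (S : Finset G) : Prop :=
  ∀ c : ℝ, 1 < c → ∀ᶠ n : ℕ in atTop, ((S ^ n).card : ℝ) ≤ c ^ n

/-- the number of elements of a power, for any decidability instance -/
def cpw {K : Type*} [Group K] (_i : DecidableEq K) (S : Finset K) (n : ℕ) : ℕ := (S ^ n).card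

/-- the image, for any decidability instance -/
def cim {H : Type*} {K : Type*} (_i : DecidableEq K) (f : H → K) (S : Finset H) : Finset K :=
  S.image f

theorem cpw_image {H : Type u} {K : Type v} [Group H] [Group K] (i0 : DecidableEq H)
    (i1 i2 : DecidableEq K) (f : H →* K) (hf : Function.Injective f) (S : Finset H) (n : ℕ) :
    cpw i1 (cim i2 f S) n = cpw i0 S n := by
  obtain rfl : i2 = i1 := Subsingleton.elim _ _
  unfold cpw cim
  rw [← Finset.image_pow]
  exact Finset.card_image_of_injective _ hf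

theorem cpw_image_le {H : Type u} {K : Type v} [Group H] [Group K] (i0 : DecidableEq H)
    (i1 i2 : DecidableEq K) (f : H →* K) (S : Finset H) (n : ℕ) :
    cpw i1 (cim i2 f S) n ≤ cpw i0 S n := by
  obtain rfl : i2 = i1 := Subsingleton.elim _ _
  unfold cpw cim
  rw [← Finset.image_pow]
  exact Finset.card_image_le

theorem sub_iff {G : Type*} [Group G] (i : DecidableEq G) (S : Finset G) :
    Sub S ↔ ∀ c : ℝ, 1 < c → ∀ᶠ n : ℕ in atTop, (cpw i S n : ℝ) ≤ c ^ n := by
  obtain rfl : i = (fun a b => Classical.propDecidable (a = b)) := Subsingleton.elim _ _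
  rfl

theorem lse_iff (G : Type*) [Group G] : LocallySubexponential G ↔ ∀ S : Finset G, Sub S :=
  Iff.rfl

/-- growth in a subgroup and in the group -/
theorem sub_of_image {H : Type u} {K : Type v} [Group H] [Group K] (i : DecidableEq K)
    (f : H →* K) (hf : Function.Injective f) (S : Finset H) (h : Sub (cim i f S)) : Sub S := by
  classical
  rw [sub_iff (fun a b => Classical.propDecidable (a = b))] at h ⊢
  intro c hc
  refine (h c hc).mono fun n hn => ?_
  rwa [cpw_image (fun a b => Classical.propDecidable (a = b)) _ i f hf S n] at hn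

theorem image_sub {H : Type u} {K : Type v} [Group H] [Group K] (i : DecidableEq K)
    (f : H →* K) (S : Finset H) (h : Sub S) : Sub (cim i f S) := by
  classical
  rw [sub_iff (fun a b => Classical.propDecidable (a = b))] at h ⊢
  intro c hc
  refine (h c hc).mono fun n hn => le_trans ?_ hn
  exact_mod_cast cpw_image_le (fun a b => Classical.propDecidable (a = b)) _ i f S n

/-- finite index -/
theorem lse_of_index {G : Type u} [Group G] (K : Subgroup G) (hK : K.FiniteIndex)
    (h : LocallySubexponential K) : LocallySubexponential G := by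
  classical
  rw [lse_iff]
  intro S
  have : Finite (G ⧸ K) := Subgroup.finite_quotient_of_finiteIndex
  have : Fintype (G ⧸ K) := Fintype.ofFinite _
  set T : Finset G := Finset.univ.image (fun q : G ⧸ K => q.out) with hT
  have hTne : T.Nonempty := ⟨((1 : G) : G ⧸ K).out, mem_image_of_mem _ (mem_univ _)⟩
  have hk : ∀ g : G, ((g : G ⧸ K).out)⁻¹ * g ∈ K := by
    intro g
    rw [← QuotientGroup.eq]
    exact QuotientGroup.out_eq' _
  set U : Finset K := (S * T).image (fun g : G => (⟨((g : G ⧸ K).out)⁻¹ * g, hk g⟩ : K)) with hU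
  have step : S * T ⊆ T * U.image K.subtype := by
    intro g hg
    rw [Finset.mem_mul]
    refine ⟨(g : G ⧸ K).out, mem_image_of_mem _ (mem_univ _), ((g : G ⧸ K).out)⁻¹ * g, ?_, by
      group⟩
    rw [mem_image]
    exact ⟨⟨_, hk g⟩, mem_image_of_mem _ hg, rfl⟩
  have hpow : ∀ n : ℕ, S ^ n * T ⊆ T * (U.image K.subtype) ^ n := by
    intro n
    induction n with
    | zero => simp
    | succ n ih =>
      rw [pow_succ', mul_assoc, pow_succ']
      refine (Finset.mul_subset_mul_left ih).trans ?_
      rw [← mul_assoc, ← mul_assoc]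
      exact Finset.mul_subset_mul_right step
  have hUs : Sub (U.image K.subtype) := image_sub _ K.subtype U ((lse_iff K).mp h U)
  rw [sub_iff (inferInstance : DecidableEq G)] at hUs ⊢
  intro c hc
  have hc0 : 0 < c := by linarith
  have hs1 : 1 < √c := by
    rw [Real.lt_sqrt (by norm_num)]
    linarith
  have hev : ∀ᶠ n : ℕ in atTop, (T.card : ℝ) ≤ (√c) ^ n :=
    (tendsto_pow_atTop_atTop_of_one_lt hs1).eventually_ge_atTop _
  filter_upwards [hUs (√c) hs1, hev] with n h1 h2
  have h3 : cpw (inferInstance : DecidableEq G) S n ≤ T.card *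
      cpw (inferInstance : DecidableEq G) (U.image K.subtype) n := by
    unfold cpw
    calc (S ^ n).card ≤ (S ^ n * T).card := Finset.card_le_card_mul_right hTne
      _ ≤ (T * (U.image K.subtype) ^ n).card := Finset.card_le_card (hpow n)
      _ ≤ T.card * ((U.image K.subtype) ^ n).card := Finset.card_mul_le
  calc (cpw (inferInstance : DecidableEq G) S n : ℝ)
      ≤ T.card * cpw (inferInstance : DecidableEq G) (U.image K.subtype) n := by exact_mod_cast h3
    _ ≤ (√c) ^ n * (√c) ^ n := mul_le_mul h2 h1 (by positivity) (by positivity)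
    _ = c ^ n := by rw [← mul_pow, Real.mul_self_sqrt hc0.le]

/-- products of commuting subgroups -/
theorem sub_of_iSup {G : Type u} [Group G] {m : ℕ} (A : Fin m → Subgroup G)
    (hA : ∀ i j, i ≠ j → ∀ x ∈ A i, ∀ y ∈ A j, x * y = y * x)
    (hL : ∀ i, LocallySubexponential (A i)) (S : Finset G) (hS : ∀ s ∈ S, s ∈ ⨆ i, A i) :
    Sub S := by
  classical
  have hcomm : Pairwise fun i j => ∀ x y : G, x ∈ A i → y ∈ A j → Commute x y :=
    fun i j hij x y hx hy => hA i j hij x hx y hy
  set φ : (∀ i, A i) →* G := Subgroup.noncommPiCoprod hcomm with hφ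
  have hr : φ.range = ⨆ i, A i := Subgroup.noncommPiCoprod_range
  have hex : ∀ s : G, ∃ a : ∀ i, A i, s ∈ S → φ a = s := by
    intro s
    by_cases hs : s ∈ S
    · have h1 := hS s hs
      rw [← hr] at h1
      obtain ⟨a, ha⟩ := h1
      exact ⟨a, fun _ => ha⟩
    · exact ⟨1, fun h => absurd h hs⟩
  choose a ha using hex
  set S' : Finset (∀ i, A i) := S.image a with hS'
  have e1 : S = S'.image φ := by
    rw [hS', Finset.image_image]
    ext x
    simp only [Finset.mem_image, Function.comp_apply]
    constructor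
    · intro hx
      exact ⟨x, hx, ha x hx⟩
    · rintro ⟨y, hy, rfl⟩
      rwa [ha y hy]
  rw [e1]
  refine image_sub _ φ S' ?_
  rw [sub_iff (inferInstance : DecidableEq (∀ i, A i))]
  intro c hc
  have hc0 : 0 < c := by linarith
  -- the root
  set d : ℝ := c ^ (1 / ((m : ℝ) + 1)) with hd
  have hd1 : 1 < d := Real.one_lt_rpow hc (by positivity)
  have hdm : d ^ m ≤ c := by
    have e2 : d ^ (m + 1) = c := by
      rw [hd, ← Real.rpow_natCast, ← Real.rpow_mul hc0.le]
      push_cast
      rw [one_div, inv_mul_cancel₀ (by positivity), Real.rpow_one]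
    calc d ^ m ≤ d ^ (m + 1) := pow_le_pow_right₀ hd1.le (Nat.le_succ m)
      _ = c := e2
  have hall : ∀ᶠ n : ℕ in atTop, ∀ i : Fin m,
      (cpw (inferInstance : DecidableEq (A i)) (S'.image (fun b => b i)) n : ℝ) ≤ d ^ n := by
    rw [eventually_all]
    intro i
    exact (sub_iff _ _).mp ((lse_iff _).mp (hL i) _) d hd1
  filter_upwards [hall] with n hn
  have hsub : ∀ k : ℕ, S' ^ k ⊆ Fintype.piFinset fun i => (S'.image (fun b => b i)) ^ k := by
    intro k
    induction k with
    | zero =>
      intro x hx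
      rw [pow_zero, Finset.mem_one] at hx
      rw [Fintype.mem_piFinset]
      intro i
      rw [hx, pow_zero, Finset.mem_one]
      rfl
    | succ k ih =>
      intro x hx
      rw [pow_succ, Finset.mem_mul] at hx
      obtain ⟨y, hy, z, hz, rfl⟩ := hx
      rw [Fintype.mem_piFinset]
      intro i
      rw [pow_succ]
      exact Finset.mul_mem_mul (Fintype.mem_piFinset.mp (ih hy) i) (mem_image_of_mem _ hz)
  have hcard : cpw (inferInstance : DecidableEq (∀ i, A i)) S' n ≤
      ∏ i, cpw (inferInstance : DecidableEq (A i)) (S'.image (fun b => b i)) n := by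
    unfold cpw
    refine (Finset.card_le_card (hsub n)).trans (le_of_eq ?_)
    rw [Fintype.card_piFinset]
  calc (cpw (inferInstance : DecidableEq (∀ i, A i)) S' n : ℝ)
      ≤ ((∏ i, cpw (inferInstance : DecidableEq (A i)) (S'.image (fun b => b i)) n : ℕ) : ℝ) := by
        exact_mod_cast hcard
    _ = ∏ i, (cpw (inferInstance : DecidableEq (A i)) (S'.image (fun b => b i)) n : ℝ) := by
        push_cast
        rfl
    _ ≤ ∏ _i : Fin m, d ^ n := Finset.prod_le_prod (fun i _ => by positivity) fun i _ => hn i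
    _ = (d ^ m) ^ n := by
        rw [Finset.prod_const, Finset.card_univ, Fintype.card_fin, ← pow_mul, ← pow_mul, mul_comm]
    _ ≤ c ^ n := pow_le_pow_left₀ (by positivity) hdm n

/-- a subgroup commuting with an isomorphic copy of itself -/
theorem lse_of_copy {G : Type u} [Group G] (hG : Supramenable G) (A : Subgroup G) (f : A →* G)
    (hf : Function.Injective f) (hc : ∀ x y : A, (x : G) * f y = f y * x) :
    LocallySubexponential A := by
  classical
  by_contra hcon
  unfold LocallySubexponential at hcon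
  push Not at hcon
  obtain ⟨S, c, hc1, hn⟩ := hcon
  set f1 : A →* G := A.subtype with hf1
  have i1 : Function.Injective f1 := A.subtype_injective
  refine thmCOM G (S.image f1) (S.image f) c hc1 ?_ ?_ ?_ hG
  · refine hn.mono fun n h => lt_of_lt_of_eq h ?_
    exact congrArg Nat.cast (cpw_image (fun a b => Classical.propDecidable (a = b))
      (fun a b => Classical.propDecidable (a = b)) _ f1 i1 S n).symm
  · refine hn.mono fun n h => lt_of_lt_of_eq h ?_
    exact congrArg Nat.cast (cpw_image (fun a b => Classical.propDecidable (a = b))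
      (fun a b => Classical.propDecidable (a = b)) _ f hf S n).symm
  · intro s hs t ht
    rw [Finset.mem_image] at hs ht
    obtain ⟨x, -, rfl⟩ := hs
    obtain ⟨y, -, rfl⟩ := ht
    exact hc x y

/-- a subgroup commuting with a conjugate of itself -/
theorem lse_of_conj {G : Type u} [Group G] (hG : Supramenable G) (A : Subgroup G) (g : G)
    (hg : ∀ x ∈ A, ∀ y ∈ A, x * (g * y * g⁻¹) = g * y * g⁻¹ * x) : LocallySubexponential A :=
  lse_of_copy hG A ((MulAut.conj g).toMonoidHom.comp A.subtype)
    ((MulAut.conj g).injective.comp A.subtype_injective) fun x y => hg x x.2 y y.2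

/-- the class of groups of the theorem -/
def Frag (G : Type u) [Group G] : Prop :=
  ∃ K : Subgroup G, K.FiniteIndex ∧ ∀ S : Finset G, (∀ s ∈ S, s ∈ K) →
    ∃ (m : ℕ) (A : Fin m → Subgroup G),
      (∀ i j, i ≠ j → ∀ x ∈ A i, ∀ y ∈ A j, x * y = y * x) ∧
      (∀ i, LocallySubexponential (A i) ∨
        ∃ f : A i →* G, Function.Injective f ∧ ∀ x y : A i, (x : G) * f y = f y * x) ∧
      ∀ s ∈ S, s ∈ ⨆ i, A i

theorem lse_of_frag {G : Type u} [Group G] (hG : Supramenable G) (h : Frag G) :
    LocallySubexponential G := by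
  classical
  obtain ⟨K, hK, h⟩ := h
  refine lse_of_index K hK ?_
  rw [lse_iff]
  intro S
  refine sub_of_image (fun a b => Classical.propDecidable (a = b)) K.subtype
    K.subtype_injective S ?_
  obtain ⟨m, A, h1, h2, h3⟩ := h
    (cim (fun a b => Classical.propDecidable (a = b)) K.subtype S) (by
    intro s hs
    unfold cim at hs
    rw [Finset.mem_image] at hs
    obtain ⟨x, -, rfl⟩ := hs
    exact x.2)
  refine sub_of_iSup A h1 (fun i => ?_) _ h3
  rcases h2 i with h | ⟨f, hf, hc⟩
  · exact h
  · exact lse_of_copy hG (A i) f hf hc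

theorem frag_iff {G : Type u} [Group G] (h : Frag G) :
    Supramenable G ↔ LocallySubexponential G :=
  ⟨fun hG => lse_of_frag hG h, supramenable_of_lse⟩

theorem frag_prod {G : Type u} [Group G] (h : Frag G) (H : Type v) [Group H] :
    Supramenable (G × H) ↔ Supramenable G ∧ Supramenable H := by
  rw [thmPRD G H]
  exact ⟨fun h1 => ⟨h1.1, h1.2.1⟩, fun h1 => ⟨h1.1, h1.2, Or.inl (lse_of_frag h1.1 h)⟩⟩

/-! ### Actions with disjoint supports -/

/-- the elements which fix all points outside of `U` -/
def RS (G : Type u) [Group G] {Ω : Type v} [MulAction G Ω] (U : Set Ω) : Subgroup G where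
  carrier := {g | ∀ x, x ∉ U → g • x = x}
  mul_mem' := by
    intro a b ha hb x hx
    rw [mul_smul, hb x hx, ha x hx]
  one_mem' := fun x _ => one_smul _ x
  inv_mem' := by
    intro a ha x hx
    rw [inv_smul_eq_iff]
    exact (ha x hx).symm

theorem rs_image {G : Type u} [Group G] {Ω : Type v} [MulAction G Ω] {U : Set Ω} {a : G}
    (ha : a ∈ RS G U) {x : Ω} (hx : x ∈ U) : a • x ∈ U := by
  by_contra h
  have h1 : a • (a • x) = a • x := ha _ h
  have h2 := MulAction.injective a h1
  rw [h2] at h
  exact h hx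

theorem rs_comm {G : Type u} [Group G] {Ω : Type v} [MulAction G Ω]
    (hf : ∀ g : G, (∀ x : Ω, g • x = x) → g = 1) {U W : Set Ω} (hd : Disjoint U W) {a b : G}
    (ha : a ∈ RS G U) (hb : b ∈ RS G W) : a * b = b * a := by
  have key : ∀ x : Ω, a • b • x = b • a • x := by
    intro x
    by_cases h1 : x ∈ U
    · have h2 : x ∉ W := fun h => (Set.disjoint_left.mp hd) h1 h
      rw [hb x h2, hb _ (fun h => (Set.disjoint_left.mp hd) (rs_image ha h1) h)]
    · rw [ha x h1]
      by_cases h2 : x ∈ W
      · exact ha _ (fun h => (Set.disjoint_left.mp hd) h (rs_image hb h2))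
      · rw [hb x h2, ha x h1]
  have h3 : (b * a)⁻¹ * (a * b) = 1 := by
    refine hf _ fun x => ?_
    rw [mul_smul, inv_smul_eq_iff, mul_smul, mul_smul]
    exact key x
  rw [inv_mul_eq_one] at h3
  exact h3.symm

theorem rs_conj {G : Type u} [Group G] {Ω : Type v} [MulAction G Ω] {U W : Set Ω} {a g : G}
    (ha : a ∈ RS G U) (h : ∀ x, x ∈ U → g • x ∈ W) : g * a * g⁻¹ ∈ RS G W := by
  intro x hx
  have h1 : g⁻¹ • x ∉ U := by
    intro h2
    have h3 := h _ h2
    rw [smul_inv_smul] at h3
    exact hx h3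
  rw [mul_smul, mul_smul, ha _ h1, smul_inv_smul]

/-- rigid stabilizers of displaceable sets -/
theorem lse_rs {G : Type u} [Group G] (hG : Supramenable G) {Ω : Type v} [MulAction G Ω]
    (hf : ∀ g : G, (∀ x : Ω, g • x = x) → g = 1) (U : Set Ω) (g : G)
    (hg : ∀ x, x ∈ U → g • x ∉ U) : LocallySubexponential (RS G U) := by
  refine lse_of_conj hG (RS G U) g fun x hx y hy => ?_
  refine rs_comm hf (W := (fun z => g • z) '' U) ?_ hx ?_
  · rw [Set.disjoint_left]
    rintro z hz ⟨w, hw, rfl⟩
    exact hg w hw hz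
  · exact rs_conj hy fun z hz => ⟨z, hz, rfl⟩

/-- blocks -/
theorem frag_of_blocks {G : Type u} [Group G] {Ω : Type v} [MulAction G Ω] {V : Type}
    [MulAction G V] [Finite V] (f : Ω → V) (hfe : ∀ (g : G) (x : Ω), f (g • x) = g • f x)
    (hf : ∀ g : G, (∀ x : Ω, g • x = x) → g = 1) (htr : ∀ v w : V, ∃ g : G, g • v = w)
    (hV : ∃ v w : V, v ≠ w) (hi : (⨆ v, RS G (f ⁻¹' {v})).FiniteIndex) : Frag G := by
  classical
  obtain ⟨n, ⟨e⟩⟩ := Finite.exists_equiv_fin V
  refine ⟨⨆ v, RS G (f ⁻¹' {v}), hi, fun S hS => ⟨n, fun i => RS G (f ⁻¹' {e.symm i}), ?_, ?_, ?_⟩⟩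
  · intro i j hij x hx y hy
    refine rs_comm hf ?_ hx hy
    rw [Set.disjoint_left]
    intro z h1 h2
    rw [Set.mem_preimage, Set.mem_singleton_iff] at h1 h2
    exact hij (e.symm.injective (h1.symm.trans h2))
  · intro i
    right
    have h1 : ∃ w : V, w ≠ e.symm i := by
      obtain ⟨v, w, hvw⟩ := hV
      by_cases h : v = e.symm i
      · exact ⟨w, fun h2 => hvw (h.trans h2.symm)⟩
      · exact ⟨v, h⟩
    obtain ⟨w, hw⟩ := h1
    obtain ⟨g, hg⟩ := htr (e.symm i) w
    refine ⟨(MulAut.conj g).toMonoidHom.comp (RS G (f ⁻¹' {e.symm i})).subtype,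
      (MulAut.conj g).injective.comp (Subgroup.subtype_injective _), fun x y => ?_⟩
    refine rs_comm hf (W := f ⁻¹' {w}) ?_ x.2 ?_
    · rw [Set.disjoint_left]
      intro z h1 h2
      rw [Set.mem_preimage, Set.mem_singleton_iff] at h1 h2
      exact hw (h2.symm.trans h1)
    · refine rs_conj y.2 fun z hz => ?_
      rw [Set.mem_preimage, Set.mem_singleton_iff] at hz ⊢
      rw [hfe, hz, hg]
  · intro s hs
    have h1 := hS s hs
    have h2 : (⨆ v, RS G (f ⁻¹' {v})) ≤ ⨆ i, RS G (f ⁻¹' {e.symm i}) := by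
      refine iSup_le fun v => ?_
      refine le_trans (le_of_eq ?_) (le_iSup (fun i => RS G (f ⁻¹' {e.symm i})) (e v))
      rw [Equiv.symm_apply_apply]
    exact h2 h1

end Pool.Agent.SPG.CCJ
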