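import Pool.Agent.SPG.Targets

set_option autoImplicit false

/-! MP_f53b3d_al: target tCNT (counting trees of words). -/

namespace Pool.Agent.SPG

namespace CNT_

/-- the sum of `f` over all lists of bits of length `n` -/
noncomputable def sm : ℕ → (List Bool → ℝ) → ℝ
  | 0, f => f []
  | n + 1, f => sm n (fun E => f (false :: E)) + sm n (fun E => f (true :: E))

lemma sm_mono (n : ℕ) : ∀ f g : List Bool → ℝ, (∀ E, E.length = n → f E ≤ g E) →
    sm n f ≤ sm n g := by
  induction n with
  | zero => intro f g h; exact h [] rfl
  | succ n ih =>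
    intro f g h
    exact add_le_add (ih _ _ fun E hE => h _ (by simp [hE]))
      (ih _ _ fun E hE => h _ (by simp [hE]))

lemma sm_add (n : ℕ) : ∀ f g : List Bool → ℝ, sm n (fun E => f E + g E) = sm n f + sm n g := by
  induction n with
  | zero => intro f g; rfl
  | succ n ih =>
    intro f g
    have h1 := ih (fun E => f (false :: E)) (fun E => g (false :: E))
    have h2 := ih (fun E => f (true :: E)) (fun E => g (true :: E))
    simp only [sm]
    rw [h1, h2]
    ring

lemma sm_zero (n : ℕ) : sm n (fun _ => 0) = 0 := by
  induction n with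
  | zero => rfl
  | succ n ih => simp only [sm]; rw [ih]; ring

lemma sm_sum {ι : Type*} (s : Finset ι) (n : ℕ) (f : ι → List Bool → ℝ) :
    sm n (fun E => ∑ a ∈ s, f a E) = ∑ a ∈ s, sm n (f a) := by
  classical
  induction s using Finset.induction_on with
  | empty => simpa using sm_zero n
  | insert a s ha ih =>
    rw [Finset.sum_insert ha, ← ih, ← sm_add]
    congr 1
    funext E
    exact Finset.sum_insert ha

lemma sm_mul (n : ℕ) (c : ℝ) : ∀ f : List Bool → ℝ, sm n (fun E => c * f E) = c * sm n f := by
  induction n with
  | zero => intro f; rfl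
  | succ n ih =>
    intro f
    simp only [sm]
    rw [ih (fun E => f (false :: E)), ih (fun E => f (true :: E))]
    ring

lemma sm_pow (n : ℕ) (y : ℝ) : sm n (fun E => y ^ (E.count true)) = (1 + y) ^ n := by
  induction n with
  | zero => simp [sm]
  | succ n ih =>
    simp only [sm]
    have h1 : (fun E : List Bool => y ^ ((false :: E).count true)) =
        fun E => y ^ (E.count true) := by
      funext E; simp
    have h2 : (fun E : List Bool => y ^ ((true :: E).count true)) =
        fun E => y * y ^ (E.count true) := by
      funext E; simp [pow_succ, mul_comm]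
    rw [h1, h2, sm_mul, ih]
    ring

open Classical in
lemma claim (D : ℕ) (hD : 1 ≤ D) (n : ℕ) : ∀ W : Finset (List (Fin D)),
    (∀ w ∈ W, w.length = n) →
    (W.card : ℝ) ≤ sm n (fun E => if HT E (W : Set (List (Fin D))) then
      ((D : ℝ) - 1) ^ (E.count true) else 0) := by
  induction n with
  | zero =>
    intro W hW
    simp only [sm]
    have hsub : W ⊆ {[]} := by
      intro w hw
      rw [Finset.mem_singleton]
      exact List.length_eq_zero_iff.1 (hW w hw)
    rcases Finset.subset_singleton_iff.1 hsub with h | h
    · subst h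
      simp
      split_ifs <;> norm_num
    · subst h
      simp [HT]
  | succ n ih =>
    intro W hW
    let Wa : Fin D → Finset (List (Fin D)) := fun a =>
      (W.image List.tail).filter (fun v => a :: v ∈ W)
    have hWa : ∀ a v, v ∈ Wa a ↔ a :: v ∈ W := by
      intro a v
      simp only [Wa, Finset.mem_filter, Finset.mem_image]
      constructor
      · exact fun h => h.2
      · exact fun h => ⟨⟨a :: v, h, rfl⟩, h⟩
    have hco : ∀ a, ((Wa a : Finset (List (Fin D))) : Set (List (Fin D))) =
        {v | a :: v ∈ (W : Set (List (Fin D)))} := by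
      intro a
      ext v
      simp [hWa]
    have hlen : ∀ a, ∀ w ∈ Wa a, w.length = n := by
      intro a w hw
      have := hW _ ((hWa a w).1 hw)
      simpa using this
    have hcard : W.card = ∑ a : Fin D, (Wa a).card := by
      have hWu : W = Finset.univ.biUnion (fun a => (Wa a).image (List.cons a)) := by
        ext w
        simp only [Finset.mem_biUnion, Finset.mem_univ, true_and, Finset.mem_image]
        constructor
        · intro hw
          cases w with
          | nil => have := hW _ hw; simp at this
          | cons a v => exact ⟨a, v, (hWa a v).2 hw, rfl⟩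
        · rintro ⟨a, v, hv, rfl⟩
          exact (hWa a v).1 hv
      conv_lhs => rw [hWu]
      rw [Finset.card_biUnion]
      · apply Finset.sum_congr rfl
        intro a _
        exact Finset.card_image_of_injective _ (List.cons_injective)
      · intro a _ b _ hab
        refine Finset.disjoint_left.2 ?_
        intro w hw hw'
        obtain ⟨v, -, rfl⟩ := Finset.mem_image.1 hw
        obtain ⟨v', -, h⟩ := Finset.mem_image.1 hw'
        exact hab (by injection h with h1 h2; exact h1.symm)
    have h1 : (W.card : ℝ) ≤ sm n (fun E => ∑ a : Fin D,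
        if HT E ((Wa a : Finset (List (Fin D))) : Set (List (Fin D))) then
          ((D : ℝ) - 1) ^ (E.count true) else 0) := by
      rw [sm_sum, hcard]
      push_cast
      exact Finset.sum_le_sum fun a _ => ih (Wa a) (hlen a)
    refine h1.trans ?_
    simp only [sm]
    rw [← sm_add]
    apply sm_mono
    intro E hE
    have hD' : (0 : ℝ) ≤ (D : ℝ) - 1 := by
      have : (1 : ℝ) ≤ D := by exact_mod_cast hD
      linarith
    have hc : (0 : ℝ) ≤ ((D : ℝ) - 1) ^ (E.count true) := pow_nonneg hD' _
    set K : Finset (Fin D) := Finset.univ.filter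
      (fun a => HT E ((Wa a : Finset (List (Fin D))) : Set (List (Fin D)))) with hK
    have hsum : (∑ a : Fin D,
        if HT E ((Wa a : Finset (List (Fin D))) : Set (List (Fin D))) then
          ((D : ℝ) - 1) ^ (E.count true) else 0) = (K.card : ℝ) *
          ((D : ℝ) - 1) ^ (E.count true) := by
      rw [← Finset.sum_filter, Finset.sum_const, nsmul_eq_mul]
    rw [hsum]
    have hmem : ∀ a, a ∈ K ↔ HT E {v | a :: v ∈ (W : Set (List (Fin D)))} := by
      intro a
      rw [hK, Finset.mem_filter, hco]
      simp
    have e1 : (false :: E).count true = E.count true := by simp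
    have e2 : (true :: E).count true = E.count true + 1 := by simp
    rw [e1, e2]
    have hKD : (K.card : ℝ) ≤ D := by
      have : K.card ≤ D := by simpa using Finset.card_le_univ K
      exact_mod_cast this
    have hn1 : (0 : ℝ) ≤ (if HT (true :: E) (W : Set (List (Fin D))) then
        ((D : ℝ) - 1) ^ (E.count true + 1) else 0) := by
      split_ifs
      · exact pow_nonneg hD' _
      · exact le_refl _
    rcases Nat.lt_or_ge K.card 1 with hk | hk
    · have h0 : K.card = 0 := by omega
      rw [h0]
      have hn2 : (0 : ℝ) ≤ (if HT (false :: E) (W : Set (List (Fin D))) then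
          ((D : ℝ) - 1) ^ (E.count true) else 0) := by
        split_ifs
        · exact hc
        · exact le_refl _
      simpa using add_nonneg hn2 hn1
    · have hF : HT (false :: E) (W : Set (List (Fin D))) := by
        obtain ⟨a, ha⟩ := Finset.card_pos.1 hk
        exact ⟨a, (hmem a).1 ha⟩
      rw [if_pos hF]
      rcases Nat.lt_or_ge K.card 2 with hk2 | hk2
      · have h0 : K.card = 1 := by omega
        rw [h0]
        simpa using hn1
      · have hT : HT (true :: E) (W : Set (List (Fin D))) := by
          obtain ⟨a, ha, b, hb, hab⟩ := Finset.one_lt_card.1 hk2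
          exact ⟨a, b, hab, (hmem a).1 ha, (hmem b).1 hb⟩
        rw [if_pos hT]
        calc (K.card : ℝ) * ((D : ℝ) - 1) ^ (E.count true)
            ≤ (D : ℝ) * ((D : ℝ) - 1) ^ (E.count true) :=
              mul_le_mul_of_nonneg_right hKD hc
          _ = ((D : ℝ) - 1) ^ (E.count true) + ((D : ℝ) - 1) ^ (E.count true + 1) := by
              rw [pow_succ]; ring

end CNT_

open Classical in
theorem allCNT : tCNT := by
  intro D n B x r W hD hlen hx hr hB hcard
  by_contra hcon
  push Not at hcon
  have hD' : (0 : ℝ) ≤ (D : ℝ) - 1 := by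
    have : (1 : ℝ) ≤ D := by exact_mod_cast hD
    linarith
  have hy : (0 : ℝ) ≤ ((D : ℝ) - 1) * x := mul_nonneg hD' hx.le
  have hr1 : (1 : ℝ) ≤ r := by linarith
  have hr0 : (0 : ℝ) ≤ r := by linarith
  have h1 := CNT_.claim D hD n W hlen
  have h2 : CNT_.sm n (fun E => if HT E (W : Set (List (Fin D))) then
      ((D : ℝ) - 1) ^ (E.count true) else 0) ≤
      CNT_.sm n (fun E => r ^ n * (((D : ℝ) - 1) * x) ^ (E.count true)) := by
    apply CNT_.sm_mono
    intro E hE
    split_ifs with hT
    · have hlt := hcon E hE hT
      have hx1 : x ^ (E.count true) * (1 / x) ^ (E.count true) = 1 := by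
        rw [← mul_pow, mul_one_div_cancel hx.ne', one_pow]
      have hp : (1 / x) ^ (E.count true) ≤ r ^ n := by
        calc (1 / x) ^ (E.count true) ≤ (r ^ B) ^ (E.count true) :=
              pow_le_pow_left₀ (by positivity) hB _
          _ = r ^ (B * E.count true) := by rw [pow_mul]
          _ ≤ r ^ n := pow_le_pow_right₀ hr1 hlt.le
      calc ((D : ℝ) - 1) ^ (E.count true)
          = (1 / x) ^ (E.count true) * (((D : ℝ) - 1) * x) ^ (E.count true) := by
            rw [mul_pow]
            calc ((D : ℝ) - 1) ^ (E.count true)
                = ((D : ℝ) - 1) ^ (E.count true) *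
                  (x ^ (E.count true) * (1 / x) ^ (E.count true)) := by rw [hx1, mul_one]
              _ = _ := by ring
        _ ≤ r ^ n * (((D : ℝ) - 1) * x) ^ (E.count true) :=
            mul_le_mul_of_nonneg_right hp (pow_nonneg hy _)
    · exact mul_nonneg (pow_nonneg hr0 _) (pow_nonneg hy _)
  rw [CNT_.sm_mul, CNT_.sm_pow] at h2
  have h3 : (1 + ((D : ℝ) - 1) * x) ^ n ≤ r ^ n := pow_le_pow_left₀ (by linarith) hr _
  have h4 : r ^ n * (1 + ((D : ℝ) - 1) * x) ^ n ≤ r ^ (2 * n) := by
    rw [two_mul, pow_add]
    exact mul_le_mul_of_nonneg_left h3 (pow_nonneg hr0 _)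
  linarith

end Pool.Agent.SPG
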