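import Mathlib

set_option autoImplicit false

/-! MP_f53b3d_al: two commuting finite sets of exponential growth give a group which is not
supramenable.  Definitions.  Paper proof: ideas row 3016, and the comments in Targets.lean. -/

namespace Pool.Agent.SPG

open Finset
open scoped Pointwise

/-- number of levels of `E` in `[a, b)` -/
def cnt (E : ℕ → Bool) (a b : ℕ) : ℕ := ((Finset.Ico a b).filter (fun e => E e = true)).card

/-! ### A. Trees of words -/

/-- A binary tree of words of `S` which branches on the levels of `E`: `psi d x` is the node of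
depth `d` given by the bits `x e`, `e < d`, `E e`.  It is injective for `d ≤ N`. -/
structure ETree {Γ : Type*} [Group Γ] (S : Finset Γ) (A N : ℕ) where
  E : ℕ → Bool
  psi : ℕ → (ℕ → Bool) → Γ
  zero : ∀ x, psi 0 x = 1
  dep : ∀ d x y, (∀ e, e < d → E e = true → x e = y e) → psi d x = psi d y
  step : ∀ d x, ∃ s ∈ S, psi (d + 1) x = psi d x * s
  inj : ∀ d, d ≤ N → ∀ x y, psi d x = psi d y → ∀ e, e < d → E e = true → x e = y e
  dens : ∀ d, d ≤ A * cnt E 0 d

/-- blocks of levels -/
structure Blk (E : ℕ → Bool) (A : ℕ) (σ : ℕ → ℕ) : Prop where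
  zero : σ 0 = 0
  lt : ∀ i, σ i < σ (i + 1)
  h1 : ∀ i, σ (i + 1) ≤ σ i + A * cnt E (σ i) (σ (i + 1))
  h2 : ∀ i, σ i ≤ A * i

/-- `W` contains a tree of words of length `E.length` which branches exactly at the places of
`E` which are `true` -/
def HT {α : Type*} : List Bool → Set (List α) → Prop
  | [], W => [] ∈ W
  | false :: E, W => ∃ a, HT E {v | a :: v ∈ W}
  | true :: E, W => ∃ a b, a ≠ b ∧ HT E {v | a :: v ∈ W} ∧ HT E {v | b :: v ∈ W}

/-- product of the letters of a word -/
def wp {Γ : Type*} [Group Γ] {D : ℕ} (g : Fin D → Γ) (w : List (Fin D)) : Γ := (w.map g).prod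

/-- the value of a word in base `D`, the first letter is the least significant one -/
def vl {D : ℕ} : List (Fin D) → ℕ
  | [] => 0
  | a :: w => (a : ℕ) + D * vl w

/-- words with the least value among the words of the same length with the same product -/
def MW {Γ : Type*} [Group Γ] {D : ℕ} (g : Fin D → Γ) : Set (List (Fin D)) :=
  {w | ∀ w', w'.length = w.length → wp g w' = wp g w → vl w ≤ vl w'}

/-! ### B. The machine -/

/-- a component: depth and stamps of its levels -/
structure Pc where
  dep : ℕ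
  st : ℕ → ℕ

/-- States of a run.  `ab i n st J`: the primary component has passed `i` blocks, its levels have
the stamps `st`, `n` steps of the run were not free, `J` are the old pieces (last one first).
`cr i d n t0 st J inn`: block `i` is being crossed since the step at time `t0`, the primary
component has depth `d`, `inn` is the inner run. -/
inductive St where
  | ab (i n : ℕ) (st : ℕ → ℕ) (J : List Pc)
  | cr (i d n t0 : ℕ) (st : ℕ → ℕ) (J : List Pc) (inn : St)

namespace St

/-- start of a run -/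
def init : St := ab 0 0 (fun _ => 0) []

/-- number of steps which were not free -/
def nf : St → ℕ
  | ab _ n _ _ => n
  | cr _ _ n _ _ _ _ => n

/-- number of blocks passed by the primary component -/
def ix : St → ℕ
  | ab i _ _ _ => i
  | cr i _ _ _ _ _ _ => i

/-- absorbing, no old pieces -/
def clean : St → Bool
  | ab _ _ _ [] => true
  | _ => false

end St

/-- shorten the last piece by `L` levels -/
def er (L : ℕ) : List Pc → List Pc
  | [] => []
  | P :: J => if P.dep ≤ L then J else ⟨P.dep - L, P.st⟩ :: J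

/-- new stamps `t` from level `a` on -/
def stp (a t : ℕ) (st : ℕ → ℕ) : ℕ → ℕ := fun e => if a ≤ e then t else st e

section machine

variable (σ : Bool → ℕ → ℕ) (L : ℕ)

/-- the primary component (`c` is its coordinate) -/
def prim (c : Bool) : St → Pc
  | .ab i _ st _ => ⟨σ c i, st⟩
  | .cr _ d _ _ st _ _ => ⟨d, st⟩

/-- the step at time `t` of a run with primary coordinate `c` -/
def stepM (t : ℕ) : Bool → St → St
  | c, .ab i n st J =>
    if σ c (i + 1) ≤ σ c i + L then
      .ab (i + 1) (if J.isEmpty then n else n + 1) (stp (σ c i) t st) (er L J)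
    else .cr i (σ c i) (n + 1) t (stp (σ c i) t st) J .init
  | c, .cr i d n t0 st J inn =>
    if (inn.clean && (stepM t (!c) inn).clean) = true then
      if d + L < σ c (i + 1) then .cr i (d + L) (n + 1) t0 st J (stepM t (!c) inn)
      else .ab (i + 1) (n + 1) st (prim σ (!c) (stepM t (!c) inn) :: J)
    else .cr i d (n + 1) t0 st J (stepM t (!c) inn)

/-- the states of the outer run -/
def runM : ℕ → St
  | 0 => .init
  | t + 1 => stepM σ L t false (runM t)

/-- all components with their coordinates, outermost first -/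
def comps : Bool → St → List (Bool × Pc)
  | c, .ab i _ st J => (c, ⟨σ c i, st⟩) :: J.map (fun P => (!c, P))
  | c, .cr _ d _ _ st J inn => (c, ⟨d, st⟩) :: (J.map (fun P => (!c, P)) ++ comps (!c) inn)

end machine

/-- number of levels of `E` of the piece `P` with stamp at least `s` -/
def fr (E : ℕ → Bool) (P : Pc) (s : ℕ) : ℕ :=
  ((Finset.range P.dep).filter (fun e => E e = true ∧ s ≤ P.st e)).card

/-- an upper bound for the number of steps needed to remove the old pieces -/
def eJ (L : ℕ) : List Pc → ℕ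
  | [] => 0
  | P :: J => P.dep / L + 1 + eJ L J

/-- the main invariant of the absorbing states -/
def Good (E E' : ℕ → Bool) (L : ℕ) (P : Pc) (J : List Pc) (s t : ℕ) : Prop :=
  t ≤ s + fr E P s ∨ ∃ w y, t = s + w + y ∧ y ≤ fr E P s ∧
    (w ≤ L * y ∨ ∃ Q ∈ J, w ≤ Q.dep + L * y ∧ w ≤ (L + 1) * (fr E' Q s + L * y))

/-- different components have different stamps -/
def Dj (P Q : Pc) : Prop := ∀ e, e < P.dep → ∀ e', e' < Q.dep → P.st e ≠ Q.st e'

/-- invariants of the state `ab i n st J` at time `t` of a run started at time `τ` -/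
structure AbInv (E : Bool → ℕ → Bool) (σ : Bool → ℕ → ℕ) (L : ℕ) (c : Bool)
    (τ t i n : ℕ) (st : ℕ → ℕ) (J : List Pc) : Prop where
  i_le : τ + i ≤ t
  u_le : t ≤ τ + cnt (E c) 0 (σ c i)
  dep_le : σ c i ≤ L * (t - τ)
  n_le : n ≤ t - τ
  pot : L * (n + eJ L J) ≤ 10 * σ c i
  st_mem : ∀ e, e < σ c i → τ ≤ st e ∧ st e < t
  J_mem : ∀ Q ∈ J, Q.dep ≤ L * (t - τ) ∧ ∀ e, e < Q.dep → τ ≤ Q.st e ∧ Q.st e < t
  disj : List.Pairwise Dj (⟨σ c i, st⟩ :: J)
  good : ∀ s, τ ≤ s → s ≤ t → Good (E c) (E !c) L ⟨σ c i, st⟩ J s t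

/-- invariants of all states at time `t` of a run started at time `τ` -/
def Inv (E : Bool → ℕ → Bool) (σ : Bool → ℕ → ℕ) (L : ℕ) : Bool → ℕ → ℕ → St → Prop
  | c, τ, t, .ab i n st J => AbInv E σ L c τ t i n st J
  | c, τ, t, .cr i d n t0 st J inn =>
    t0 < t ∧ (∃ n0, n + t0 = n0 + t ∧ AbInv E σ L c τ t0 i n0 st J) ∧
    σ c i + L < σ c (i + 1) ∧ d < σ c (i + 1) ∧
    d + L * inn.nf = σ c i + L * (t - (t0 + 1)) ∧ σ c i ≤ d ∧
    (∀ e, σ c i ≤ e → st e = t0) ∧ Inv E σ L (!c) (t0 + 1) t inn

/-- the standing assumptions on the blocks -/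
structure Par (E : Bool → ℕ → Bool) (σ : Bool → ℕ → ℕ) (A L : ℕ) : Prop where
  blk : ∀ c, Blk (E c) A (σ c)
  hA : 1 ≤ A
  hL : L = 40 * A ^ 2

/-! ### Positions -/

section pos

variable {Γ : Type*} [Group Γ]

/-- value of a component; `ω τ e` is the bit of level `e` read at time `τ` -/
def vP (psi : Bool → ℕ → (ℕ → Bool) → Γ) (ω : ℕ → ℕ → Bool) (p : Bool × Pc) : Γ :=
  psi p.1 p.2.dep (fun e => ω (p.2.st e) e)

/-- value of the old pieces of coordinate `c` (the last piece is the first of the list) -/
def vJ (psi : Bool → ℕ → (ℕ → Bool) → Γ) (ω : ℕ → ℕ → Bool) (c : Bool) : List Pc → Γ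
  | [] => 1
  | P :: J => vJ psi ω c J * vP psi ω (c, P)

/-- the position of the state -/
def pos (σ : Bool → ℕ → ℕ) (psi : Bool → ℕ → (ℕ → Bool) → Γ) (ω : ℕ → ℕ → Bool) :
    Bool → St → Γ
  | c, .ab i _ st J => vP psi ω (c, ⟨σ c i, st⟩) * vJ psi ω (!c) J
  | c, .cr _ d _ _ st J inn => vP psi ω (c, ⟨d, st⟩) * vJ psi ω (!c) J * pos σ psi ω (!c) inn

end pos

/-! ### C. Predictability -/

/-- `q Z k η z` is the conditional probability of `Z = z` after `k` more letters, given the
history `η` (last letter first) -/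
noncomputable def q {Λ Γ : Type*} [Fintype Λ] [DecidableEq Γ] (Z : List Λ → Γ) :
    ℕ → List Λ → Γ → ℝ
  | 0, η, z => if Z η = z then 1 else 0
  | k + 1, η, z => (∑ l : Λ, q Z k (l :: η) z) / Fintype.card Λ

/-- the bits of a history: the letter read at time `τ` consists of the bits of the levels `< M` -/
def ev {M : ℕ} : List (Fin M → Bool) → ℕ → ℕ → Bool
  | [], _, _ => false
  | l :: η, τ, e => if τ = η.length then (if h : e < M then l ⟨e, h⟩ else false) else ev η τ e

end Pool.Agent.SPG
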