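import Pool.Agent.Supra60.Tree
import Pool.Agent.Supra60.Measure

set_option autoImplicit false
set_option linter.unusedSectionVars false

namespace Pool.Agent.SPG

open Finset Pool.Agent.Supra60
open scoped Pointwise

/-- A group `G` is supramenable if for every nonempty `A ⊆ G` there is a finitely additive, left-invariant
`μ : 𝒫(G) → [0, ∞]` defined on all subsets of `G` with `μ A = 1`. -/
def Supramenable (G : Type*) [Group G] : Prop :=
  ∀ A : Set G, A.Nonempty → ∃ μ : Set G → ENNReal,
    (∀ S T : Set G, Disjoint S T → μ (S ∪ T) = μ S + μ T) ∧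
    (∀ (g : G) (S : Set G), μ ((fun x => g * x) '' S) = μ S) ∧
    μ A = 1

open Classical in
/-- A group `H` has locally subexponential growth: for every finite `S ⊆ H` and every real `c > 1` one has
`|S ^ n| ≤ c ^ n` for all large `n`, where `S ^ n` is the set of products of `n` elements of `S`
(equivalently, every finitely generated subgroup of `H` has subexponential growth). -/
def LocallySubexponential (H : Type*) [Group H] : Prop :=
  ∀ (S : Finset H) (c : ℝ), 1 < c → ∀ᶠ n : ℕ in Filter.atTop, ((S ^ n).card : ℝ) ≤ c ^ n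

section partA

variable {Γ : Type*} [Group Γ] [DecidableEq Γ]

open Classical in
/-- the points of `A` in the `S`-neighbourhood of `F` -/
noncomputable def nb (A : Set Γ) (S F : Finset Γ) : Finset Γ := (S * F).filter (fun x => x ∈ A)

lemma mem_nb {A : Set Γ} {S F : Finset Γ} {x : Γ} :
    x ∈ nb A S F ↔ (∃ s ∈ S, ∃ y ∈ F, s * y = x) ∧ x ∈ A := by
  classical
  simp only [nb, mem_filter, Finset.mem_mul]

open Classical in
lemma expansion (A : Set Γ)
    (hA : ¬ ∃ μ : Set Γ → ENNReal, (∀ S T : Set Γ, Disjoint S T → μ (S ∪ T) = μ S + μ T) ∧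
      (∀ (g : Γ) (S : Set Γ), μ ((fun x => g * x) '' S) = μ S) ∧ μ A = 1) :
    ∃ (S : Finset Γ) (lam : ℝ), 1 < lam ∧ ∀ F : Finset Γ, (∀ x ∈ F, x ∈ A) →
      lam * F.card ≤ (nb A S F).card := by
  have h := mt (exists_measure_of_folner A) hA
  push Not at h
  obtain ⟨S, n, hS⟩ := h
  have hn : (0 : ℝ) < (n : ℝ) + 1 := by positivity
  refine ⟨insert 1 S, 1 + 1 / ((n : ℝ) + 1), by
    have : (0 : ℝ) < 1 / ((n : ℝ) + 1) := by positivity
    linarith, ?_⟩
  intro F hF
  rcases F.eq_empty_or_nonempty with rfl | hne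
  · simp
  obtain ⟨g, hg, hcard⟩ := hS F hne hF
  set E := (F.image (fun x => g * x)).filter (fun x => x ∈ A ∧ x ∉ F) with hE
  have hdisj : Disjoint F E := by
    rw [disjoint_left]
    intro x hx hxE
    rw [hE, mem_filter] at hxE
    exact hxE.2.2 hx
  have hsub : F ∪ E ⊆ nb A (insert 1 S) F := by
    intro x hx
    rw [mem_nb]
    rcases mem_union.1 hx with hx | hx
    · exact ⟨⟨1, mem_insert_self _ _, x, hx, one_mul x⟩, hF x hx⟩
    · rw [hE, mem_filter, mem_image] at hx
      obtain ⟨⟨y, hy, rfl⟩, hA', _⟩ := hx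
      exact ⟨⟨g, mem_insert_of_mem hg, y, hy, rfl⟩, hA'⟩
  have h1 := card_le_card hsub
  rw [card_union_of_disjoint hdisj] at h1
  have h2 : (F.card : ℝ) < (E.card : ℝ) * ((n : ℝ) + 1) := by exact_mod_cast hcard
  have h3 : (F.card : ℝ) * (1 / ((n : ℝ) + 1)) ≤ E.card := by
    rw [mul_one_div, div_le_iff₀ hn]
    exact h2.le
  have h4 : ((F.card : ℝ) + E.card) ≤ (nb A (insert 1 S) F).card := by exact_mod_cast h1
  linarith

open Classical in
lemma expansion_pow {A : Set Γ} {S : Finset Γ} {lam : ℝ} (hlam : 1 < lam)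
    (h : ∀ F : Finset Γ, (∀ x ∈ F, x ∈ A) → lam * F.card ≤ (nb A S F).card) (m : ℕ) :
    ∀ F : Finset Γ, (∀ x ∈ F, x ∈ A) → lam ^ m * F.card ≤ (nb A (S ^ m) F).card := by
  induction m with
  | zero =>
    intro F hF
    have : F ⊆ nb A (S ^ 0) F := by
      intro x hx
      rw [mem_nb]
      exact ⟨⟨1, by rw [pow_zero]; exact Finset.mem_one.2 rfl, x, hx, one_mul x⟩, hF x hx⟩
    have h1 := card_le_card this
    rw [pow_zero, one_mul]
    exact_mod_cast h1
  | succ m ih =>
    intro F hF
    have h1 := ih F hF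
    have h2 := h (nb A (S ^ m) F) (fun x hx => (mem_nb.1 hx).2)
    have h3 : nb A S (nb A (S ^ m) F) ⊆ nb A (S ^ (m + 1)) F := by
      intro x hx
      rw [mem_nb] at hx ⊢
      obtain ⟨⟨s, hs, y, hy, rfl⟩, hxA⟩ := hx
      rw [mem_nb] at hy
      obtain ⟨⟨t, ht, w, hw, rfl⟩, _⟩ := hy
      refine ⟨⟨s * t, ?_, w, hw, mul_assoc _ _ _⟩, hxA⟩
      rw [pow_succ']
      exact Finset.mul_mem_mul hs ht
    have h4 := card_le_card h3
    calc lam ^ (m + 1) * (F.card : ℝ) = lam * (lam ^ m * F.card) := by ring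
      _ ≤ lam * (nb A (S ^ m) F).card := by gcongr
      _ ≤ (nb A S (nb A (S ^ m) F)).card := h2
      _ ≤ _ := by exact_mod_cast h4

open Classical in
/-- Hall's theorem: many disjoint injections with bounded displacement -/
lemma hall (A : Set Γ) (S : Finset Γ) {K : Type} [Fintype K]
    (h : ∀ F : Finset Γ, (∀ x ∈ F, x ∈ A) → (Fintype.card K : ℝ) * F.card ≤ (nb A S F).card) :
    ∃ φ : A × K → Γ, Function.Injective φ ∧ ∀ p, φ p ∈ A ∧ ∃ s ∈ S, s * (p.1 : Γ) = φ p := by
  let t : A × K → Finset Γ := fun p => nb A S {(p.1 : Γ)}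
  have hH : ∀ s : Finset (A × K), s.card ≤ (s.biUnion t).card := by
    intro s
    let F : Finset Γ := s.image (fun p => (p.1 : Γ))
    have hF : ∀ x ∈ F, x ∈ A := by
      intro x hx
      rw [mem_image] at hx
      obtain ⟨p, _, rfl⟩ := hx
      exact p.1.2
    have h1 : s.card ≤ Fintype.card K * F.card := by
      have : s.card ≤ (F ×ˢ (univ : Finset K)).card := by
        refine card_le_card_of_injOn (fun p => ((p.1 : Γ), p.2)) ?_ ?_
        · intro p hp
          rw [mem_coe] at hp
          simp only [coe_product, Set.mem_prod, mem_coe, mem_univ, and_true, F]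
          exact mem_image_of_mem _ hp
        · intro p _ p' _ hpp
          simp only [Prod.mk.injEq] at hpp
          exact Prod.ext (Subtype.ext hpp.1) hpp.2
      rw [card_product, card_univ, mul_comm] at this
      exact this
    have h2 : nb A S F ⊆ s.biUnion t := by
      intro x hx
      rw [mem_nb] at hx
      obtain ⟨⟨g, hg, y, hy, rfl⟩, hxA⟩ := hx
      rw [mem_image] at hy
      obtain ⟨p, hp, rfl⟩ := hy
      rw [mem_biUnion]
      refine ⟨p, hp, ?_⟩
      rw [mem_nb]
      exact ⟨⟨g, hg, p.1, mem_singleton_self _, rfl⟩, hxA⟩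
    have h3 := h F hF
    have h4 : Fintype.card K * F.card ≤ (nb A S F).card := by exact_mod_cast h3
    exact h1.trans (h4.trans (card_le_card h2))
  obtain ⟨φ, hφ, hφt⟩ := (Finset.all_card_le_biUnion_card_iff_exists_injective t).1 hH
  refine ⟨φ, hφ, ?_⟩
  intro p
  have := hφt p
  simp only [t] at this
  rw [mem_nb] at this
  obtain ⟨⟨s, hs, y, hy, hsy⟩, hA⟩ := this
  rw [mem_singleton] at hy
  subst hy
  exact ⟨hA, s, hs, hsy⟩

/-- the `2M`-ary tree of points of `A` -/
noncomputable def tree {A : Set Γ} {M : ℕ} (φ : A × Option (Bool × Fin M) → Γ) (hφ : ∀ p, φ p ∈ A) (a0 : A) :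
    List (Bool × Fin M) → A
  | [] => ⟨φ (a0, none), hφ _⟩
  | (k :: v) => ⟨φ (tree φ hφ a0 v, some k), hφ _⟩

lemma tree_injective {A : Set Γ} {M : ℕ} {φ : A × Option (Bool × Fin M) → Γ} (hφ : ∀ p, φ p ∈ A) (a0 : A)
    (hinj : Function.Injective φ) : Function.Injective (tree φ hφ a0) := by
  intro v
  induction v with
  | nil =>
    intro w h
    rcases w with _ | ⟨k, w⟩
    · rfl
    · have h1 : φ (a0, none) = φ (tree φ hφ a0 w, some k) := congrArg Subtype.val h
      have h2 := hinj h1
      simp at h2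
  | cons k v ih =>
    intro w h
    rcases w with _ | ⟨k', w⟩
    · have h1 : φ (tree φ hφ a0 v, some k) = φ (a0, none) := congrArg Subtype.val h
      have h2 := hinj h1
      simp at h2
    · have h1 : φ (tree φ hφ a0 v, some k) = φ (tree φ hφ a0 w, some k') := congrArg Subtype.val h
      have h2 := hinj h1
      rw [Prod.mk.injEq, Option.some.injEq] at h2
      rw [ih h2.1, h2.2]

open Classical in
lemma tree_step {A : Set Γ} {M : ℕ} {φ : A × Option (Bool × Fin M) → Γ} {hφ : ∀ p, φ p ∈ A} {a0 : A}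
    {S : Finset Γ} (hS : ∀ p, ∃ s ∈ S, s * (p.1 : Γ) = φ p) (u : List (Bool × Fin M)) :
    ∀ l : List (Bool × Fin M), ∃ s ∈ S ^ l.length,
      s * (tree φ hφ a0 u : Γ) = tree φ hφ a0 (l ++ u) := by
  intro l
  induction l with
  | nil => exact ⟨1, by simp, by simp⟩
  | cons k l ih =>
    obtain ⟨s, hs, hs'⟩ := ih
    obtain ⟨t, ht, ht'⟩ := hS (tree φ hφ a0 (l ++ u), some k)
    refine ⟨t * s, ?_, ?_⟩
    · rw [List.length_cons, pow_succ']
      exact Finset.mul_mem_mul ht hs
    · rw [mul_assoc, hs', ht']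
      rfl

end partA

section partE

variable {G : Type*} [Group G]

lemma measure_transl {μ : Set G → ENNReal} (hadd : ∀ S T : Set G, Disjoint S T → μ (S ∪ T) = μ S + μ T)
    (hinv : ∀ (g : G) (S : Set G), μ ((fun x => g * x) '' S) = μ S) (h0 : μ ∅ = 0)
    {X : Type*} {a b : X → G} (ha : Function.Injective a) (hb : Function.Injective b) (T : Finset G)
    (hT : ∀ x, ∃ t ∈ T, t * a x = b x) : μ (Set.range a) = μ (Set.range b) := by
  classical
  choose t ht ht' using hT
  have e1 : Set.range a = ⋃ s ∈ T, a '' {x | t x = s} := by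
    ext y
    rw [Set.mem_iUnion₂]
    constructor
    · rintro ⟨x, rfl⟩
      exact ⟨t x, ht x, x, rfl, rfl⟩
    · rintro ⟨s, _, x, _, rfl⟩
      exact ⟨x, rfl⟩
  have e2 : Set.range b = ⋃ s ∈ T, b '' {x | t x = s} := by
    ext y
    rw [Set.mem_iUnion₂]
    constructor
    · rintro ⟨x, rfl⟩
      exact ⟨t x, ht x, x, rfl, rfl⟩
    · rintro ⟨s, _, x, _, rfl⟩
      exact ⟨x, rfl⟩
  rw [e1, e2, ← sum_le_of_disjoint hadd h0, ← sum_le_of_disjoint hadd h0]
  · apply sum_congr rfl
    intro s _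
    rw [← hinv s (a '' {x | t x = s})]
    congr 1
    ext y
    simp only [Set.mem_image, Set.mem_ofPred_eq]
    constructor
    · rintro ⟨_, ⟨x, hx, rfl⟩, rfl⟩
      exact ⟨x, hx, by rw [← ht' x, hx]⟩
    · rintro ⟨x, hx, rfl⟩
      exact ⟨a x, ⟨x, hx, rfl⟩, by rw [← ht' x, hx]⟩
  · intro s _ s' _ hss
    rw [Set.disjoint_left]
    rintro _ ⟨x, hx, rfl⟩ ⟨x', hx', hxx⟩
    have := hb hxx
    subst this
    exact hss (hx.symm.trans hx')
  · intro s _ s' _ hss
    rw [Set.disjoint_left]
    rintro _ ⟨x, hx, rfl⟩ ⟨x', hx', hxx⟩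
    have := ha hxx
    subst this
    exact hss (hx.symm.trans hx')

/-- a supramenable group contains no binary tree embedded with bounded displacement -/
lemma no_tree (hG : Supramenable G) (g : List Bool → G) (hg : Function.Injective g) (T : Finset G)
    (hT : ∀ (b : Bool) (v : List Bool), ∃ t ∈ T, t * g v = g (b :: v)) : False := by
  obtain ⟨μ, hadd, hinv, h1⟩ := hG (Set.range g) ⟨g [], [], rfl⟩
  have h0 : μ ∅ = 0 := by
    have := hadd (Set.range g) ∅ (Set.disjoint_empty _)
    rw [Set.union_empty, h1] at this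
    have h2 : (1 : ENNReal) + 0 = 1 + μ ∅ := by rw [add_zero]; exact this
    exact ((ENNReal.add_right_inj ENNReal.one_ne_top).1 h2).symm
  have hb : ∀ b : Bool, μ (Set.range fun v => g (b :: v)) = 1 := by
    intro b
    rw [← h1]
    refine (measure_transl hadd hinv h0 hg ?_ T (hT b)).symm
    intro v w h
    have := hg h
    simpa using this
  have hdisj : Disjoint (Set.range fun v => g (true :: v)) (Set.range fun v => g (false :: v)) := by
    rw [Set.disjoint_left]
    rintro _ ⟨v, rfl⟩ ⟨w, hw⟩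
    have := hg hw
    simp at this
  have hsub : (Set.range fun v => g (true :: v)) ∪ (Set.range fun v => g (false :: v)) ⊆ Set.range g := by
    rintro _ (⟨v, rfl⟩ | ⟨v, rfl⟩)
    · exact ⟨_, rfl⟩
    · exact ⟨_, rfl⟩
  have h2 : (1 : ENNReal) + 1 ≤ 1 := by
    calc (1 : ENNReal) + 1 = μ ((Set.range fun v => g (true :: v)) ∪ (Set.range fun v => g (false :: v))) := by
          rw [hadd _ _ hdisj, hb, hb]
      _ ≤ μ (Set.range g) := by
          conv_rhs => rw [← Set.union_sdiff_cancel hsub]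
          rw [hadd _ _ Set.disjoint_sdiff_right]
          exact le_self_add
      _ = 1 := h1
  norm_num at h2

end partE

/-- the selected binary tree -/
def sel {M : ℕ} (c : List (Bool × Fin M) × Bool → Fin M) : List Bool → List (Bool × Fin M)
  | [] => []
  | (b :: bs) => (b, c (sel c bs, b)) :: sel c bs

lemma sel_fst {M : ℕ} (c : List (Bool × Fin M) × Bool → Fin M) (bs : List Bool) :
    (sel c bs).map Prod.fst = bs := by
  induction bs with
  | nil => rfl
  | cons b bs ih => simp [sel, ih]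

lemma sel_reach {M : ℕ} (c : List (Bool × Fin M) × Bool → Fin M) (bs : List Bool) :
    reach c [] (sel c bs) := by
  induction bs with
  | nil => trivial
  | cons b bs ih =>
    refine ⟨?_, ih⟩
    simp

open Classical in
/-- the counting inequality for the parameters -/
lemma parameters {H : Type*} [Group H] (hH : LocallySubexponential H) (S : Finset H) {lam : ℝ} (hlam : 1 < lam) :
    ∃ (m M : ℕ), 0 < M ∧ ((2 * M + 1 : ℕ) : ℝ) ≤ lam ^ m ∧
      ∀ i, 1 ≤ i → (((S ^ (m * i)).card : ℕ) : ℝ) ≤ ((M : ℝ) / 60) ^ i := by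
  set c := Real.sqrt lam with hc
  have hc1 : 1 < c := by
    rw [hc]; exact Real.lt_sqrt_of_sq_lt (by simpa using hlam)
  have hcc : c * c = lam := Real.mul_self_sqrt (by linarith)
  obtain ⟨n0, hn0⟩ := Filter.eventually_atTop.1 (hH S c hc1)
  obtain ⟨n1, hn1⟩ := Filter.eventually_atTop.1
    ((tendsto_pow_atTop_atTop_of_one_lt hc1).eventually_ge_atTop (130 : ℝ))
  set m := max n0 n1 with hm
  have hx : 130 ≤ c ^ m := hn1 m (le_max_right _ _)
  set x := c ^ m with hxdef
  have hlm : lam ^ m = x * x := by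
    rw [← hcc, mul_pow]
  refine ⟨m, ⌊(x * x - 1) / 2⌋₊, ?_, ?_, ?_⟩
  · apply Nat.floor_pos.2
    nlinarith
  · have h1 : ((⌊(x * x - 1) / 2⌋₊ : ℕ) : ℝ) ≤ (x * x - 1) / 2 := Nat.floor_le (by nlinarith)
    push_cast
    rw [hlm]
    linarith
  · intro i hi
    have h1 : (x * x - 1) / 2 < (⌊(x * x - 1) / 2⌋₊ : ℝ) + 1 := Nat.lt_floor_add_one _
    have h2 : x ≤ (⌊(x * x - 1) / 2⌋₊ : ℝ) / 60 := by
      rw [le_div_iff₀ (by norm_num)]
      nlinarith
    have h3 := hn0 (m * i) (by
      calc n0 ≤ m := le_max_left _ _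
        _ = m * 1 := (mul_one m).symm
        _ ≤ m * i := Nat.mul_le_mul_left m hi)
    calc (((S ^ (m * i)).card : ℕ) : ℝ) ≤ c ^ (m * i) := h3
      _ = x ^ i := by rw [pow_mul]
      _ ≤ _ := pow_le_pow_left₀ (by positivity) h2 i

/-- (helper60) If `G` is supramenable and `H` has locally subexponential growth, then `G × H` is supramenable. -/
theorem factor {G H : Type*} [Group G] [Group H] (hG : Supramenable G) (hH : LocallySubexponential H) :
    Supramenable (G × H) := by
  classical
  intro A hAne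
  by_contra hA
  obtain ⟨S, lam, hlam, hexp⟩ := expansion A hA
  obtain ⟨m, M, hMpos, hM1, hM2⟩ := parameters hH (S.image Prod.snd) hlam
  have : NeZero M := ⟨hMpos.ne'⟩
  have hexpm := expansion_pow hlam hexp m
  obtain ⟨φ, hφinj, hφ⟩ := hall A (S ^ m) (K := Option (Bool × Fin M)) (by
    intro F hF
    refine le_trans ?_ (hexpm F hF)
    have hcard : Fintype.card (Option (Bool × Fin M)) = 2 * M + 1 := by simp
    rw [hcard]
    exact mul_le_mul_of_nonneg_right hM1 (Nat.cast_nonneg _))
  obtain ⟨a0, ha0⟩ := hAne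
  have hφA : ∀ p, φ p ∈ A := fun p => (hφ p).1
  set F := tree φ hφA ⟨a0, ha0⟩ with hFdef
  have hFinj : Function.Injective F := tree_injective hφA _ hφinj
  have hstep := tree_step (hφ := hφA) (a0 := ⟨a0, ha0⟩) (S := S ^ m) (fun p => (hφ p).2)
  rw [← hFdef] at hstep
  have hsnd : ∀ (n : ℕ) (s : G × H), s ∈ S ^ n → s.2 ∈ (S.image Prod.snd) ^ n := by
    intro n
    induction n with
    | zero =>
      intro s hs
      rw [pow_zero, Finset.mem_one] at hs
      rw [hs, pow_zero, Finset.mem_one]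
      rfl
    | succ n ih =>
      intro s hs
      rw [pow_succ, Finset.mem_mul] at hs
      obtain ⟨a, ha, b, hb, rfl⟩ := hs
      rw [pow_succ]
      exact Finset.mul_mem_mul (ih a ha) (mem_image_of_mem _ hb)
  obtain ⟨c, hc⟩ := tree_selection (M := M) (fun v => (F v : G × H).1)
    (fun i => ((S.image Prod.snd) ^ (m * i)).card)
    (by
      intro u i g L hL
      refine card_le_card_of_injOn (fun l => (F (l ++ u) : G × H).2 * ((F u : G × H).2)⁻¹) ?_ ?_
      · intro l hl
        obtain ⟨h1, h2⟩ := hL l hl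
        obtain ⟨s, hs, hs'⟩ := hstep u l
        rw [h1, ← pow_mul] at hs
        have h3 : (F (l ++ u) : G × H).2 = s.2 * (F u : G × H).2 := by
          rw [← hs']; rfl
        simp only [h3, mul_inv_cancel_right]
        exact hsnd _ s hs
      · intro l hl l' hl' hll
        have e1 : (F (l ++ u) : G × H).2 = (F (l' ++ u) : G × H).2 := mul_right_cancel hll
        have e2 : (F (l ++ u) : G × H).1 = (F (l' ++ u) : G × H).1 := by
          rw [(hL l hl).2, (hL l' hl').2]
        have e3 : F (l ++ u) = F (l' ++ u) := Subtype.ext (Prod.ext e2 e1)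
        exact List.append_cancel_right (hFinj e3))
    hM2
  refine no_tree hG (fun bs => (F (sel c bs) : G × H).1) ?_ ((S ^ m).image Prod.fst) ?_
  · intro bs bs' h
    have h1 := hc (sel_reach c bs) (sel_reach c bs') h
    rw [← sel_fst c bs, ← sel_fst c bs', h1]
  · intro b v
    obtain ⟨s, hs, hs'⟩ := hstep (sel c v) [(b, c (sel c v, b))]
    rw [List.length_singleton, pow_one] at hs
    refine ⟨s.1, mem_image_of_mem _ hs, ?_⟩
    have : sel c (b :: v) = [(b, c (sel c v, b))] ++ sel c v := rfl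
    rw [this, ← hs']
    rfl

end Pool.Agent.SPG
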