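import Pool.Agent.SPG.Targets

set_option autoImplicit false

/-! MP_f53b3d_al: products of two groups (target `tPRD`), and the two forms of the question. -/

namespace Pool.Agent.SPG

open Finset Filter
open scoped Pointwise

universe u v

namespace PRD_

/-- supramenability passes to subgroups (injective homomorphisms) -/
lemma of_injective {G : Type u} {K : Type v} [Group G] [Group K] (f : G →* K)
    (hf : Function.Injective f) (h : Supramenable K) : Supramenable G := by
  intro A hA
  obtain ⟨μ, hadd, hinv, h1⟩ := h (f '' A) (hA.image f)
  refine ⟨fun S => μ (f '' S), ?_, ?_, h1⟩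
  · intro S T hST
    show μ (f '' (S ∪ T)) = μ (f '' S) + μ (f '' T)
    rw [Set.image_union]
    exact hadd _ _ ((Set.disjoint_image_iff hf).2 hST)
  · intro g S
    show μ (f '' ((fun x => g * x) '' S)) = μ (f '' S)
    rw [← hinv (f g) (f '' S), Set.image_image, Set.image_image]
    congr 1
    ext x
    simp only [Set.mem_image, map_mul]

lemma iff_of_equiv {G : Type u} {K : Type v} [Group G] [Group K] (e : G ≃* K) :
    Supramenable G ↔ Supramenable K :=
  ⟨of_injective e.symm.toMonoidHom e.symm.injective, of_injective e.toMonoidHom e.injective⟩

open Classical in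
lemma not_lse {H : Type u} [Group H] (h : ¬ LocallySubexponential H) :
    ∃ (S : Finset H) (c : ℝ), 1 < c ∧
      ∃ᶠ n : ℕ in atTop, c ^ n < ((S ^ n).card : ℝ) := by
  unfold LocallySubexponential at h
  push Not at h
  obtain ⟨S, c, hc, hn⟩ := h
  exact ⟨S, c, hc, hn⟩

/-- the number of elements of a power, for any decidability instance -/
def cpw {K : Type*} [Group K] (_i : DecidableEq K) (S : Finset K) (n : ℕ) : ℕ := (S ^ n).card

/-- the image, for any decidability instance -/
def cim {H : Type*} {K : Type*} (_i : DecidableEq K) (f : H → K) (S : Finset H) : Finset K :=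
  S.image f

lemma card_image {H : Type u} {K : Type v} [Group H] [Group K] (i0 : DecidableEq H)
    (i1 i2 : DecidableEq K) (f : H →* K) (hf : Function.Injective f) (S : Finset H) (n : ℕ) :
    cpw i1 (cim i2 f S) n = cpw i0 S n := by
  obtain rfl : i2 = i1 := Subsingleton.elim _ _
  unfold cpw cim
  rw [← Finset.image_pow]
  exact Finset.card_image_of_injective _ hf

lemma main (h_COM : tCOM.{max u v}) (G : Type u) (H : Type v) [Group G] [Group H]
    (h : Supramenable (G × H)) : LocallySubexponential G ∨ LocallySubexponential H := by
  classical
  by_contra hcon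
  push Not at hcon
  obtain ⟨S, c, hc, hS⟩ := not_lse hcon.1
  obtain ⟨T, d, hd, hT⟩ := not_lse hcon.2
  have e1 : 1 < min c d := lt_min hc hd
  have e0 : 0 ≤ min c d := by linarith
  refine h_COM (G × H) (S.image (MonoidHom.inl G H)) (T.image (MonoidHom.inr G H)) (min c d) e1
    ?_ ?_ ?_ h
  · refine hS.mono fun n hn => ?_
    have h1 : min c d ^ n ≤ c ^ n := pow_le_pow_left₀ e0 (min_le_left _ _) n
    refine lt_of_le_of_lt h1 (lt_of_lt_of_eq hn ?_)
    exact congrArg Nat.cast (card_image (fun a b => Classical.propDecidable (a = b))
      (fun a b => Classical.propDecidable (a = b)) _ (MonoidHom.inl G H)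
      (fun x y hxy => by simpa using hxy) S n).symm
  · refine hT.mono fun n hn => ?_
    have h1 : min c d ^ n ≤ d ^ n := pow_le_pow_left₀ e0 (min_le_right _ _) n
    refine lt_of_le_of_lt h1 (lt_of_lt_of_eq hn ?_)
    exact congrArg Nat.cast (card_image (fun a b => Classical.propDecidable (a = b))
      (fun a b => Classical.propDecidable (a = b)) _ (MonoidHom.inr G H)
      (fun x y hxy => by simpa using hxy) T n).symm
  · intro s hs t ht
    simp only [Finset.mem_image, MonoidHom.inl_apply, MonoidHom.inr_apply] at hs ht
    obtain ⟨a, -, rfl⟩ := hs
    obtain ⟨b, -, rfl⟩ := ht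
    simp

end PRD_

open PRD_

theorem allPRD (h_COM : tCOM.{max u v}) : tPRD.{u, v} := by
  intro G H _ _
  constructor
  · intro h
    refine ⟨of_injective (MonoidHom.inl G H) (fun x y hxy => by simpa using hxy) h,
      of_injective (MonoidHom.inr G H) (fun x y hxy => by simpa using hxy) h, main h_COM G H h⟩
  · rintro ⟨hG, hH, h | h⟩
    · exact (iff_of_equiv MulEquiv.prodComm).1 (factor hH h)
    · exact factor hG h

/-- a group of locally subexponential growth is supramenable (known; it also follows from
`factor` with the trivial group as the first factor) -/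
theorem supramenable_of_lse {G : Type u} [Group G] (h : LocallySubexponential G) :
    Supramenable G := by
  have h1 : Supramenable PUnit.{u + 1} := by
    intro A hA
    have hA' : A = Set.univ := by
      obtain ⟨x, hx⟩ := hA
      ext y
      simpa using hx
    classical
    refine ⟨fun S => if S.Nonempty then 1 else 0, ?_, ?_, ?_⟩
    · intro S T hST
      by_cases hS : S.Nonempty
      · by_cases hT : T.Nonempty
        · obtain ⟨x, hx⟩ := hS
          obtain ⟨y, hy⟩ := hT
          exact absurd hy (Set.disjoint_left.1 hST (by simpa using hx))
        · rw [Set.not_nonempty_iff_eq_empty] at hT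
          simp [hT]
      · rw [Set.not_nonempty_iff_eq_empty] at hS
        simp [hS]
    · intro g S
      have : (fun x => g * x) '' S = S := by
        ext x
        constructor
        · rintro ⟨y, hy, -⟩
          exact hy
        · intro hx
          exact ⟨x, hx, rfl⟩
      rw [this]
    · rw [hA']
      simp
  exact of_injective (MonoidHom.inr PUnit.{u + 1} G) (fun x y hxy => by simpa using hxy)
    (factor h1 h)

/-- the square of a group -/
theorem square (h_COM : tCOM.{u}) (G : Type u) [Group G] :
    Supramenable (G × G) ↔ LocallySubexponential G := by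
  rw [allPRD.{u, u} h_COM G G]
  constructor
  · rintro ⟨-, -, h | h⟩ <;> exact h
  · intro h
    exact ⟨supramenable_of_lse h, supramenable_of_lse h, Or.inl h⟩

/-- the product question is the question whether supramenable groups have locally subexponential
growth -/
theorem quest (h_COM : tCOM.{u}) :
    (∀ (G H : Type u) [Group G] [Group H], Supramenable G → Supramenable H →
      Supramenable (G × H)) ↔
    ∀ (G : Type u) [Group G], Supramenable G → LocallySubexponential G := by
  constructor
  · intro h G _ hG
    exact (square h_COM G).1 (h G G hG hG)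
  · intro h G H _ _ hG hH
    exact factor hG (h H hH)

end Pool.Agent.SPG
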