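import Pool.Agent.SPG.Defs
import Pool.Agent.SPG.Factor

set_option autoImplicit false

/-! MP_f53b3d_al: exact targets with proofs (in the comments).  Paper proof: ideas row 3016. -/

namespace Pool.Agent.SPG

open Finset Filter
open scoped Pointwise

universe u v

/-! ### A. Trees of words -/

/-- A1 (count).  PROOF.  Let `sm n f` be the sum of `f E` over all lists `E` of length `n` of bits
(define `sm 0 f = f []`, `sm (n + 1) f = sm n (fun E => f (false :: E)) +
sm n (fun E => f (true :: E))`; it is linear and monotone,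
`sm n (y ^ (E.count true)) = (1 + y) ^ n`).
CLAIM: `W.card <= sm n (fun E => if HT E W then (D - 1) ^ (E.count true) else 0)`, by induction on
`n`: `W` is the disjoint union of the `a :: W_a`; for fixed `E` let `k` be the number of `a` with
`HT E W_a`; then `k <= [1 <= k] + (D - 1) [2 <= k]`, `1 <= k` gives `HT (false :: E) W` and
`2 <= k` gives `HT (true :: E) W`.  If all `E` with `HT E W` had `B * E.count true < n` then
`(D - 1) ^ count = ((D - 1) x) ^ count * (1 / x) ^ count` and `(1 / x) ^ count <= r ^ (B * count)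
<= r ^ n`, so `W.card <= r ^ n * (1 + (D - 1) x) ^ n <= r ^ (2 n)`. -/
def tCNT : Prop := ∀ (D n B : ℕ) (x r : ℝ) (W : Finset (List (Fin D))), 1 ≤ D →
  (∀ w ∈ W, w.length = n) → 0 < x → 1 + ((D : ℝ) - 1) * x ≤ r → 1 / x ≤ r ^ B →
  r ^ (2 * n) < (W.card : ℝ) →
  ∃ E : List Bool, E.length = n ∧ HT E (W : Set (List (Fin D))) ∧ n ≤ B * E.count true

/-- A2 (the tree as a function).  PROOF.  Induction on `E`: `[]`: `φ x = []`.  `false :: E`:
`φ x = a :: φ' (fun e => x (e + 1))`.  `true :: E`: `φ x = a :: φ1 (..)` if `x 0`, otherwise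
`b :: φ2 (..)`. -/
def tFUN : Prop := ∀ (D : ℕ) (E : List Bool) (W : Set (List (Fin D))), HT E W →
  ∃ φ : (ℕ → Bool) → List (Fin D), (∀ x, φ x ∈ W ∧ (φ x).length = E.length) ∧
    (∀ x y d, (∀ e, e < d → E.getD e false = true → x e = y e) →
      (φ x).take d = (φ y).take d) ∧
    (∀ x y d, d ≤ E.length → (φ x).take d = (φ y).take d →
      ∀ e, e < d → E.getD e false = true → x e = y e)

/-- A3 (minimal words).  PROOF.  `vl (u ++ v) = vl u + D ^ u.length * vl v`; a word of the same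
length and product as `u` (or `v`) of smaller value gives one for `u ++ v`.  `vl` is injective on
words of the same length.  Existence: a word of least value. -/
def tMIN : Prop := ∀ (Γ : Type u) [Group Γ] (D : ℕ) (g : Fin D → Γ),
  (∀ u w, u ++ w ∈ MW g → u ∈ MW g ∧ w ∈ MW g) ∧
  (∀ w ∈ MW g, ∀ w' ∈ MW g, w.length = w'.length → wp g w = wp g w' → w = w') ∧
  (∀ w, ∃ w' ∈ MW g, w'.length = w.length ∧ wp g w' = wp g w)

/-- A4 (cutting).  PROOF.  Let `m` be a minimum point of the integer function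
`f d = 2 * B * cnt E 0 d - d` on `[0, n]`.  Then `f m <= 0` and `n <= f n`
(`2 * B * cnt E 0 n >= 2 * n`), so `n <= f n - f m = 2 * B * cnt E m n - (n - m)
<= 2 * B * (n - m)`; and `f m <= f d` is the last claim. -/
def tCUT : Prop := ∀ (E : ℕ → Bool) (n B : ℕ), 1 ≤ B → n ≤ B * cnt E 0 n →
  ∃ m, m ≤ n ∧ n ≤ 2 * B * (n - m) ∧ ∀ d, m ≤ d → d ≤ n → d ≤ m + 2 * B * cnt E m d

open Classical in
/-- A5 (trees from growth).  PROOF.  `D = S.card` (`2 <= D`), `g : Fin D → Γ` lists `S`.  Let
`W = {w in MW g of length n}`: `|S ^ n| <= |W|` (tMIN).  `r = sqrt c`, `x > 0` small with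
`1 + (D - 1) x <= r`, `B >= 1` with `1 / x <= r ^ B`.  For the infinitely many `n` with
`c ^ n < |S ^ n|` tCNT gives `E0`, put `E e = E0.getD e false`; `E0.count true = cnt E 0 n`;
tCUT gives `m`, and `N <= n - m` if `n >= 2 * B * N`.  `A = 2 * B`.  With `φ` of tFUN, for bits `x`
put `x' e = false` for `e < m`, `x' (m + e) = x e`, and for `d <= n - m`
`psi d x = wp g (((φ x').drop m).take d)`, for `d > n - m` the same as for `n - m`.
The levels: `E' e = E (m + e)` for `e < n - m`, `E' e = true` for `n - m <= e`.  `dep`: tFUN;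
`inj`: equal products of words in `MW g` of the same length are equal words (tMIN), so
`(φ x').take (m + d) = (φ y').take (m + d)` as `x' = y'` below `m`.  `step`: one more letter. -/
def tETR : Prop := ∀ (Γ : Type u) [Group Γ] (S : Finset Γ) (c : ℝ), 1 < c →
  (∃ᶠ n : ℕ in atTop, c ^ n < ((S ^ n).card : ℝ)) →
  ∃ A : ℕ, 1 ≤ A ∧ ∀ N : ℕ, Nonempty (ETree (insert 1 S) A N)

/-! ### B. Blocks and the machine -/

/-- B1 (blocks).  PROOF.  `σ 0 = 0`, `σ (i + 1)` = least `d > σ i` with
`d <= σ i + 2 * A * cnt E (σ i) d` (it exists: for `d = 2 * A * σ i + 1`,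
`A * cnt E 0 d >= d` and `cnt E 0 (σ i) <= σ i` give `2 A cnt E (σ i) d >= 2 d - 2 A σ i >= d`).
Minimality: `2 A * cnt(block) <= l + 2 A` for the length `l` of a block, so
`2 A * cnt E 0 (σ i) <= σ i + 2 A i`, and `2 σ i <= 2 A * cnt E 0 (σ i)`: `σ i <= 2 A i`.
Larger `A'`: monotone. -/
def tBLK : Prop := ∀ (E : ℕ → Bool) (A : ℕ), 1 ≤ A → (∀ d, d ≤ A * cnt E 0 d) →
  ∀ A', 2 * A ≤ A' → ∃ σ, Blk E A' σ

/-- B2 (facts on all states).  PROOF.  By cases on `X` (induction for `cr`).
`ab`: `L * nf <= 10 σ_i <= 10 A i <= 10 A u` with `u = t - τ`, so `4 A nf <= u`.  `cr` with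
inner local time `v = t - (t0 + 1)`, `u0 = t0 - τ`, `l = σ (i+1) - σ i`: by induction
`2 * inn.nf <= v`, `d - σ i = L (v - inn.nf) >= L v / 2`, so `L v <= 2 (d - σ i) < 2 l`.
`nf = n0 + 1 + v` (`n + t0 = n0 + t`), `L n0 <= 10 σ i`, so `L (n0 + v) <= 10 σ (i + 1)
<= 10 A (i + 1)`, `4 (n0 + v) <= i + 1 <= u0 + 1`, and `40 A ^ 2 = L < l <= A (i + 1)` gives
`40 <= i + 1 <= u0 + 1`; so `4 nf <= u0 + 5 <= 2 u`.  Third claim: `v <= (i + 1) / 20 <=
cnt + 1` since `i <= u0 <= cnt E 0 (σ i)`.  The others: `d <= σ i + L v`,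
`σ i <= L u0`; the stamps of the levels `e < σ i` are in `[τ, t0)` and the others are `t0`. -/
def tFAC : Prop := ∀ (E : Bool → ℕ → Bool) (σ : Bool → ℕ → ℕ) (A L : ℕ), Par E σ A L →
  ∀ (X : St) (c : Bool) (τ t : ℕ), Inv E σ L c τ t X →
  τ ≤ t ∧ 2 * X.nf ≤ t - τ ∧ t ≤ τ + 2 * cnt (E c) 0 (σ c X.ix) + 2 ∧
  σ c X.ix ≤ (prim σ c X).dep ∧ (prim σ c X).dep ≤ L * (t - τ) ∧
  ∀ e, e < (prim σ c X).dep → τ ≤ (prim σ c X).st e ∧ (prim σ c X).st e < t

/-- B3 (absorbing a short block).  PROOF.  `cnt (block) >= 1` (h1 and lt).  `pot`: if `J = []`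
the number `n` does not change; otherwise `eJ L (er L J) + 1 <= eJ L J`.  `good`: for
`s <= t` take the same `w` and `y + 1` (the new levels of the block have the stamp `t >= s`, the
old ones keep theirs; `er` takes at most `L` from `dep` and from `fr` of the first piece; if
`er` removes the piece `Q` then `Q.dep <= L`, so `w <= L * (y + 1)`); in the first case
`t + 1 <= s + fr + 1`.  For `s = t + 1`: first case.  `disj`: the new levels of the primary have
the stamp `t`, all others are `< t`. -/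
def tSTA : Prop := ∀ (E : Bool → ℕ → Bool) (σ : Bool → ℕ → ℕ) (A L : ℕ), Par E σ A L →
  ∀ (c : Bool) (τ t i n : ℕ) (st : ℕ → ℕ) (J : List Pc), AbInv E σ L c τ t i n st J →
  σ c (i + 1) ≤ σ c i + L →
  AbInv E σ L c τ (t + 1) (i + 1) (if J.isEmpty then n else n + 1) (stp (σ c i) t st) (er L J)

/-- B4 (arrival).  `v = t - (t0 + 1)` is the inner local time, the inner run is at `ab` with
no old pieces, and its primary becomes an old piece.  PROOF.  `l = σ (i+1) - σ i`,
`F = v - m` (free inner steps).  `l <= L F` (h8), `L (F - 1) < l` (h7), `2 m <= v` (h6), so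
`v <= 2 F`, `L v <= 2 L F < 2 l + 2 L`, `L (1 + v) < 5 l <= 5 A cnt(block) <= L cnt(block)`.  So
`u_le`, `i_le`, `dep_le`: `σ (i + 1) <= σ i + L F`.  `pot`: `n0 + (t - t0) = n0 + 1 + v`, the new
piece has `dep <= L v` so `dep / L + 1 <= v + 1`, altogether `2 (v + 1)` more and
`2 L (v + 1) < 10 l`.  Stamps: old levels `< t0`, block `i`: `t0`, the new piece: in
`[t0 + 1, t)`.  `good`: `s <= t0`: as `t - t0 = 1 + v <= cnt(block)` and the stamps of block
`i` are `t0 >= s`: take the same `w` and `y + (t - t0)`.  `t0 < s`: `y = 0`, `w = t - s`, `Q` = the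
new piece: `dep Q >= cnt >= v >= w` (`u_le` of the inner run), and `good` of the inner
run with empty `J`: `t - s <= (L + 1) * fr Q s`. -/
def tSTC : Prop := ∀ (E : Bool → ℕ → Bool) (σ : Bool → ℕ → ℕ) (A L : ℕ), Par E σ A L →
  ∀ (c : Bool) (τ t t0 i j n0 m : ℕ) (st st' : ℕ → ℕ) (J : List Pc),
  AbInv E σ L c τ t0 i n0 st J → σ c i + L < σ c (i + 1) → (∀ e, σ c i ≤ e → st e = t0) →
  t0 < t → AbInv E σ L (!c) (t0 + 1) t j m st' [] → 2 * m ≤ t - (t0 + 1) →
  σ c i + L * (t - (t0 + 1)) < σ c (i + 1) + L * (m + 1) →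
  σ c (i + 1) + L * m ≤ σ c i + L * (t - (t0 + 1)) →
  AbInv E σ L c τ t (i + 1) (n0 + (t - t0)) st (⟨σ (!c) j, st'⟩ :: J)

/-- B5 (start of a run).  PROOF.  Trivial (`σ c 0 = 0`). -/
def tINI : Prop := ∀ (E : Bool → ℕ → Bool) (σ : Bool → ℕ → ℕ) (A L : ℕ), Par E σ A L →
  ∀ (c : Bool) (τ : ℕ), Inv E σ L c τ τ St.init

/-- B6 (one step).  Hypotheses: tFAC, tSTA, tSTC, tINI.  PROOF.  Induction on `X`.  `ab`, short
block: tSTA.  `ab`, long block: `Inv` of `cr` with `d = σ i`, inner state `init` at time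
`t + 1`, `AbInv` at `t0 = t` with the new stamps (`AbInv` depends only on the stamps of the levels
`< σ i`: congruence lemma).  `cr`: the inner state keeps `Inv`.  Free step: `inn` and the new
inner state are both `ab` without old pieces and have the same `nf` (in `stepM` for `ab` with
`J = []`), so `d + L` satisfies the equation; on arrival tSTC (`m = inn.nf`, `2 m <= ..` by tFAC
for the new inner state).  A step which is not free: the new inner `nf` is larger by `1` (it is
`ab` with `J` nonempty, or it goes from `ab` to `cr`, or it is `cr`; the only other case is `ab`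
with `J` nonempty before and empty after: `nf` grows by `1` too), `d` is unchanged. -/
def tSTP : Prop := ∀ (E : Bool → ℕ → Bool) (σ : Bool → ℕ → ℕ) (A L : ℕ), Par E σ A L →
  ∀ (X : St) (c : Bool) (τ t : ℕ), Inv E σ L c τ t X →
  Inv E σ L c τ (t + 1) (stepM σ L t c X)

/-- B7 (fresh bits).  Hypothesis: tFAC.  PROOF.  Induction on `X`.  `ab`: `good`, in the first case
and for `w <= L y` the primary, otherwise the larger one of `fr` of the primary and of `Q`:
`t - s <= w + y <= (L + 1) (fr Q + L y) + y <= (L ^ 2 + 2 L + 2) max`.  `cr`, `t0 < s`: the inner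
state.  `cr`, `s <= t0`: `t - t0 <= 2 cnt + 3` with `cnt = cnt (E !c) 0 (σ (!c) inn.ix) <=
fr (inner primary) s` (tFAC for `inn`: all stamps of its primary are `> t0`), and
`t0 - s <= (L + 2) ^ 2 * max` over the primary and `J` at the time `t0` (still present). -/
def tW2 : Prop := ∀ (E : Bool → ℕ → Bool) (σ : Bool → ℕ → ℕ) (A L : ℕ), Par E σ A L →
  ∀ (X : St) (c : Bool) (τ t : ℕ), Inv E σ L c τ t X → ∀ s, τ ≤ s → s ≤ t →
  ∃ p ∈ comps σ c X, t ≤ s + ((L + 2) ^ 2 + 2) * fr (E p.1) p.2 s + 3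

/-- B8 (stamps).  PROOF.  Induction on `X`; in the case `cr` the outer components have stamps
`<= t0` and the inner ones `> t0`. -/
def tDSJ : Prop := ∀ (E : Bool → ℕ → Bool) (σ : Bool → ℕ → ℕ) (A L : ℕ), Par E σ A L →
  ∀ (X : St) (c : Bool) (τ t : ℕ), Inv E σ L c τ t X →
  List.Pairwise (fun p p' : Bool × Pc => Dj p.2 p'.2) (comps σ c X) ∧
  ∀ p ∈ comps σ c X, p.2.dep ≤ L * (t - τ) ∧ ∀ e, e < p.2.dep → τ ≤ p.2.st e ∧ p.2.st e < t

/-! ### Positions -/

/-- B9 (bounded speed).  Let `U` be symmetric, `S c ⊆ U`, `1 ∈ U`.  PROOF.  Elements of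
`closure (S false)` and `closure (S true)` commute; `vP (c, P)` lies in `closure (S c)`.
`psi (d + k) x = psi d x * u` with `u` in `(S c) ^ k`.  Induction on `X` for:
`pos (new) = pos (old) * k` with `k` in `U ^ (3 * L)`.  `ab` short: the primary gets a factor in
`U ^ L`, which commutes with `vJ (!c)`; `vJ (er L J) = vJ J * u`, `u` in `U ^ L` (inverse of
the last `L` letters of the first piece, or of the whole piece); altogether `U ^ (2 L)`.
`ab` long: nothing moves (`pos init = 1`).  `cr` not free: by induction.  `cr` free: `inn` and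
the new inner state are `ab` without old pieces, `pos (new inner) = pos inn * k`, `k` in
`U ^ L` (or `U ^ (2 L)`), all in `closure (S !c)`; the primary gets a factor `u` in `U ^ L` of
`closure (S c)` (from depth `d` to `d + L` or to `σ (i + 1)`, `d < σ (i + 1) <= d + L`), which
commutes with everything behind it.  On arrival the new piece has the position of the inner
state. -/
def tLIP : Prop := ∀ (Γ : Type u) [Group Γ] [DecidableEq Γ] (S : Bool → Finset Γ) (U : Finset Γ)
    (E : Bool → ℕ → Bool) (σ : Bool → ℕ → ℕ) (L : ℕ) (psi : Bool → ℕ → (ℕ → Bool) → Γ),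
  (∀ s ∈ S false, ∀ s' ∈ S true, s * s' = s' * s) →
  (∀ c, S c ⊆ U) → 1 ∈ U → (∀ x ∈ U, x⁻¹ ∈ U) →
  (∀ c, σ c 0 = 0) → (∀ c i, σ c i < σ c (i + 1)) →
  (∀ c x, psi c 0 x = 1) → (∀ c d x, ∃ s ∈ S c, psi c (d + 1) x = psi c d x * s) →
  (∀ c d x y, (∀ e, e < d → x e = y e) → psi c d x = psi c d y) →
  ∀ (X : St) (c : Bool) (τ t : ℕ) (ω : ℕ → ℕ → Bool), Inv E σ L c τ t X →
  ∃ k ∈ U ^ (3 * L), pos σ psi ω c (stepM σ L t c X) = pos σ psi ω c X * k

/-- B10 (the position depends only on the bits of the components).  PROOF.  Induction on `X`. -/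
def tCAU : Prop := ∀ (Γ : Type u) [Group Γ] (σ : Bool → ℕ → ℕ)
    (psi : Bool → ℕ → (ℕ → Bool) → Γ),
  (∀ c d x y, (∀ e, e < d → x e = y e) → psi c d x = psi c d y) →
  ∀ (X : St) (c : Bool) (ω ω' : ℕ → ℕ → Bool),
  (∀ p ∈ comps σ c X, ∀ e, e < p.2.dep → ω (p.2.st e) e = ω' (p.2.st e) e) →
  pos σ psi ω c X = pos σ psi ω' c X

/-- B11 (the position determines the bits of a component if the other bits are fixed).
PROOF.  `pos = a * vP p * b` where `a, b` are products of values of the other components, whose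
stamps differ from those of `p`; so `vP` agrees for `ω` and `ω'`.  (First show by induction that
`pos σ psi ω c X` is the product of `vP` over a permutation of `comps σ c X`, e.g. a list
`l` with `l ~ comps` independent of `ω`; pairwise `Dj` is symmetric.) -/
def tINJ : Prop := ∀ (Γ : Type u) [Group Γ] (σ : Bool → ℕ → ℕ) (E : Bool → ℕ → Bool) (N : ℕ)
    (psi : Bool → ℕ → (ℕ → Bool) → Γ),
  (∀ c d x y, (∀ e, e < d → x e = y e) → psi c d x = psi c d y) →
  (∀ c d, d ≤ N → ∀ x y, psi c d x = psi c d y → ∀ e, e < d → E c e = true → x e = y e) →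
  ∀ (X : St) (c : Bool) (ω ω' : ℕ → ℕ → Bool) (p : Bool × Pc),
  List.Pairwise (fun p p' : Bool × Pc => Dj p.2 p'.2) (comps σ c X) →
  p ∈ comps σ c X → p.2.dep ≤ N →
  (∀ τ e, ¬ (e < p.2.dep ∧ τ = p.2.st e) → ω τ e = ω' τ e) →
  pos σ psi ω c X = pos σ psi ω' c X →
  ∀ e, e < p.2.dep → E p.1 e = true → ω (p.2.st e) e = ω' (p.2.st e) e

/-! ### C. Predictability and the greedy tree -/

/-- C1 (counting).  PROOF.  `q Z k η z` is the number of lists `ζ` of length `k` with
`Z (ζ ++ η) = z` divided by `(2 ^ M) ^ k` (induction on `k`).  These lists are determined by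
their bits off `X` (hypothesis), so there are at most `2 ^ (M k - X.card)` of them. -/
def tQCT : Prop := ∀ (Γ : Type u) [DecidableEq Γ] (M k : ℕ) (Z : List (Fin M → Bool) → Γ)
    (η : List (Fin M → Bool)) (z : Γ) (X : Finset (ℕ × ℕ)),
  (∀ p ∈ X, η.length ≤ p.1 ∧ p.1 < η.length + k ∧ p.2 < M) →
  (∀ ζ ζ' : List (Fin M → Bool), ζ.length = k → ζ'.length = k →
    (∀ τ e, (τ, e) ∉ X → ev (ζ ++ η) τ e = ev (ζ' ++ η) τ e) → Z (ζ ++ η) = Z (ζ' ++ η) →
    ζ = ζ') →
  q Z k η z ≤ (1 / 2) ^ X.card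

/-- C2 (predictability of the machine).  Hypotheses: tINI, tSTP, tW2, tDSJ, tCAU, tINJ, tQCT.
PROOF.  `Inv` holds for `runM t` at time `t` (started at `0`).  For `η` and `k` put
`s = η.length`, `t = s + k`.  tW2 gives a component `p` of `runM t` with
`k <= ((L + 2) ^ 2 + 2) * m + 3`, `m = fr (E p.1) p.2 s`; `X` = the set of the pairs
`(p.2.st e, e)`, `e < p.2.dep`, `E p.1 e`, `s <= p.2.st e` (`X.card = m`); `p.2.dep <= L t <= M`.
If `ζ, ζ'` agree off `X` and give the same position then tINJ gives `ev` equal on `X` too, and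
lists of the same length with the same `ev` (for all `τ < length`, `e < M`) are equal. -/
def tPRE : Prop := ∀ (Γ : Type u) [Group Γ] [DecidableEq Γ] (E : Bool → ℕ → Bool)
    (σ : Bool → ℕ → ℕ) (A L N M : ℕ) (psi : Bool → ℕ → (ℕ → Bool) → Γ), Par E σ A L →
  (∀ c d x y, (∀ e, e < d → x e = y e) → psi c d x = psi c d y) →
  (∀ c d, d ≤ N → ∀ x y, psi c d x = psi c d y → ∀ e, e < d → E c e = true → x e = y e) →
  ∀ (η : List (Fin M → Bool)) (k : ℕ), L * (η.length + k) ≤ N → L * (η.length + k) ≤ M →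
  ∃ m : ℕ, k ≤ ((L + 2) ^ 2 + 2) * m + 3 ∧ ∀ z : Γ,
    q (fun η : List (Fin M → Bool) => pos σ psi (ev η) false (runM σ L η.length)) k η z ≤
      (1 / 2) ^ m

/-- C3 (greedy).  PROOF.  For `η` and `Env : ℕ → Finset Γ` put
`H j η Env = sum over r <= j of 2 ^ r * sum over z in Env r of q Z (a * r) η z`.
CLAIM(j): if `η.length = a * i`, `i + j <= n` and `H j η Env <= 1 / 2` then there is a tree
of depth `j` above `η` (a function on lists of bits) with positions `Z` which are different on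
each level `r <= j` and not in `Env r`.  `j = 0`: `Z η` is not in `Env 0`.  `j + 1`: `Z η` is
not in `Env 0`.  AVERAGING: for every finite combination with coefficients `>= 0` there is a
letter `l` with `sum w q (k) (l :: η) z <= sum w q (k + 1) η z`; iterating, there is a list
`ω` of length `a` with `H j (ω ++ η) (Env shifted) <= (1 / 2) H (j + 1) η Env <= 1 / 4`.  Take
the tree above `ω ++ η` and add its positions to `Env`: this adds to `H (j + 1) η Env` at most
`sum over 1 <= r <= j + 1 of 2 ^ r * 2 ^ (r - 1) * (1 / 16) ^ r <= 1 / 2`.  So there is `ω'` with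
`H j (ω' ++ η) (new Env shifted) <= 1 / 2`: take the tree above `ω' ++ η`. -/
def tGRD : Prop := ∀ (Λ : Type) (Γ : Type u) [Fintype Λ] [Nonempty Λ] [DecidableEq Γ]
    (Z : List Λ → Γ) (a n : ℕ),
  (∀ (η : List Λ) (r : ℕ) (z : Γ), 1 ≤ r → η.length + a * r ≤ a * n →
    q Z (a * r) η z ≤ (1 / 16) ^ r) →
  ∃ f : List Bool → List Λ, f [] = [] ∧
    (∀ w b, w.length < n → ∃ ω : List Λ, ω.length = a ∧ f (b :: w) = ω ++ f w) ∧
    ∀ w w', w.length = w'.length → w.length ≤ n → Z (f w) = Z (f w') → w = w'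

/-! ### D. Conclusion -/

/-- D1 (compactness).  PROOF.  Labels `k n b w` in `K` with `f n (b :: w) = f n w * k n b w` for
`w.length < n`.  Let `𝒰` be an ultrafilter on `ℕ` finer than `atTop` (`hyperfilter`); `K` is finite,
so there are `k b w` in `K` with `k n b w = k b w` for `𝒰`-almost all `n`.  `f [] = 1`,
`f (b :: w) = f w * k b w`.  For every `w` we have `(f n [])⁻¹ * f n w = f w` for almost all
`n`, hence `f` is injective on each level. -/
def tCPT : Prop := ∀ (Γ : Type u) [Group Γ] (K : Finset Γ),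
  (∀ n : ℕ, ∃ f : List Bool → Γ, (∀ w b, w.length < n → ∃ k ∈ K, f (b :: w) = f w * k) ∧
    ∀ w w', w.length = w'.length → w.length ≤ n → f w = f w' → w = w') →
  ∃ f : List Bool → Γ, (∀ w b, ∃ k ∈ K, f (b :: w) = f w * k) ∧
    ∀ w w', w.length = w'.length → f w = f w' → w = w'

/-- D2.  PROOF.  `Multiplicative ℤ` is locally subexponential (`|S ^ n| <= 2 R n + 1`), so
`Γ × Multiplicative ℤ` would be supramenable (`factor` in Factor.lean).  The map
`v ↦ ((f v)⁻¹, ofAdd v.length)` contradicts `no_tree` (Factor.lean). -/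
def tNSP : Prop := ∀ (Γ : Type u) [Group Γ] (K : Finset Γ) (f : List Bool → Γ),
  (∀ w b, ∃ k ∈ K, f (b :: w) = f w * k) →
  (∀ w w', w.length = w'.length → f w = f w' → w = w') → ¬ Supramenable Γ

open Classical in
/-- D3 (main theorem).  Hypotheses: tETR, tBLK, tPRE, tLIP, tINI, tSTP, tDSJ, tCAU, tGRD, tCPT,
tNSP.  PROOF.  Trees for both coordinates with a common `A0`, `A = 2 * A0`, `L = 40 * A ^ 2`,
`K = (L + 2) ^ 2 + 2`, `a = 4 * K + 3`.  For `n` take `N = M = L * a * n` and the process `Z` of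
tPRE; `q Z (a * r) η z <= (1 / 2) ^ m` with `a * r <= K * m + 3`, so `4 * r <= m` for `r >= 1`.
tGRD, tLIP (`a` steps: `U ^ (3 * L * a)`; the position of `runM (η.length)` for `ω ++ η` is that
for `η` by tCAU, as all stamps are `< η.length`), tCPT, tNSP. -/
def tCOM : Prop := ∀ (Γ : Type u) [Group Γ] (S T : Finset Γ) (c : ℝ), 1 < c →
  (∃ᶠ n : ℕ in atTop, c ^ n < ((S ^ n).card : ℝ)) →
  (∃ᶠ n : ℕ in atTop, c ^ n < ((T ^ n).card : ℝ)) →
  (∀ s ∈ S, ∀ t ∈ T, s * t = t * s) → ¬ Supramenable Γ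

/-- D4 (products).  Hypothesis: tCOM (in the universe of `G × H`).  PROOF.  `→`: `G` and `H` are
supramenable (`A × {1}`), and if both were not locally subexponential then the sets
`S × {1}` and `{1} × T` contradict tCOM (take the smaller one of the two constants `c`).
`←`: `factor`, and the symmetric version through `G × H ≃* H × G`. -/
def tPRD : Prop := ∀ (G : Type u) (H : Type v) [Group G] [Group H],
  Supramenable (G × H) ↔ Supramenable G ∧ Supramenable H ∧
    (LocallySubexponential G ∨ LocallySubexponential H)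

end Pool.Agent.SPG
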